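import Pool.Agent.N745.NT.Lin
import Pool.Agent.N745.T1.Num1

/-!
# Tuples with a member divisible by a high power and a solid member
-/

set_option autoImplicit false

namespace Pool.Agent.N745.NT

open Finset Pool.Agent.H785R2.ABC Pool.Agent.Y913 Pool.Agent.Y913.Nb Pool.Agent.N745.T1

/-- a divisor `< 2 ^ s` of a power of `f` divides `f ^ s` -/
theorem dvd_pow_of_lt {f M s g : ℕ} (hf : 1 ≤ f) (hg : g ∣ f ^ M) (hlt : g < 2 ^ s) :
    g ∣ f ^ s := by
  have hf0 : f ≠ 0 := by omega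
  have hg0 : g ≠ 0 := by
    rintro rfl
    exact absurd (zero_dvd_iff.1 hg) (pow_ne_zero _ hf0)
  rw [← Nat.factorization_le_iff_dvd hg0 (pow_ne_zero _ hf0)]
  intro p
  rw [Nat.factorization_pow]
  simp only [Finsupp.smul_apply, smul_eq_mul]
  by_cases hp : p.Prime
  · by_cases hpf : p ∣ f
    · have h1 : 1 ≤ f.factorization p := (hp.dvd_iff_one_le_factorization hf0).1 hpf
      have h2 : 2 ^ (g.factorization p) ≤ g :=
        (Nat.pow_le_pow_left hp.two_le _).trans (Nat.ordProj_le p hg0)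
      have h3 : g.factorization p < s :=
        (Nat.pow_lt_pow_iff_right (by norm_num : 1 < 2)).1 (h2.trans_lt hlt)
      calc g.factorization p ≤ s * 1 := by omega
        _ ≤ s * f.factorization p := Nat.mul_le_mul_left _ h1
    · have h1 : ¬ p ∣ g := fun h => hpf (hp.dvd_of_dvd_pow (h.trans hg))
      rw [Nat.factorization_eq_zero_of_not_dvd h1]
      exact Nat.zero_le _
  · rw [Nat.factorization_eq_zero_of_not_prime _ hp]
    exact Nat.zero_le _

/-- a congruence modulo a high power after removing a bounded factor -/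
theorem dvd_sub_pow {f M' s : ℕ} (hf : 1 ≤ f) (hs : s ≤ M') {v d : ℤ} 
    (hlt : v.natAbs < 2 ^ s) (hv : v ≠ 0) (h : ((f ^ M' : ℕ) : ℤ) ∣ v * d) :
    ((f ^ (M' - s) : ℕ) : ℤ) ∣ d := by
  have hF1 : 1 ≤ f ^ M' := Nat.one_le_iff_ne_zero.2 (pow_ne_zero _ (by omega))
  have h1 : ((f ^ M' : ℕ) : ℤ) ∣ (v.natAbs : ℤ) * d := by
    rcases Int.natAbs_eq v with h4 | h4
    · rw [← h4]; exact h
    · have : (v.natAbs : ℤ) = -v := by omega
      rw [this, neg_mul]
      exact (dvd_neg).2 h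
  have h2 := dvd_quot hF1 h1
  refine dvd_trans ?_ h2
  have hg : 0 < Nat.gcd (f ^ M') v.natAbs := Nat.gcd_pos_of_pos_left _ hF1
  have h3 : Nat.gcd (f ^ M') v.natAbs ∣ f ^ s := by
    apply dvd_pow_of_lt hf (Nat.gcd_dvd_left _ _)
    exact (Nat.gcd_le_right _ (Int.natAbs_pos.2 hv)).trans_lt hlt
  apply Int.natCast_dvd_natCast.2
  obtain ⟨k, hk⟩ := h3
  refine ⟨k, ?_⟩
  apply Nat.div_eq_of_eq_mul_right hg
  calc f ^ M' = f ^ (M' - s) * f ^ s := by rw [← pow_add]; congr 1; omega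
    _ = _ := by rw [hk]; ring

/-- **one member divisible by `f ^ M'`, one solid member** -/
theorem bl2 (n w : ℕ) : ∃ C0 : ℕ, ∀ (m Z f M' s : ℕ) (v : Fin m → ℤ) (N : ℤ) (Y0 : ℝ)
    (T : Finset (Fin m → ℕ)) (a c : Fin m), 2 ≤ f → 1 ≤ M' → 1 ≤ Y0 →
    Y0 ≤ (((f ^ 2) ^ w : ℕ) : ℝ) → C0 * (n * Nat.log 2 Z) ≤ f ^ 2 →
    2 * KK n (n * w) + s ≤ M' → (∀ i, v i ≠ 0 ∧ (v i).natAbs < 2 ^ s) → a ≠ c →
    (∀ t ∈ T, Tup v N Z t ∧ NB n Y0 (t a) ∧ f ^ M' ∣ t c) →
    (∀ t ∈ T, ∀ t' ∈ T, ∀ i, i ∉ ({a, c} : Finset (Fin m)) → t i = t' i) →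
    T.card ≤ (2 * Nat.log 2 Z + 1) ^ n * (C0 * (f ^ 2) ^ n) ^ n := by
  classical
  obtain ⟨C0, h⟩ := count_one n w
  refine ⟨C0, ?_⟩
  intro m Z f M' s v N Y0 T a c hf hM' hY0 hY0f hE hKK hv hac hT hfix
  rcases T.eq_empty_or_nonempty with h0 | ⟨t0, ht0⟩
  · rw [h0, card_empty]
    exact Nat.zero_le _
  have hsum2 : ∀ t ∈ T, v a * ((t a : ℤ) - t0 a) + v c * ((t c : ℤ) - t0 c) = 0 := by
    intro t ht
    have h1 := (hT t ht).1.diff (hT t0 ht0).1 {a, c} (fun i hi => hfix t ht t0 ht0 i hi)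
    rw [sum_insert (by simp [hac]), sum_singleton] at h1
    exact h1
  have hcard : T.card = (T.image fun t => t a).card := by
    symm
    apply card_image_of_injOn
    intro t ht t' ht' htt
    simp only at htt
    have g1 := hsum2 t ht
    have g2 := hsum2 t' ht'
    have g3 : v c * ((t c : ℤ) - t' c) = 0 := by
      rw [htt] at g1
      linear_combination g1 - g2
    rcases mul_eq_zero.1 g3 with g4 | g4
    · exact absurd g4 (hv c).1
    have g5 : t c = t' c := by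
      have : (t c : ℤ) = t' c := by linarith
      exact_mod_cast this
    funext i
    by_cases hi : i ∈ ({a, c} : Finset (Fin m))
    · rw [mem_insert, mem_singleton] at hi
      rcases hi with rfl | rfl
      · exact htt
      · exact g5
    · exact hfix t ht t' ht' i hi
  rw [hcard]
  apply h f (M' - s) (Nat.log 2 Z) Y0 (T.image fun t => t a) ((t0 a : ℕ) : ZMod (f ^ (M' - s))) hf
    hY0 hY0f hE (by omega)
  intro x hx
  obtain ⟨t, ht, rfl⟩ := mem_image.1 hx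
  obtain ⟨g1, g2, g3⟩ := hT t ht
  refine ⟨g1.pos a, g2, ?_, ?_, Nat.log_mono_right (g1.le a)⟩
  · exact Nat.Coprime.coprime_dvd_right ((dvd_pow_self f (by omega)).trans g3) (g1.cop a c hac)
  · have e1 := hsum2 t ht
    have e2 : ((f ^ M' : ℕ) : ℤ) ∣ v a * ((t a : ℤ) - t0 a) := by
      have e3 : v a * ((t a : ℤ) - t0 a) = - (v c * ((t c : ℤ) - t0 c)) := by linarith
      rw [e3]
      apply (dvd_neg).2
      apply Dvd.dvd.mul_left
      exact dvd_sub (Int.natCast_dvd_natCast.2 g3) (Int.natCast_dvd_natCast.2 (hT t0 ht0).2.2)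
    have e4 := dvd_sub_pow (by omega : 1 ≤ f) (by omega) (hv a).2 (hv a).1 e2
    have e5 : (((t a : ℤ) - t0 a : ℤ) : ZMod (f ^ (M' - s))) = 0 :=
      (ZMod.intCast_zmod_eq_zero_iff_dvd _ _).2 e4
    push_cast at e5
    exact sub_eq_zero.1 e5

end Pool.Agent.N745.NT
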