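import Pool.Agent.N745.NT.Lin
import Pool.Agent.Y902.GN.Gc2
import Pool.Agent.Y913.Nb.Rep

/-!
# Tuples with two solid members which are not both small
-/

set_option autoImplicit false

namespace Pool.Agent.N745.NT

open Finset Pool.Agent.Y913 Pool.Agent.Y913.Nb Pool.Agent.Y902.GN

/-- coprime solutions of a homogeneous linear equation -/
theorem cop_unique {x y x' y' : ℕ} {v w : ℤ} (hv : v ≠ 0) (hc : x.Coprime y) (hc' : x'.Coprime y') (hx : 0 < x) 
    (h : v * x + w * y = 0) (h' : v * x' + w * y' = 0) : x = x' ∧ y = y' := by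
  have h1 : v * ((x : ℤ) * y' - x' * y) = 0 := by
    linear_combination (y' : ℤ) * h - (y : ℤ) * h'
  rcases mul_eq_zero.1 h1 with h2 | h2
  · exact absurd h2 hv
  have h3 : x * y' = x' * y := by
    have : (x : ℤ) * y' = x' * y := by linarith
    exact_mod_cast this
  have h4 : x ∣ x' := hc.dvd_of_dvd_mul_right (h3 ▸ Dvd.intro _ rfl)
  have h5 : x' ∣ x := hc'.dvd_of_dvd_mul_right (h3.symm ▸ Dvd.intro _ rfl)
  have h6 : x = x' := Nat.dvd_antisymm h4 h5
  subst h6
  exact ⟨rfl, (Nat.eq_of_mul_eq_mul_left hx h3).symm⟩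

/-- near coprime solutions are bounded -/
theorem near_bound {x y x' y' : ℕ} {v w : ℤ} {H U : ℤ} (hw : w ≠ 0) (hwU : |w| ≤ U)
    (hc' : x'.Coprime y') (hxy : ¬ (x = x' ∧ y = y')) (hv : v ≠ 0) 
    (h : v * ((x : ℤ) - x') + w * ((y : ℤ) - y') = 0) {r r' q q' : ℤ} (hr : r ≠ 0)
    (hq : q ≠ 0) (hrH : |r| ≤ H) (hqH : |q| ≤ H) (hq'H : |q'| ≤ H) 
    (hx' : 0 < x') (hy' : 0 < y')
    (h1 : r * x = r' * x') (h2 : q * y = q' * y') : (x' : ℤ) ≤ 2 * U * (H * H) := by
  -- `r q v (x - x') + r q w (y - y') = 0`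
  have e1 : (v * (r' - r) * q) * x' = -(w * (q' - q) * r) * y' := by
    linear_combination (r * q) * h - (v * q) * h1 - (w * r) * h2
  have hne : w * (q' - q) * r ≠ 0 := by
    intro h3
    rcases mul_eq_zero.1 h3 with h4 | h4
    · rcases mul_eq_zero.1 h4 with h5 | h5
      · exact hw h5
      · have h6 : q' = q := by linarith
        rw [h6] at h2
        have h7 : (y : ℤ) = y' := mul_left_cancel₀ hq h2
        rw [h7, sub_self, mul_zero, add_zero] at h
        rcases mul_eq_zero.1 h with h8 | h8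
        · exact hv h8
        · exact hxy ⟨by have : (x : ℤ) = x' := by linarith
                        exact_mod_cast this, by exact_mod_cast h7⟩
    · exact hr h4
  have hdvd : (x' : ℤ) ∣ (w * (q' - q) * r) * y' := by
    refine ⟨-(v * (r' - r) * q), ?_⟩
    linear_combination e1
  have hcop : IsCoprime (x' : ℤ) (y' : ℤ) := Nat.isCoprime_iff_coprime.2 hc'
  have h3 : (x' : ℤ) ∣ w * (q' - q) * r := hcop.dvd_of_dvd_mul_right hdvd
  have h4 : (x' : ℤ) ≤ |w * (q' - q) * r| := Int.le_of_dvd (abs_pos.2 hne) ((dvd_abs _ _).2 h3)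
  refine h4.trans ?_
  rw [abs_mul, abs_mul]
  have h5 : |q' - q| ≤ 2 * H := by
    have := abs_sub q' q
    linarith
  have hU0 : 0 ≤ U := (abs_nonneg _).trans hwU
  have hH0 : 0 ≤ H := (abs_nonneg _).trans hrH
  calc |w| * |q' - q| * |r| ≤ U * (2 * H) * H := by gcongr
    _ = 2 * U * (H * H) := by ring

/-- **two solid members which are not both small** -/
theorem bl3 (n : ℕ) (ε : ℝ) (hε : 0 < ε) : ∃ (C : ℕ) (δ : ℝ), 0 < δ ∧ ∀ (m Z Yn U : ℕ)
    (v : Fin m → ℤ) (N : ℤ) (T : Finset (Fin m → ℕ)) (a b : Fin m), 1 ≤ Yn →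
    (∀ i, v i ≠ 0 ∧ (v i).natAbs ≤ U) →
    ((Z + U + 2 * U * Z : ℕ) : ℝ) ≤ Real.exp ((Yn : ℝ) ^ δ) → a ≠ b →
    (∀ t ∈ T, Tup v N Z t ∧ NB n Yn (t a) ∧ NB n Yn (t b) ∧
      (2 * U * (Yn + 2) ^ C < t a ∨ 2 * U * (Yn + 2) ^ C < t b)) →
    (∀ t ∈ T, ∀ t' ∈ T, ∀ i, i ∉ ({a, b} : Finset (Fin m)) → t i = t' i) →
    (T.card : ℝ) ≤ 1 + (Yn : ℝ) ^ ε := by
  classical
  obtain ⟨C, δ, hδ, h⟩ := gc 3 (n + n) 0 ε hε
  refine ⟨2 * C, δ, hδ, ?_⟩
  intro m Z Yn U v N T a b hYn hv hZ hab hT hfix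
  have hYε : (0 : ℝ) ≤ (Yn : ℝ) ^ ε := by positivity
  rcases T.eq_empty_or_nonempty with h0 | ⟨t0, ht0⟩
  · rw [h0, card_empty, Nat.cast_zero]
    linarith
  have hsum2 : ∀ t ∈ T, ∀ t' ∈ T, v a * ((t a : ℤ) - t' a) + v b * ((t b : ℤ) - t' b) = 0 := by
    intro t ht t' ht'
    have h1 := (hT t ht).1.diff (hT t' ht').1 {a, b} (fun i hi => hfix t ht t' ht' i hi)
    rw [sum_insert (by simp [hab]), sum_singleton] at h1
    exact h1
  have hext : ∀ t ∈ T, ∀ t' ∈ T, t a = t' a → t b = t' b → t = t' := by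
    intro t ht t' ht' h1 h2
    funext i
    by_cases hi : i ∈ ({a, b} : Finset (Fin m))
    · rw [mem_insert, mem_singleton] at hi
      rcases hi with rfl | rfl
      · exact h1
      · exact h2
    · exact hfix t ht t' ht' i hi
  obtain ⟨N', hN'⟩ : ∃ N' : ℤ, N' = v a * t0 a + v b * t0 b := ⟨_, rfl⟩
  have hN'2 : ∀ t ∈ T, v a * t a + v b * t b = N' := by
    intro t ht
    rw [hN']
    linear_combination hsum2 t ht t0 ht0
  rcases eq_or_ne N' 0 with hN0 | hN0
  · -- at most one element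
    have h1 : T.card ≤ 1 := by
      rw [card_le_one]
      intro t ht t' ht'
      obtain ⟨g1, -, -, -⟩ := hT t ht
      obtain ⟨g1', -, -, -⟩ := hT t' ht'
      obtain ⟨e1, e2⟩ := cop_unique (hv a).1 (g1.cop a b hab)
        (g1'.cop a b hab) (g1.pos a) ((hN'2 t ht).trans hN0) ((hN'2 t' ht').trans hN0)
      exact hext t ht t' ht' e1 e2
    have h2 : (T.card : ℝ) ≤ 1 := by exact_mod_cast h1
    linarith
  set u : Fin 3 → ℤ := ![v a, v b, -N'] with hu
  set φ : (Fin m → ℕ) → (Fin 3 → ℤ) := fun t => ![(t a : ℤ), (t b : ℤ), 1] with hφ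
  have hcard : T.card = (T.image φ).card := by
    symm
    apply card_image_of_injOn
    intro t ht t' ht' htt
    have e1 := congrFun htt 0
    have e2 := congrFun htt 1
    simp only [hφ, Matrix.cons_val_zero, Matrix.cons_val_one] at e1 e2
    exact hext t ht t' ht' (by exact_mod_cast e1) (by exact_mod_cast e2)
  have hvZ : ∀ t ∈ T, ∀ i, |v i * t i| ≤ (U * Z : ℕ) := by
    intro t ht i
    rw [abs_mul]
    have h1 : |v i| ≤ U := by
      rw [Int.abs_eq_natAbs]
      exact_mod_cast (hv i).2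
    have h2 : |(t i : ℤ)| ≤ Z := by
      rw [abs_of_nonneg (Int.natCast_nonneg _)]
      exact_mod_cast (hT t ht).1.le i
    push_cast
    exact mul_le_mul h1 h2 (abs_nonneg _) (by positivity)
  have hN'U : |N'| ≤ (2 * U * Z : ℕ) := by
    rw [← hN'2 t0 ht0]
    refine (abs_add_le _ _).trans ?_
    have h1 := hvZ t0 ht0 a
    have h2 := hvZ t0 ht0 b
    push_cast at h1 h2 ⊢
    linarith
  have hexp : ∀ z : ℤ, |z| ≤ ((Z + U + 2 * U * Z : ℕ) : ℤ) →
      ((|z| : ℤ) : ℝ) ≤ Real.exp ((Yn : ℝ) ^ δ) := by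
    intro z hz
    refine le_trans ?_ hZ
    exact_mod_cast hz
  rw [hcard]
  refine (h Yn hYn u ?_ (T.image φ) ?_ ?_).trans (by linarith)
  · intro i
    fin_cases i
    · refine ⟨(hv a).1, hexp _ ?_⟩
      show |v a| ≤ _
      rw [Int.abs_eq_natAbs]
      exact_mod_cast (hv a).2.trans (by omega)
    · refine ⟨(hv b).1, hexp _ ?_⟩
      show |v b| ≤ _
      rw [Int.abs_eq_natAbs]
      exact_mod_cast (hv b).2.trans (by omega)
    · refine ⟨?_, hexp _ ?_⟩
      · show -N' ≠ 0
        exact neg_ne_zero.2 hN0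
      · show |(-N')| ≤ _
        rw [abs_neg]
        refine hN'U.trans ?_
        exact_mod_cast (by omega : 2 * U * Z ≤ Z + U + 2 * U * Z)
  · intro x hx
    obtain ⟨t, ht, rfl⟩ := mem_image.1 hx
    obtain ⟨g1, g2, g3, -⟩ := hT t ht
    have hta : (t a : ℤ) ≠ 0 := by have := g1.pos a; positivity
    have htb : (t b : ℤ) ≠ 0 := by have := g1.pos b; positivity
    have hva : v a * (t a : ℤ) ≠ 0 := mul_ne_zero (hv a).1 hta
    have hvb : v b * (t b : ℤ) ≠ 0 := mul_ne_zero (hv b).1 htb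
    have hs := hN'2 t ht
    refine ⟨?_, ?_, ?_, ?_, ?_, ?_⟩
    · intro i
      fin_cases i
      · exact hta
      · exact htb
      · exact one_ne_zero
    · intro d hd
      have h1 := hd 2
      simp only [hφ] at h1
      have h2 : (d : ℤ) ∣ 1 := h1
      have h3 : d ∣ 1 := by exact_mod_cast h2
      exact Nat.dvd_one.1 h3
    · rw [Fin.sum_univ_three]
      show v a * (t a : ℤ) + v b * (t b : ℤ) + (-N') * 1 = 0
      linarith
    · intro K hK1 hK2
      have hc : ∀ K : Finset (Fin 3), ∑ i ∈ K, u i * φ t i =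
          (if (0 : Fin 3) ∈ K then v a * (t a : ℤ) else 0) +
          (if (1 : Fin 3) ∈ K then v b * (t b : ℤ) else 0) +
          (if (2 : Fin 3) ∈ K then -N' else 0) := by
        intro K
        have h1 : ∑ i ∈ K, u i * φ t i = ∑ i, if i ∈ K then u i * φ t i else 0 := by
          rw [sum_ite_mem, univ_inter]
        rw [h1, Fin.sum_univ_three]
        simp [hu, hφ]
      rw [hc]
      by_cases m0 : (0 : Fin 3) ∈ K <;> by_cases m1 : (1 : Fin 3) ∈ K <;>
        by_cases m2 : (2 : Fin 3) ∈ K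
      · exfalso
        apply hK2
        ext i
        fin_cases i <;> simp [m0, m1, m2]
      · simp only [if_pos m0, if_pos m1, if_neg m2, add_zero]
        rw [hs]
        exact hN0
      · simp only [if_pos m0, if_neg m1, if_pos m2, add_zero]
        intro h1
        apply hvb
        linarith
      · simp only [if_pos m0, if_neg m1, if_neg m2, add_zero]
        exact hva
      · simp only [if_neg m0, if_pos m1, if_pos m2, zero_add]
        intro h1
        apply hva
        linarith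
      · simp only [if_neg m0, if_pos m1, if_neg m2, zero_add, add_zero]
        exact hvb
      · simp only [if_neg m0, if_neg m1, if_pos m2, zero_add]
        exact neg_ne_zero.2 hN0
      · exfalso
        obtain ⟨i, hi⟩ := hK1
        fin_cases i
        · exact m0 hi
        · exact m1 hi
        · exact m2 hi
    · intro i
      apply hexp
      fin_cases i
      · show |(t a : ℤ)| ≤ _
        rw [abs_of_nonneg (Int.natCast_nonneg _)]
        exact_mod_cast (g1.le a).trans (by omega)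
      · show |(t b : ℤ)| ≤ _
        rw [abs_of_nonneg (Int.natCast_nonneg _)]
        exact_mod_cast (g1.le b).trans (by omega)
      · show |(1 : ℤ)| ≤ _
        rw [abs_one]
        have : 1 ≤ Z := (g1.pos a).trans (g1.le a)
        exact_mod_cast (by omega : 1 ≤ Z + U + 2 * U * Z)
    · obtain ⟨x, ex, hx, hxt⟩ := g2
      obtain ⟨y, ey, hy, hyt⟩ := g3
      refine ⟨fun _ => 1, Fin.append x y, fun i => ![Fin.append ex (fun _ => 0),
        Fin.append (fun _ => 0) ey, fun _ => 0] i, ?_, ?_, ?_⟩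
      · intro j
        refine Fin.addCases (fun j => ?_) (fun j => ?_) j
        · rw [Fin.append_left]
          exact ⟨(hx j).1, by exact_mod_cast (hx j).2⟩
        · rw [Fin.append_right]
          exact ⟨(hy j).1, by exact_mod_cast (hy j).2⟩
      · intro i
        simp
      · intro i
        rw [one_mul]
        fin_cases i
        · show (t a : ℤ) = ∏ j, ((Fin.append x y j : ℕ) : ℤ) ^ (Fin.append ex (fun _ => 0) j)
          rw [Fin.prod_univ_add]
          simp only [Fin.append_left, Fin.append_right, pow_zero, prod_const_one, mul_one]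
          rw [hxt]
          push_cast
          rfl
        · show (t b : ℤ) = ∏ j, ((Fin.append x y j : ℕ) : ℤ) ^ (Fin.append (fun _ => 0) ey j)
          rw [Fin.prod_univ_add]
          simp only [Fin.append_left, Fin.append_right, pow_zero, prod_const_one, one_mul]
          rw [hyt]
          push_cast
          rfl
        · show (1 : ℤ) = ∏ j, ((Fin.append x y j : ℕ) : ℤ) ^ 0
          simp
  · intro x hx x' hx' hne hnear
    obtain ⟨t, ht, rfl⟩ := mem_image.1 hx
    obtain ⟨t', ht', rfl⟩ := mem_image.1 hx'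
    obtain ⟨g1, -, -, -⟩ := hT t ht
    obtain ⟨g1', -, -, g4'⟩ := hT t' ht'
    have hxy : ¬ (t a = t' a ∧ t b = t' b) := by
      rintro ⟨e1, e2⟩
      exact hne (by rw [hext t ht t' ht' e1 e2])
    have hxy' : ¬ (t b = t' b ∧ t a = t' a) := fun h => hxy ⟨h.2, h.1⟩
    obtain ⟨r, r', hr, hr', hrH, hr'H, hrr⟩ := hnear 0
    obtain ⟨q, q', hq, hq', hqH, hq'H, hqq⟩ := hnear 1
    have hrr' : r * (t a : ℤ) = r' * (t' a : ℤ) := hrr
    have hqq' : q * (t b : ℤ) = q' * (t' b : ℤ) := hqq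
    have hvU : ∀ i, |v i| ≤ (U : ℤ) := fun i => by
      rw [Int.abs_eq_natAbs]
      exact_mod_cast (hv i).2
    have e1 := hsum2 t ht t' ht'
    have e2 : v b * ((t b : ℤ) - t' b) + v a * ((t a : ℤ) - t' a) = 0 := by
      rw [add_comm]; exact e1
    have hb1 := near_bound (hv b).1 (hvU b) (g1'.cop a b hab) hxy (hv a).1 e1 hr hq hrH hqH hq'H
      (g1'.pos a) (g1'.pos b) hrr' hqq'
    have hb2 := near_bound (hv a).1 (hvU a) (g1'.cop b a (Ne.symm hab)) hxy' (hv b).1 e2 hq hr hqH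
      hrH hr'H (g1'.pos b) (g1'.pos a) hqq' hrr'
    have hpw : (2 * (U : ℤ) * (((Yn : ℤ) + 2) ^ C * ((Yn : ℤ) + 2) ^ C)) =
        ((2 * U * (Yn + 2) ^ (2 * C) : ℕ) : ℤ) := by
      push_cast
      ring
    rw [hpw] at hb1 hb2
    have hb1' : t' a ≤ 2 * U * (Yn + 2) ^ (2 * C) := by exact_mod_cast hb1
    have hb2' : t' b ≤ 2 * U * (Yn + 2) ^ (2 * C) := by exact_mod_cast hb2
    rcases g4' with h5 | h5
    · omega
    · omega

end Pool.Agent.N745.NT
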