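import Pool.Agent.N745.NT.Main
import Pool.Agent.H785R2.ABC.A345

/-!
# Counting by the size of the members
-/

set_option autoImplicit false

namespace Pool.Agent.N745.NT

open Finset Pool.Agent.H785R2.ABC Pool.Agent.H705R2.ABC Pool.Agent.N745.T1

/-- the trivial bound -/
theorem trivial_count (m : ℕ) (e : ℝ) (he : 0 < e) : ∃ D : ℝ, 0 < D ∧ ∀ (Z : ℕ) (Y : ℝ)
    (T : Finset (Fin m → ℕ)), 1 ≤ Z → 0 ≤ Y →
    (∀ t ∈ T, (∀ i, 1 ≤ t i ∧ t i ≤ Z) ∧ ∏ i, (rad (t i) : ℝ) ≤ Y) →
    (T.card : ℝ) ≤ D * (Z : ℝ) ^ e * Y := by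
  classical
  obtain ⟨D, hD, h⟩ := stmtA3_of stmtA2 (e / (m + 1)) (by positivity)
  refine ⟨D ^ m, by positivity, ?_⟩
  intro Z Y T hZ hY hT
  have hZR : (1 : ℝ) ≤ Z := by exact_mod_cast hZ
  have h1 := h Z hZ 1 le_rfl
  simp only [one_dvd, Nat.cast_one, div_one] at h1
  rw [filter_true_of_mem (fun _ _ => trivial)] at h1
  have hr0 : ∀ x : ℕ, (0 : ℝ) < rad x := fun x => by exact_mod_cast rad_one_le x
  calc (T.card : ℝ) = ∑ _t ∈ T, (1 : ℝ) := by rw [sum_const, nsmul_eq_mul, mul_one]
    _ ≤ ∑ t ∈ T, Y * ∏ i, (1 / (rad (t i) : ℝ)) := by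
        apply sum_le_sum
        intro t ht
        have h2 := (hT t ht).2
        have h3 : 0 < ∏ i, (rad (t i) : ℝ) := prod_pos fun i _ => hr0 _
        rw [prod_div_distrib, prod_const_one, mul_one_div, le_div_iff₀ h3, one_mul]
        exact h2
    _ = Y * ∑ t ∈ T, ∏ i, (1 / (rad (t i) : ℝ)) := by rw [mul_sum]
    _ ≤ Y * ∑ t ∈ Fintype.piFinset (fun _ : Fin m => Icc 1 Z), ∏ i, (1 / (rad (t i) : ℝ)) := by
        apply mul_le_mul_of_nonneg_left _ hY
        apply sum_le_sum_of_subset_of_nonneg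
        · intro t ht
          rw [Fintype.mem_piFinset]
          intro i
          rw [mem_Icc]
          exact (hT t ht).1 i
        · intro t _ _
          apply prod_nonneg
          intro i _
          have := hr0 (t i)
          positivity
    _ = Y * ∏ _i : Fin m, ∑ d ∈ Icc 1 Z, (1 / (rad d : ℝ)) := by
        rw [prod_univ_sum]
    _ ≤ Y * ∏ _i : Fin m, (D * (Z : ℝ) ^ (e / (m + 1))) := by
        apply mul_le_mul_of_nonneg_left _ hY
        apply prod_le_prod
        · intro i _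
          apply sum_nonneg
          intro d _
          have := hr0 d
          positivity
        · intro i _
          exact h1
    _ = Y * (D ^ m * ((Z : ℝ) ^ (e / (m + 1))) ^ m) := by
        rw [prod_const, card_univ, Fintype.card_fin, mul_pow]
    _ ≤ Y * (D ^ m * (Z : ℝ) ^ e) := by
        apply mul_le_mul_of_nonneg_left _ hY
        apply mul_le_mul_of_nonneg_left _ (by positivity)
        rw [← Real.rpow_natCast, ← Real.rpow_mul (by linarith)]
        apply Real.rpow_le_rpow_of_exponent_le hZR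
        rw [div_mul_eq_mul_div, div_le_iff₀ (by positivity)]
        nlinarith
    _ = D ^ m * (Z : ℝ) ^ e * Y := by ring

/-- **the bound for the tuples with `h` members exceeding `rad ^ M / B`** -/
theorem count_M (n : ℕ) (hn : 2 ≤ n) (U B h : ℕ) (hB : 1 ≤ B) (hh : 1 ≤ h) (g : ℝ) (hg0 : 0 ≤ g)
    (hg1 : g ≤ 3 / 4) (hg2 : g * n ≤ 2) (hg3 : g * ((n : ℝ) - h) ≤ 1) (ε : ℝ) (hε : 0 < ε) :
    ∃ M0 : ℝ, 0 < M0 ∧ ∀ M : ℝ, M0 ≤ M → ∃ C : ℝ, 0 < C ∧ ∀ (X : ℕ) (v : Fin n → ℤ) (N : ℤ)
      (T : Finset (Fin n → ℕ)), 1 ≤ X → (∀ i, v i ≠ 0 ∧ (v i).natAbs ≤ U) →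
      (∀ t ∈ T, Tup v N X t ∧
        h ≤ (univ.filter fun i => (∏ j, (rad (t j) : ℝ)) ^ M < B * (t i : ℝ)).card) →
      (T.card : ℝ) ≤ C * (X : ℝ) ^ ((1 - g + ε) / M) := by
  classical
  obtain ⟨L, hL, hmain⟩ := main n hn U g hg0 hg1 hg2 (ε / 2) (half_pos hε)
  refine ⟨2 * (L + B), by positivity, ?_⟩
  intro M hM
  have hBR : (1 : ℝ) ≤ B := by exact_mod_cast hB
  have hM0 : 0 < M := lt_of_lt_of_le (by positivity) hM
  obtain ⟨θ, hθ⟩ : ∃ θ : ℝ, θ = 1 - g := ⟨_, rfl⟩
  have hθ0 : 0 < θ := by rw [hθ]; linarith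
  have hθ1 : θ ≤ 1 := by rw [hθ]; linarith
  obtain ⟨D, hD, hbd⟩ := hmain (M / θ) (by positivity)
  obtain ⟨Dt, hDt, htr⟩ := trivial_count n (ε / M) (by positivity)
  obtain ⟨Dp, hDp, hp⟩ := polylog_le (n + 1) 1 (e := ε / 2 / M) (by positivity)
  set K : ℝ := (n + 1) * Dp * (1 + D * (2 * B) ^ (θ + ε / 2)) with hK
  have hK0 : 0 < K := by rw [hK]; positivity
  refine ⟨Dt + K, by positivity, ?_⟩
  intro X v N T hX hv hT
  rw [← hθ]
  have hXR : (1 : ℝ) ≤ X := by exact_mod_cast hX
  have hX0 : (0 : ℝ) < X := by linarith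
  set Q : (Fin n → ℕ) → ℕ := fun t => ∏ j, rad (t j) with hQ
  have hQR : ∀ t, (Q t : ℝ) = ∏ j, (rad (t j) : ℝ) := fun t => by rw [hQ]; push_cast; rfl
  have hQ1 : ∀ t, 1 ≤ Q t := fun t => by
    rw [hQ]
    exact Nat.one_le_iff_ne_zero.2 (prod_ne_zero_iff.2 fun i _ => by
      have := rad_one_le (t i); omega)
  -- small radicals
  set T1 := T.filter fun t => (Q t : ℝ) ≤ (X : ℝ) ^ (θ / M) with hT1
  set T2 := T.filter fun t => ¬ (Q t : ℝ) ≤ (X : ℝ) ^ (θ / M) with hT2
  have hsplit : (T.card : ℝ) = T1.card + T2.card := by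
    rw [hT1, hT2]
    exact_mod_cast (card_filter_add_card_filter_not _).symm
  have hb1 : (T1.card : ℝ) ≤ Dt * (X : ℝ) ^ ((θ + ε) / M) := by
    have h1 := htr X ((X : ℝ) ^ (θ / M)) T1 hX (by positivity) (fun t ht => by
      rw [hT1, mem_filter] at ht
      refine ⟨fun i => ⟨(hT t ht.1).1.pos i, (hT t ht.1).1.le i⟩, ?_⟩
      rw [← hQR]
      exact ht.2)
    refine h1.trans (le_of_eq ?_)
    rw [mul_assoc, ← Real.rpow_add hX0]
    congr 2
    field_simp
    ring
  -- the dyadic classes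
  set Lg : ℕ := n * (Nat.log 2 X + 1) with hLg
  have hQlog : ∀ t ∈ T, Nat.log 2 (Q t) < Lg + 1 := by
    intro t ht
    have h1 : Q t ≤ X ^ n := by
      rw [hQ]
      calc ∏ j, rad (t j) ≤ ∏ _j : Fin n, X := by
            apply prod_le_prod'
            intro j _
            have h2 := (hT t ht).1.pos j
            have h3 : rad (t j) ≤ t j := by
              have h4 := basics.rd_univ 0 (t j)
              have h5 := basics.part_dvd 0 (t j) univ h2
              have h6 := Est.rd_dvd_self basics 0 (t j) h2 univ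
              rw [h4] at h6
              exact Nat.le_of_dvd h2 h6
            exact h3.trans ((hT t ht).1.le j)
        _ = X ^ n := by rw [prod_const, card_univ, Fintype.card_fin]
    have h2 : X ^ n < 2 ^ (Lg + 1) := by
      calc X ^ n ≤ (2 ^ (Nat.log 2 X + 1)) ^ n :=
            Nat.pow_le_pow_left (Nat.lt_pow_succ_log_self (by norm_num) X).le n
        _ = 2 ^ Lg := by rw [← pow_mul, hLg, mul_comm]
        _ < 2 ^ (Lg + 1) := Nat.pow_lt_pow_right (by norm_num) (by omega)
    exact Nat.log_lt_of_lt_pow (by have := hQ1 t; omega) (h1.trans_lt h2)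
  set B2 : ℝ := 1 + D * (2 * B) ^ (θ + ε / 2) * (X : ℝ) ^ ((θ + ε / 2) / M) with hB2
  have hcls : ∀ ρ ∈ range (Lg + 1),
      ((T2.filter fun t => Nat.log 2 (Q t) = ρ).card : ℝ) ≤ B2 := by
    intro ρ _
    set T3 := T2.filter fun t => Nat.log 2 (Q t) = ρ with hT3
    have hmem : ∀ t ∈ T3, t ∈ T ∧ ¬ (Q t : ℝ) ≤ (X : ℝ) ^ (θ / M) ∧ Nat.log 2 (Q t) = ρ := by
      intro t ht
      rw [hT3, mem_filter, hT2, mem_filter] at ht
      exact ⟨ht.1.1, ht.1.2, ht.2⟩
    have hB20 : 0 ≤ D * (2 * B) ^ (θ + ε / 2) * (X : ℝ) ^ ((θ + ε / 2) / M) := by positivity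
    rcases Nat.eq_zero_or_pos ρ with hρ | hρ
    · -- radical one
      have h1 : T3.card ≤ 1 := by
        rw [card_le_one]
        have h2 : ∀ t ∈ T3, ∀ i, t i = 1 := by
          intro t ht i
          obtain ⟨g1, -, g3⟩ := hmem t ht
          rw [hρ] at g3
          have g4 : Q t < 2 := by
            by_contra hc
            have := (Nat.log_pos (b := 2) (by norm_num) (not_lt.1 hc))
            omega
          have g5 : rad (t i) = 1 := by
            have h7 : rad (t i) ∣ Q t := dvd_prod_of_mem (fun j => rad (t j)) (mem_univ i)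
            have h8 := Nat.le_of_dvd (by have := hQ1 t; omega) h7
            have h9 := rad_one_le (t i)
            omega
          by_contra hne
          have h10 : t i ≠ 1 := hne
          obtain ⟨p, hp1, hp2⟩ := Nat.exists_prime_and_dvd h10
          have h11 : p ∣ rad (t i) := by
            unfold rad
            exact dvd_prod_of_mem (fun p => p) (Nat.mem_primeFactors.2 ⟨hp1, hp2, by
              have := (hT t g1).1.pos i; omega⟩)
          rw [g5] at h11
          exact hp1.one_lt.ne' (Nat.dvd_one.1 h11)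
        intro t ht t' ht'
        funext i
        rw [h2 t ht i, h2 t' ht' i]
      have h2 : (T3.card : ℝ) ≤ 1 := by exact_mod_cast h1
      rw [hB2]
      linarith
    · rcases T3.eq_empty_or_nonempty with h0 | ⟨ts, hts⟩
      · rw [h0, card_empty, Nat.cast_zero, hB2]
        linarith
      obtain ⟨Y, hY⟩ : ∃ Y : ℝ, Y = 2 ^ (ρ + 1) := ⟨_, rfl⟩
      have hY2 : 2 ≤ Y := by
        rw [hY, pow_succ]
        have : (1 : ℝ) ≤ 2 ^ ρ := one_le_pow₀ (by norm_num)
        linarith
      have hY1 : 1 ≤ Y := by linarith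
      have hY0 : 0 < Y := by linarith
      have hQle : ∀ t ∈ T3, (Q t : ℝ) ≤ Y := by
        intro t ht
        obtain ⟨-, -, g3⟩ := hmem t ht
        have h1 := (Nat.lt_pow_succ_log_self (b := 2) (by norm_num) (Q t)).le
        rw [g3] at h1
        rw [hY]
        exact_mod_cast h1
      have hQge : ∀ t ∈ T3, Y ≤ 2 * (Q t : ℝ) := by
        intro t ht
        obtain ⟨-, -, g3⟩ := hmem t ht
        have h1 := Nat.pow_log_le_self 2 (by have := hQ1 t; omega : Q t ≠ 0)
        rw [g3] at h1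
        have h2 : (2 : ℝ) ^ ρ ≤ (Q t : ℝ) := by exact_mod_cast h1
        rw [hY, pow_succ]
        linarith
      have hXY : (X : ℝ) ≤ Y ^ (M / θ) := by
        obtain ⟨-, g2, -⟩ := hmem ts hts
        have h1 : (X : ℝ) ^ (θ / M) ≤ Y := (not_le.1 g2).le.trans (hQle ts hts)
        calc (X : ℝ) = ((X : ℝ) ^ (θ / M)) ^ (M / θ) := by
              rw [← Real.rpow_mul hX0.le]
              have : θ / M * (M / θ) = 1 := by field_simp
              rw [this, Real.rpow_one]
          _ ≤ Y ^ (M / θ) := Real.rpow_le_rpow (by positivity) h1 (by positivity)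
      -- tall members
      have htall : ∀ t ∈ T3, ∀ i, (∏ j, (rad (t j) : ℝ)) ^ M < B * (t i : ℝ) →
          Y ^ L ≤ (t i : ℝ) := by
        intro t ht i hi
        rw [← hQR] at hi
        obtain ⟨-, -, g3⟩ := hmem t ht
        have h1 := Nat.pow_log_le_self 2 (by have := hQ1 t; omega : Q t ≠ 0)
        rw [g3] at h1
        have h2 : (2 : ℝ) ^ ρ ≤ (Q t : ℝ) := by exact_mod_cast h1
        have h3 : Y ≤ (Q t : ℝ) ^ 2 := by
          calc Y = 2 ^ (ρ + 1) := hY
            _ ≤ 2 ^ (ρ * 2) := pow_le_pow_right₀ (by norm_num) (by omega)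
            _ = (2 ^ ρ) ^ 2 := by rw [pow_mul]
            _ ≤ (Q t : ℝ) ^ 2 := pow_le_pow_left₀ (by positivity) h2 2
        have h4 : Y ^ (M / 2) ≤ (Q t : ℝ) ^ M := by
          calc Y ^ (M / 2) ≤ ((Q t : ℝ) ^ 2) ^ (M / 2) :=
                Real.rpow_le_rpow hY0.le h3 (by positivity)
            _ = (Q t : ℝ) ^ M := by
                rw [← Real.rpow_natCast, ← Real.rpow_mul (Nat.cast_nonneg _)]
                congr 1
                push_cast
                ring
        have h5 : (B : ℝ) ≤ Y ^ (B : ℝ) := by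
          have h6 : (B : ℝ) ≤ 2 ^ B := by exact_mod_cast Nat.lt_two_pow_self.le
          rw [Real.rpow_natCast]
          exact h6.trans (pow_le_pow_left₀ (by norm_num) hY2 B)
        have h6 : Y ^ L * Y ^ (B : ℝ) ≤ Y ^ (M / 2) := by
          rw [← Real.rpow_add hY0]
          apply Real.rpow_le_rpow_of_exponent_le hY1
          linarith
        have h7 : Y ^ L * B < B * (t i : ℝ) := by
          calc Y ^ L * B ≤ Y ^ L * Y ^ (B : ℝ) := by gcongr
            _ ≤ Y ^ (M / 2) := h6
            _ ≤ (Q t : ℝ) ^ M := h4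
            _ < B * (t i : ℝ) := hi
        have h8 : (B : ℝ) * Y ^ L < B * (t i : ℝ) := by linarith
        exact (lt_of_mul_lt_mul_left h8 (by linarith)).le
      have h1 := hbd Y X v N T3 hY1 hXY hv (by
        intro t ht
        obtain ⟨g1, -, -⟩ := hmem t ht
        obtain ⟨g4, g5⟩ := hT t g1
        refine ⟨g4, ?_, ?_, ?_⟩
        · rw [← hQR]
          exact hQle t ht
        · obtain ⟨i, hi⟩ : (univ.filter fun i =>
              (∏ j, (rad (t j) : ℝ)) ^ M < B * (t i : ℝ)).Nonempty := by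
            rw [← card_pos]; omega
          exact ⟨i, htall t ht i (mem_filter.1 hi).2⟩
        · have h2 : ((univ.filter fun i => (t i : ℝ) < Y ^ L).card : ℝ) ≤ (n : ℝ) - h := by
            have h3 : (univ.filter fun i => (t i : ℝ) < Y ^ L) ⊆
                (univ.filter fun i => (∏ j, (rad (t j) : ℝ)) ^ M < B * (t i : ℝ))ᶜ := by
              intro i hi
              rw [mem_compl, mem_filter]
              rintro ⟨-, h4⟩
              have := htall t ht i h4
              have := (mem_filter.1 hi).2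
              linarith
            have h4 := card_le_card h3
            rw [card_compl, Fintype.card_fin] at h4
            have h5 : (univ.filter fun i => (t i : ℝ) < Y ^ L).card + h ≤ n := by
              have h6 : (univ.filter fun i =>
                (∏ j, (rad (t j) : ℝ)) ^ M < B * (t i : ℝ)).card ≤ n := by
                have := card_le_univ (univ.filter fun i =>
                  (∏ j, (rad (t j) : ℝ)) ^ M < B * (t i : ℝ))
                rwa [Fintype.card_fin] at this
              omega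
            have h6 : ((univ.filter fun i => (t i : ℝ) < Y ^ L).card : ℝ) + h ≤ n := by
              exact_mod_cast h5
            linarith
          exact (mul_le_mul_of_nonneg_left h2 hg0).trans hg3)
      rw [← hθ] at h1
      have hYle : Y ≤ (2 * B) * (X : ℝ) ^ (1 / M) := by
        obtain ⟨g1, -, -⟩ := hmem ts hts
        obtain ⟨g4, g5⟩ := hT ts g1
        obtain ⟨i, hi⟩ : (univ.filter fun i =>
            (∏ j, (rad (ts j) : ℝ)) ^ M < B * (ts i : ℝ)).Nonempty := by
          rw [← card_pos]; omega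
        have h2 := (mem_filter.1 hi).2
        rw [← hQR] at h2
        have h3 : (ts i : ℝ) ≤ X := by exact_mod_cast g4.le i
        have hM1 : 1 ≤ M := by linarith
        have h4 : (Q ts : ℝ) ≤ B * (X : ℝ) ^ (1 / M) := by
          calc (Q ts : ℝ) = ((Q ts : ℝ) ^ M) ^ (1 / M) := by
                rw [← Real.rpow_mul (Nat.cast_nonneg _), mul_one_div_cancel hM0.ne',
                  Real.rpow_one]
            _ ≤ (B * (X : ℝ)) ^ (1 / M) := by
                apply Real.rpow_le_rpow (by positivity) _ (by positivity)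
                refine h2.le.trans ?_
                gcongr
            _ = (B : ℝ) ^ (1 / M) * (X : ℝ) ^ (1 / M) :=
                Real.mul_rpow (by linarith) hX0.le
            _ ≤ (B : ℝ) ^ (1 : ℝ) * (X : ℝ) ^ (1 / M) := by
                apply mul_le_mul_of_nonneg_right _ (by positivity)
                apply Real.rpow_le_rpow_of_exponent_le hBR
                rw [div_le_one hM0]
                exact hM1
            _ = B * (X : ℝ) ^ (1 / M) := by rw [Real.rpow_one]
        calc Y ≤ 2 * (Q ts : ℝ) := hQge ts hts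
          _ ≤ 2 * (B * (X : ℝ) ^ (1 / M)) := by gcongr
          _ = _ := by ring
      have h2 : Y ^ (θ + ε / 2) ≤ (2 * B) ^ (θ + ε / 2) * (X : ℝ) ^ ((θ + ε / 2) / M) := by
        calc Y ^ (θ + ε / 2) ≤ ((2 * B) * (X : ℝ) ^ (1 / M)) ^ (θ + ε / 2) :=
              Real.rpow_le_rpow hY0.le hYle (by positivity)
          _ = (2 * B) ^ (θ + ε / 2) * ((X : ℝ) ^ (1 / M)) ^ (θ + ε / 2) :=
              Real.mul_rpow (by positivity) (by positivity)
          _ = _ := by
              rw [← Real.rpow_mul hX0.le]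
              congr 2
              field_simp
      calc (T3.card : ℝ) ≤ D * Y ^ (θ + ε / 2) := h1
        _ ≤ D * ((2 * B) ^ (θ + ε / 2) * (X : ℝ) ^ ((θ + ε / 2) / M)) := by gcongr
        _ ≤ B2 := by rw [hB2]; linarith
  have hb2 : (T2.card : ℝ) ≤ K * (X : ℝ) ^ ((θ + ε) / M) := by
    have h1 : T2.card = ∑ ρ ∈ range (Lg + 1), (T2.filter fun t => Nat.log 2 (Q t) = ρ).card := by
      apply card_eq_sum_card_fiberwise
      intro t ht
      have ht' : t ∈ T2 := ht
      rw [hT2, mem_filter] at ht'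
      exact mem_coe.2 (mem_range.2 (hQlog t ht'.1))
    have h2 : (T2.card : ℝ) ≤ ((Lg + 1 : ℕ) : ℝ) * B2 := by
      rw [h1]
      push_cast
      calc ∑ ρ ∈ range (Lg + 1), ((T2.filter fun t => Nat.log 2 (Q t) = ρ).card : ℝ)
          ≤ ∑ _ρ ∈ range (Lg + 1), B2 := sum_le_sum hcls
        _ = ((Lg : ℝ) + 1) * B2 := by
            rw [sum_const, card_range, nsmul_eq_mul]
            push_cast
            ring
    have h3 : ((Lg + 1 : ℕ) : ℝ) ≤ (n + 1) * (Dp * (X : ℝ) ^ (ε / 2 / M)) := by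
      have h4 := hp X hX
      rw [pow_one] at h4
      refine le_trans ?_ (mul_le_mul_of_nonneg_left h4 (by positivity))
      have h5 : Lg + 1 ≤ (n + 1) * (2 * (n + 1 + Nat.log 2 X) + 1) := by
        rw [hLg]
        nlinarith [Nat.zero_le (Nat.log 2 X), Nat.zero_le n,
          Nat.zero_le (n * Nat.log 2 X)]
      exact_mod_cast h5
    have h6 : B2 ≤ (1 + D * (2 * B) ^ (θ + ε / 2)) * (X : ℝ) ^ ((θ + ε / 2) / M) := by
      rw [hB2, add_mul, one_mul]
      have : (1 : ℝ) ≤ (X : ℝ) ^ ((θ + ε / 2) / M) := Real.one_le_rpow hXR (by positivity)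
      linarith
    have hB20 : 0 ≤ B2 := by rw [hB2]; positivity
    calc (T2.card : ℝ) ≤ ((Lg + 1 : ℕ) : ℝ) * B2 := h2
      _ ≤ ((n + 1) * (Dp * (X : ℝ) ^ (ε / 2 / M))) *
          ((1 + D * (2 * B) ^ (θ + ε / 2)) * (X : ℝ) ^ ((θ + ε / 2) / M)) :=
          mul_le_mul h3 h6 hB20 (by positivity)
      _ = K * ((X : ℝ) ^ (ε / 2 / M) * (X : ℝ) ^ ((θ + ε / 2) / M)) := by rw [hK]; ring
      _ = K * (X : ℝ) ^ ((θ + ε) / M) := by
          rw [← Real.rpow_add hX0]
          congr 2
          field_simp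
          ring
  rw [hsplit]
  calc (T1.card : ℝ) + T2.card ≤ Dt * (X : ℝ) ^ ((θ + ε) / M) + K * (X : ℝ) ^ ((θ + ε) / M) :=
        add_le_add hb1 hb2
    _ = (Dt + K) * (X : ℝ) ^ ((θ + ε) / M) := by ring

end Pool.Agent.N745.NT
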