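import Pool.Agent.H705R2.ABC.Defs
import Pool.Agent.H705R2.ABC.Est
import Pool.Agent.N745.T1.Cel

/-!
# Pairs of integers with small radicals in the same residue class

`energy`: the number of pairs of integers `≤ Z`, prime to `F ≤ Z`, with radicals `≤ R`, which are
congruent modulo `F`, is at most `D Z ^ e R (1 + R ^ (3/2) / F)`.
-/

set_option autoImplicit false

namespace Pool.Agent.N745.NT

open Finset Pool.Agent.H785R2.ABC Pool.Agent.H705R2.ABC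

/-- pairs in one cell -/
theorem ene_cell (hF : Basics) {K : ℕ} {D4 DJ e : ℝ} (hD4 : 0 ≤ D4) (hDJ : 0 ≤ DJ)
    (h4 : ∀ X : ℕ, 1 ≤ X → ∀ R : ℝ, 0 ≤ R →
      (((Icc 1 X).filter fun d => (rad d : ℝ) ≤ R).card : ℝ) ≤ D4 * (X : ℝ) ^ e * R)
    (hJ : Est.JBody K DJ e) {Z F : ℕ} {R : ℝ} (hZ : 1 ≤ Z) (hR : 1 ≤ R) (hF1 : 1 ≤ F)
    (hFZ : F ≤ Z) (A : Finset ℕ)
    (hA : ∀ n ∈ A, 1 ≤ n ∧ n ≤ Z ∧ (rad n : ℝ) ≤ R ∧ n.Coprime F) (c : Fin K → ℕ)
    (hc : ∀ n ∈ A, ∀ i, Nat.log 2 (rd K n {i.castSucc}) = c i) :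
    (((A ×ˢ A).filter fun t => (t.1 : ℤ) % F = (t.2 : ℤ) % F).card : ℝ) ≤
      (D4 * (Z : ℝ) ^ e * (Z : ℝ) ^ ((1 : ℝ) / (K + 1))) ^ 2 *
        (DJ * ((2 ^ K * Z : ℕ) : ℝ) ^ e *
          ((2 ^ K * R) * (1 + (2 ^ K * R) ^ ((3 : ℝ) / 2) / F))) := by
  classical
  have hZ' : (1 : ℝ) ≤ Z := by exact_mod_cast hZ
  have hFR : (1 : ℝ) ≤ F := by exact_mod_cast hF1
  rcases A.eq_empty_or_nonempty with hA0 | ⟨n0, hn0⟩
  · rw [hA0]
    simp only [empty_product, filter_empty, card_empty, Nat.cast_zero]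
    positivity
  set N : Fin K → ℕ := fun i => 2 ^ (c i + 1) with hN
  have hN1 : ∀ i, 1 ≤ N i := fun i => Nat.one_le_two_pow
  have hprodN : ∏ i, N i = 2 ^ K * ∏ i, 2 ^ c i := by
    rw [hN]
    simp only [pow_succ]
    rw [prod_mul_distrib, prod_const, card_univ, Fintype.card_fin, mul_comm]
  have hc0 : ∏ i, 2 ^ c i ≤ ∏ i : Fin K, rd K n0 {i.castSucc} := by
    apply prod_le_prod'
    intro i _
    rw [← hc n0 hn0 i]
    exact Nat.pow_log_le_self 2 (by have := hF.rd_pos K n0 {i.castSucc}; omega)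
  have hRU := Est.rd_split hF K n0
  have hn0' := hA n0 hn0
  have hl1 := hF.rd_pos K n0 {Fin.last K}
  have hrad0 : ∏ i : Fin K, rd K n0 {i.castSucc} ≤ rad n0 := by
    rw [← hF.rd_univ K n0, ← hRU]
    exact Nat.le_mul_of_pos_right _ hl1
  have hradn : rad n0 ≤ n0 := by
    rw [← hF.rd_univ K n0]
    exact Nat.le_of_dvd hn0'.1 (Est.rd_dvd_self hF K _ hn0'.1 univ)
  have hprodX : ∏ i, N i ≤ 2 ^ K * Z := by
    rw [hprodN]
    exact Nat.mul_le_mul_left _ (hc0.trans (hrad0.trans (hradn.trans hn0'.2.1)))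
  have hprodR : (∏ i, (N i : ℝ)) ≤ 2 ^ K * R := by
    have h1 : ((∏ i, N i : ℕ) : ℝ) ≤ ((2 ^ K * rad n0 : ℕ) : ℝ) := by
      rw [hprodN]
      exact_mod_cast Nat.mul_le_mul_left _ (hc0.trans hrad0)
    rw [Nat.cast_prod] at h1
    refine h1.trans ?_
    push_cast
    exact mul_le_mul_of_nonneg_left hn0'.2.2.1 (by positivity)
  -- the set of possible last parts
  set Y : Finset ℕ := (Icc 1 Z).filter fun d => (rad d : ℝ) ≤ (Z : ℝ) ^ ((1 : ℝ) / (K + 1)) with hY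
  have hYcard : (Y.card : ℝ) ≤ D4 * (Z : ℝ) ^ e * (Z : ℝ) ^ ((1 : ℝ) / (K + 1)) :=
    h4 _ hZ _ (by positivity)
  have hmem : ∀ n ∈ A, 1 ≤ n ∧ Nat.Coprime n F ∧ part K n {Fin.last K} ∈ Y ∧
      (∀ i : Fin K, 1 ≤ rd K n {i.castSucc} ∧ rd K n {i.castSucc} ≤ N i ∧
        Nat.Coprime (rd K n {i.castSucc}) F) ∧ Nat.Coprime (part K n {Fin.last K}) F := by
    intro n hn
    obtain ⟨h1, h2, h3, h5⟩ := hA n hn
    refine ⟨h1, h5, ?_, ?_, ?_⟩
    · rw [hY, mem_filter, mem_Icc]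
      have h6 : part K n {Fin.last K} ≤ Z := (Nat.le_of_dvd h1 (hF.part_dvd K _ _ h1)).trans h2
      refine ⟨⟨hF.part_pos K _ _, h6⟩, ?_⟩
      rw [hF.rad_part K _ _ h1]
      have h7 : (rd K n {Fin.last K} : ℝ) ^ (K + 1) ≤ Z := by
        exact_mod_cast (hF.part_last K n).trans h6
      have h8 : (0 : ℝ) ≤ (rd K n {Fin.last K} : ℝ) := Nat.cast_nonneg _
      calc (rd K n {Fin.last K} : ℝ)
          = ((rd K n {Fin.last K} : ℝ) ^ (K + 1)) ^ ((1 : ℝ) / (K + 1)) := by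
            rw [← Real.rpow_natCast, ← Real.rpow_mul h8]
            push_cast
            rw [mul_one_div_cancel (by positivity), Real.rpow_one]
        _ ≤ _ := Real.rpow_le_rpow (by positivity) h7 (by positivity)
    · intro i
      refine ⟨hF.rd_pos _ _ _, ?_, Nat.Coprime.coprime_dvd_left (Est.rd_dvd_self hF K _ h1 _) h5⟩
      have h6 := Nat.lt_pow_succ_log_self (b := 2) (by norm_num) (rd K n {i.castSucc})
      rw [hc n hn i] at h6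
      exact h6.le
    · exact Nat.Coprime.coprime_dvd_left (hF.part_dvd K _ _ h1) h5
  set W : ℝ := DJ * ((2 ^ K * Z : ℕ) : ℝ) ^ e *
      ((∏ i, (N i : ℝ)) * (1 + (∏ i, (N i : ℝ)) ^ ((3 : ℝ) / 2) / F)) with hW
  have hW0 : 0 ≤ W := by rw [hW]; positivity
  set Q := (A ×ˢ A).filter fun t => (t.1 : ℤ) % F = (t.2 : ℤ) % F with hQd
  have hQ : ∀ x ∈ Q, (x.1 : ℤ) % F = (x.2 : ℤ) % F ∧ x.1 ∈ A ∧ x.2 ∈ A := by
    intro x hx
    rw [hQd, mem_filter, mem_product] at hx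
    exact ⟨hx.2, hx.1.1, hx.1.2⟩
  have hfib : ∀ z ∈ Y ×ˢ Y,
      ((Q.filter fun x => (part K x.1 {Fin.last K}, part K x.2 {Fin.last K}) = z).card : ℝ)
      ≤ W := by
    intro z _
    set Qz := Q.filter fun x => (part K x.1 {Fin.last K}, part K x.2 {Fin.last K}) = z with hQz
    rcases Qz.eq_empty_or_nonempty with h0 | ⟨x0, hx0⟩
    · rw [h0]; simpa using hW0
    have hQzm : ∀ x ∈ Qz, x ∈ Q ∧ part K x.1 {Fin.last K} = z.1 ∧
        part K x.2 {Fin.last K} = z.2 := by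
      intro x hx
      rw [hQz, mem_filter] at hx
      exact ⟨hx.1, congrArg Prod.fst hx.2, congrArg Prod.snd hx.2⟩
    obtain ⟨hx0Q, hx01, hx02⟩ := hQzm x0 hx0
    have hz1 : Nat.Coprime z.1 F := by
      rw [← hx01]; exact (hmem _ (hQ x0 hx0Q).2.1).2.2.2.2
    have hz2 : Nat.Coprime z.2 F := by
      rw [← hx02]; exact (hmem _ (hQ x0 hx0Q).2.2).2.2.2.2
    set G : ℕ × ℕ → (Fin K → ℕ) × (Fin K → ℕ) :=
      fun x => (fun i => rd K x.1 {i.castSucc}, fun i => rd K x.2 {i.castSucc}) with hG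
    have hinj : Set.InjOn G Qz := by
      intro x hx x' hx' hxx
      obtain ⟨hxQ, hx1, hx2⟩ := hQzm x hx
      obtain ⟨hxQ', hx1', hx2'⟩ := hQzm x' hx'
      have e1 := congrArg Prod.fst hxx
      have e2 := congrArg Prod.snd hxx
      simp only [hG] at e1 e2
      apply Prod.ext
      · rw [Est.fact hF K x.1 (hmem _ (hQ x hxQ).2.1).1,
          Est.fact hF K x'.1 (hmem _ (hQ x' hxQ').2.1).1, hx1, hx1']
        congr 1
        apply prod_congr rfl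
        intro i _
        rw [congrFun e1 i]
      · rw [Est.fact hF K x.2 (hmem _ (hQ x hxQ).2.2).1,
          Est.fact hF K x'.2 (hmem _ (hQ x' hxQ').2.2).1, hx2, hx2']
        congr 1
        apply prod_congr rfl
        intro i _
        rw [congrFun e2 i]
    rw [← card_image_of_injOn hinj]
    set u := ZMod.unitOfCoprime z.1 hz1 with hu
    set u' := ZMod.unitOfCoprime z.2 hz2 with hu'
    have hZX : Z ≤ 2 ^ K * Z := Nat.le_mul_of_pos_left _ (by positivity)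
    apply hJ (2 ^ K * Z) F (hZ.trans hZX) hF1 (hFZ.trans hZX) N hN1 hprodX
      ((u' : ZMod F) * ((u⁻¹ : (ZMod F)ˣ) : ZMod F)) (u'.isUnit.mul (u⁻¹).isUnit)
    intro y hy
    obtain ⟨x, hx, rfl⟩ := mem_image.1 hy
    obtain ⟨hxQ, hx1, hx2⟩ := hQzm x hx
    obtain ⟨hcong, hm1, hm2⟩ := hQ x hxQ
    obtain ⟨hp1, -, -, hr1, -⟩ := hmem _ hm1
    obtain ⟨hp2, -, -, hr2, -⟩ := hmem _ hm2
    refine ⟨hr1, hr2, ?_⟩
    have h5 : ((x.1 : ℤ) : ZMod F) = ((x.2 : ℤ) : ZMod F) :=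
      (ZMod.intCast_eq_intCast_iff' _ _ F).2 hcong
    have h6 : (x.1 : ZMod F) = (x.2 : ZMod F) := by exact_mod_cast h5
    rw [Est.fact hF K x.1 hp1, Est.fact hF K x.2 hp2, hx1, hx2] at h6
    push_cast at h6
    have hu1 : (u : ZMod F) = (z.1 : ZMod F) := ZMod.coe_unitOfCoprime _ _
    have hu2 : (u' : ZMod F) = (z.2 : ZMod F) := ZMod.coe_unitOfCoprime _ _
    rw [← hu1, ← hu2] at h6
    show ∏ i : Fin K, ((rd K x.1 {i.castSucc} : ℕ) : ZMod F) ^ ((i : ℕ) + 1) =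
      (u' : ZMod F) * ((u⁻¹ : (ZMod F)ˣ) : ZMod F) *
        ∏ i : Fin K, ((rd K x.2 {i.castSucc} : ℕ) : ZMod F) ^ ((i : ℕ) + 1)
    have h7 : (u : ZMod F) * ((u⁻¹ : (ZMod F)ˣ) : ZMod F) = 1 := Units.mul_inv u
    calc ∏ i : Fin K, ((rd K x.1 {i.castSucc} : ℕ) : ZMod F) ^ ((i : ℕ) + 1)
        = (∏ i : Fin K, ((rd K x.1 {i.castSucc} : ℕ) : ZMod F) ^ ((i : ℕ) + 1)) * (u : ZMod F) *
            ((u⁻¹ : (ZMod F)ˣ) : ZMod F) := by rw [mul_assoc, h7, mul_one]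
      _ = _ := by rw [h6]; ring
  have hsum : Q.card = ∑ z ∈ Y ×ˢ Y,
      (Q.filter fun x => (part K x.1 {Fin.last K}, part K x.2 {Fin.last K}) = z).card := by
    apply card_eq_sum_card_fiberwise
    intro x hx
    have hx' : x ∈ Q := hx
    have h5 := (hmem _ (hQ x hx').2.1).2.2.1
    have h6 := (hmem _ (hQ x hx').2.2).2.2.1
    show (part K x.1 {Fin.last K}, part K x.2 {Fin.last K}) ∈
      ((Y ×ˢ Y : Finset (ℕ × ℕ)) : Set (ℕ × ℕ))
    rw [mem_coe, mem_product]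
    exact ⟨h5, h6⟩
  have hcard : (Q.card : ℝ) ≤ (Y.card : ℝ) ^ 2 * W := by
    rw [hsum]
    push_cast
    calc _ ≤ ∑ _z ∈ Y ×ˢ Y, W := sum_le_sum hfib
      _ = (Y.card : ℝ) ^ 2 * W := by
        rw [sum_const, card_product, nsmul_eq_mul]; push_cast; ring
  have hP0 : (0 : ℝ) ≤ ∏ i, (N i : ℝ) := prod_nonneg fun i _ => Nat.cast_nonneg _
  have hWle : W ≤ DJ * ((2 ^ K * Z : ℕ) : ℝ) ^ e *
      ((2 ^ K * R) * (1 + (2 ^ K * R) ^ ((3 : ℝ) / 2) / F)) := by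
    rw [hW]
    apply mul_le_mul_of_nonneg_left _ (by positivity)
    apply mul_le_mul hprodR _ (by positivity) (by positivity)
    have h1 : (∏ i, (N i : ℝ)) ^ ((3 : ℝ) / 2) ≤ (2 ^ K * R) ^ ((3 : ℝ) / 2) :=
      Real.rpow_le_rpow hP0 hprodR (by norm_num)
    have h2 := div_le_div_of_nonneg_right h1 (by linarith : (0 : ℝ) ≤ F)
    linarith
  refine hcard.trans ?_
  exact mul_le_mul (pow_le_pow_left₀ (Nat.cast_nonneg _) hYcard 2) hWle hW0 (by positivity)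

/-- **pairs of integers with small radicals in the same residue class** -/
theorem energy (hF : Basics) (hA4 : StmtA4) (hJ : StmtJ) (e : ℝ) (he : 0 < e) :
    ∃ D : ℝ, 0 < D ∧ ∀ (Z F : ℕ) (R : ℝ) (A : Finset ℕ), 1 ≤ Z → 1 ≤ R → 1 ≤ F → F ≤ Z →
      (∀ n ∈ A, 1 ≤ n ∧ n ≤ Z ∧ (rad n : ℝ) ≤ R ∧ n.Coprime F) →
      (((A ×ˢ A).filter fun t => (t.1 : ℤ) % F = (t.2 : ℤ) % F).card : ℝ) ≤
        D * (Z : ℝ) ^ e * (R * (1 + R ^ ((3 : ℝ) / 2) / F)) := by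
  classical
  obtain ⟨K, hK⟩ := exists_nat_ge (8 / e)
  have hK1 : (1 : ℝ) / (K + 1) ≤ e / 8 := by
    rw [div_le_div_iff₀ (by positivity) (by norm_num)]
    rw [div_le_iff₀ he] at hK
    nlinarith
  obtain ⟨D4, hD4, h4⟩ := hA4 (e / 8) (by positivity)
  obtain ⟨DJ, hDJ, hJ'⟩ := hJ K (e / 8) (by positivity)
  obtain ⟨DL, hDL, hL⟩ := T1.polylog_le 0 (2 * K) (e := e / 8) (by positivity)
  have hJB : Est.JBody K DJ (e / 8) := hJ'
  set k : ℝ := (2 : ℝ) ^ K with hk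
  have hk1 : 1 ≤ k := one_le_pow₀ (by norm_num)
  refine ⟨DL * (D4 ^ 2 * (DJ * (k ^ (e / 8) * (k * k ^ 2)))), by positivity, ?_⟩
  intro Z F R A hZ hR hF1 hFZ hA
  have hZ' : (1 : ℝ) ≤ Z := by exact_mod_cast hZ
  have hZ0 : (0 : ℝ) < Z := by linarith
  have hFR : (1 : ℝ) ≤ F := by exact_mod_cast hF1
  set cel : ℕ → Fin K → ℕ := fun n i => Nat.log 2 (rd K n {i.castSucc}) with hcel
  set Cs : Finset (Fin K → ℕ) := Fintype.piFinset fun _ => range (Nat.log 2 Z + 1) with hCs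
  have hCcard : Cs.card = (Nat.log 2 Z + 1) ^ K := by
    rw [hCs, Fintype.card_piFinset]
    simp
  have hmaps : ∀ n ∈ A, cel n ∈ Cs := by
    intro n hn
    obtain ⟨h1, h2, -, -⟩ := hA n hn
    rw [hCs, Fintype.mem_piFinset]
    intro i
    rw [mem_range, hcel]
    have h3 : rd K n {i.castSucc} ≤ Z :=
      (Nat.le_of_dvd h1 (Est.rd_dvd_self hF K _ h1 _)).trans h2
    have := Nat.log_mono_right (b := 2) h3
    simp only
    omega
  set B : ℝ := (D4 * (Z : ℝ) ^ (e / 8) * (Z : ℝ) ^ ((1 : ℝ) / (K + 1))) ^ 2 *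
        (DJ * ((2 ^ K * Z : ℕ) : ℝ) ^ (e / 8) *
          ((2 ^ K * R) * (1 + (2 ^ K * R) ^ ((3 : ℝ) / 2) / F))) with hB
  have hB0 : 0 ≤ B := by rw [hB]; positivity
  set Ac : (Fin K → ℕ) → Finset ℕ := fun c => A.filter fun n => cel n = c with hAc
  have hcell : ∀ c, ((((Ac c) ×ˢ (Ac c)).filter fun t => (t.1 : ℤ) % F = (t.2 : ℤ) % F).card : ℝ)
      ≤ B := by
    intro c
    apply ene_cell hF hD4.le hDJ.le h4 hJB hZ hR hF1 hFZ (Ac c)
      (fun n hn => hA n (mem_filter.1 hn).1) c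
    intro n hn i
    have := (mem_filter.1 hn).2
    exact congrFun this i
  have hpair : ∀ c c', ((((Ac c) ×ˢ (Ac c')).filter fun t =>
      (t.1 : ℤ) % F = (t.2 : ℤ) % F).card : ℝ) ≤ B := by
    intro c c'
    have h1 := Est.cs (Ac c) (Ac c') (fun n => (n : ℤ) % F) (fun n => (n : ℤ) % F)
    have h2 := hcell c
    have h3 := hcell c'
    have h5 : ((((Ac c) ×ˢ (Ac c')).filter fun t =>
      (t.1 : ℤ) % F = (t.2 : ℤ) % F).card : ℝ) ^ 2 ≤ B ^ 2 := by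
      refine h1.trans ?_
      rw [sq]
      exact mul_le_mul h2 h3 (Nat.cast_nonneg _) hB0
    exact le_of_sq_le_sq h5 hB0
  set Q := (A ×ˢ A).filter fun t => (t.1 : ℤ) % F = (t.2 : ℤ) % F with hQd
  have hsum : Q.card = ∑ z ∈ Cs ×ˢ Cs, (Q.filter fun x => (cel x.1, cel x.2) = z).card := by
    apply card_eq_sum_card_fiberwise
    intro x hx
    have hx' : x ∈ Q := hx
    rw [hQd, mem_filter, mem_product] at hx'
    show (cel x.1, cel x.2) ∈ ((Cs ×ˢ Cs : Finset _) : Set _)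
    rw [mem_coe, mem_product]
    exact ⟨hmaps _ hx'.1.1, hmaps _ hx'.1.2⟩
  have hQc : (Q.card : ℝ) ≤ (((Nat.log 2 Z + 1) ^ (2 * K) : ℕ) : ℝ) * B := by
    rw [hsum]
    push_cast
    calc ∑ z ∈ Cs ×ˢ Cs, ((Q.filter fun x => (cel x.1, cel x.2) = z).card : ℝ)
        ≤ ∑ _z ∈ Cs ×ˢ Cs, B := by
          apply sum_le_sum
          rintro ⟨c, c'⟩ _
          refine le_trans ?_ (hpair c c')
          have : (Q.filter fun x => (cel x.1, cel x.2) = (c, c')) ⊆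
              ((Ac c) ×ˢ (Ac c')).filter fun t => (t.1 : ℤ) % F = (t.2 : ℤ) % F := by
            intro x hx
            rw [mem_filter, hQd, mem_filter, mem_product, Prod.mk.injEq] at hx
            obtain ⟨⟨⟨h1, h2⟩, h3⟩, h4, h5⟩ := hx
            rw [mem_filter, mem_product, hAc]
            simp only [mem_filter]
            exact ⟨⟨⟨h1, h4⟩, h2, h5⟩, h3⟩
          exact_mod_cast card_le_card this
      _ = ((Nat.log 2 Z : ℝ) + 1) ^ (2 * K) * B := by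
          rw [sum_const, card_product, nsmul_eq_mul, hCcard]
          push_cast
          rw [← pow_add, two_mul]
  have hlog : (((Nat.log 2 Z + 1) ^ (2 * K) : ℕ) : ℝ) ≤ DL * (Z : ℝ) ^ (e / 8) := by
    refine le_trans ?_ (hL Z hZ)
    exact_mod_cast Nat.pow_le_pow_left (by omega) _
  -- numeric
  have hk32 : (k * R) ^ ((3 : ℝ) / 2) ≤ k ^ 2 * R ^ ((3 : ℝ) / 2) := by
    rw [Real.mul_rpow (by positivity) (by positivity)]
    apply mul_le_mul_of_nonneg_right _ (by positivity)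
    calc k ^ ((3 : ℝ) / 2) ≤ k ^ (2 : ℝ) := Real.rpow_le_rpow_of_exponent_le hk1 (by norm_num)
      _ = k ^ 2 := Real.rpow_two k
  have hbr : 1 + (k * R) ^ ((3 : ℝ) / 2) / F ≤ k ^ 2 * (1 + R ^ ((3 : ℝ) / 2) / F) := by
    have h1 : (k * R) ^ ((3 : ℝ) / 2) / F ≤ k ^ 2 * (R ^ ((3 : ℝ) / 2) / F) := by
      rw [← mul_div_assoc]
      exact div_le_div_of_nonneg_right hk32 (by linarith)
    have h2 : (1 : ℝ) ≤ k ^ 2 := one_le_pow₀ hk1
    rw [mul_add, mul_one]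
    linarith
  have hZe : ((2 ^ K * Z : ℕ) : ℝ) ^ (e / 8) = k ^ (e / 8) * (Z : ℝ) ^ (e / 8) := by
    push_cast
    rw [Real.mul_rpow (by positivity) hZ0.le]
  have hB1 : B ≤ (D4 ^ 2 * (DJ * (k ^ (e / 8) * (k * k ^ 2)))) *
      (((Z : ℝ) ^ (e / 8) * (Z : ℝ) ^ (e / 8)) ^ 2 * (Z : ℝ) ^ (e / 8)) *
        (R * (1 + R ^ ((3 : ℝ) / 2) / F)) := by
    rw [hB, hZe]
    calc (D4 * (Z : ℝ) ^ (e / 8) * (Z : ℝ) ^ ((1 : ℝ) / (K + 1))) ^ 2 *
        (DJ * (k ^ (e / 8) * (Z : ℝ) ^ (e / 8)) *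
          ((k * R) * (1 + (k * R) ^ ((3 : ℝ) / 2) / F)))
        ≤ (D4 * (Z : ℝ) ^ (e / 8) * (Z : ℝ) ^ (e / 8)) ^ 2 *
        (DJ * (k ^ (e / 8) * (Z : ℝ) ^ (e / 8)) *
          ((k * R) * (k ^ 2 * (1 + R ^ ((3 : ℝ) / 2) / F)))) := by
          have h1 : (Z : ℝ) ^ ((1 : ℝ) / (K + 1)) ≤ (Z : ℝ) ^ (e / 8) :=
            Real.rpow_le_rpow_of_exponent_le hZ' hK1
          gcongr
      _ = _ := by ring
  calc (Q.card : ℝ) ≤ (((Nat.log 2 Z + 1) ^ (2 * K) : ℕ) : ℝ) * B := hQc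
    _ ≤ (DL * (Z : ℝ) ^ (e / 8)) * ((D4 ^ 2 * (DJ * (k ^ (e / 8) * (k * k ^ 2)))) *
      (((Z : ℝ) ^ (e / 8) * (Z : ℝ) ^ (e / 8)) ^ 2 * (Z : ℝ) ^ (e / 8)) *
        (R * (1 + R ^ ((3 : ℝ) / 2) / F))) :=
        mul_le_mul hlog hB1 hB0 (by positivity)
    _ = DL * (D4 ^ 2 * (DJ * (k ^ (e / 8) * (k * k ^ 2)))) *
        ((Z : ℝ) ^ (e / 8) * (((Z : ℝ) ^ (e / 8) * (Z : ℝ) ^ (e / 8)) ^ 2 *
          (Z : ℝ) ^ (e / 8))) * (R * (1 + R ^ ((3 : ℝ) / 2) / F)) := by ring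
    _ ≤ DL * (D4 ^ 2 * (DJ * (k ^ (e / 8) * (k * k ^ 2)))) *
        (Z : ℝ) ^ e * (R * (1 + R ^ ((3 : ℝ) / 2) / F)) := by
        apply mul_le_mul_of_nonneg_right _ (by positivity)
        apply mul_le_mul_of_nonneg_left _ (by positivity)
        rw [← Real.rpow_add hZ0, ← Real.rpow_natCast, ← Real.rpow_mul hZ0.le,
          ← Real.rpow_add hZ0, ← Real.rpow_add hZ0]
        apply Real.rpow_le_rpow_of_exponent_le hZ'
        push_cast
        linarith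

end Pool.Agent.N745.NT
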