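import Mathlib

/-!
# Inequalities for large `Y`
-/

set_option autoImplicit false

namespace Pool.Agent.N745.NT

/-- a constant is smaller than a power of `Y` -/
theorem ev_const (K δ : ℝ) (hδ : 0 < δ) : ∃ Y0 : ℝ, 1 ≤ Y0 ∧ ∀ Y : ℝ, Y0 ≤ Y → K ≤ Y ^ δ := by
  obtain ⟨x, hx⟩ := Filter.eventually_atTop.1 ((tendsto_rpow_atTop hδ).eventually_ge_atTop K)
  exact ⟨max 1 x, le_max_left _ _, fun Y hY => hx Y ((le_max_right _ _).trans hY)⟩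

theorem natlog_le {Z : ℕ} (hZ : 1 ≤ Z) : (Nat.log 2 Z : ℝ) ≤ 2 * Real.log Z := by
  have h1 : (2 : ℕ) ^ Nat.log 2 Z ≤ Z := Nat.pow_log_le_self 2 (by omega)
  have h2 : (2 : ℝ) ^ Nat.log 2 Z ≤ Z := by exact_mod_cast h1
  have h3 := Real.log_le_log (by positivity) h2
  rw [Real.log_pow] at h3
  have h4 : (1 : ℝ) / 2 ≤ Real.log 2 := by
    have := Real.log_two_gt_d9
    linarith
  have h5 : (0 : ℝ) ≤ (Nat.log 2 Z : ℝ) := Nat.cast_nonneg _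
  nlinarith

theorem evA (C n : ℕ) {γ k : ℝ} (hγ : 0 < γ) (hk : 0 < k) : ∃ Y0 : ℝ, 1 ≤ Y0 ∧ ∀ Y : ℝ, Y0 ≤ Y →
    ∀ Z : ℕ, 1 ≤ Z → (Z : ℝ) ≤ Y ^ k → ((C * (n * Nat.log 2 Z) : ℕ) : ℝ) ≤ Y ^ γ := by
  obtain ⟨Y0, h0, h⟩ := ev_const ((C : ℝ) * n * (2 * k * (1 / (γ / 2)))) (γ / 2) (half_pos hγ)
  refine ⟨Y0, h0, ?_⟩
  intro Y hY Z hZ hZY
  have hY1 : 1 ≤ Y := h0.trans hY
  have hY0 : 0 < Y := by linarith
  have h1 := natlog_le hZ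
  have hZ0 : (0 : ℝ) < Z := by exact_mod_cast hZ
  have h2 : Real.log Z ≤ k * Real.log Y := by
    rw [← Real.log_rpow hY0]
    exact Real.log_le_log hZ0 hZY
  have h3 : Real.log Y ≤ Y ^ (γ / 2) / (γ / 2) := Real.log_le_rpow_div hY0.le (half_pos hγ)
  have h4 : (Nat.log 2 Z : ℝ) ≤ 2 * k * (1 / (γ / 2)) * Y ^ (γ / 2) := by
    calc (Nat.log 2 Z : ℝ) ≤ 2 * (k * (Y ^ (γ / 2) / (γ / 2))) := by
          refine h1.trans ?_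
          have := mul_le_mul_of_nonneg_left h3 hk.le
          linarith
      _ = _ := by ring
  push_cast
  calc (C : ℝ) * (n * (Nat.log 2 Z : ℝ))
      ≤ C * (n * (2 * k * (1 / (γ / 2)) * Y ^ (γ / 2))) := by gcongr
    _ = (C * n * (2 * k * (1 / (γ / 2)))) * Y ^ (γ / 2) := by ring
    _ ≤ Y ^ (γ / 2) * Y ^ (γ / 2) := mul_le_mul_of_nonneg_right (h Y hY) (by positivity)
    _ = Y ^ γ := by
        rw [← Real.rpow_add hY0]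
        congr 1
        ring

theorem floor_ge_half {Y : ℝ} (hY : 1 ≤ Y) {M : ℕ} (hM : 1 ≤ M) :
    Y / 2 ≤ (⌊Y ^ (2 * M)⌋₊ : ℝ) := by
  have h1 : Y ≤ Y ^ (2 * M) := by
    calc Y = Y ^ 1 := (pow_one Y).symm
      _ ≤ Y ^ (2 * M) := pow_le_pow_right₀ hY (by omega)
  have h2 : ⌊Y⌋₊ ≤ ⌊Y ^ (2 * M)⌋₊ := Nat.floor_mono h1
  have h3 : (⌊Y⌋₊ : ℝ) ≤ (⌊Y ^ (2 * M)⌋₊ : ℝ) := by exact_mod_cast h2
  have h4 : Y < (⌊Y⌋₊ : ℝ) + 1 := Nat.lt_floor_add_one Y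
  have h5 : 1 ≤ ⌊Y⌋₊ := Nat.le_floor (by exact_mod_cast hY)
  have h6 : (1 : ℝ) ≤ (⌊Y⌋₊ : ℝ) := by exact_mod_cast h5
  linarith

theorem evB (U M : ℕ) (hM : 1 ≤ M) {δ k : ℝ} (hδ : 0 < δ) (hk : 0 < k) :
    ∃ Y0 : ℝ, 1 ≤ Y0 ∧ ∀ Y : ℝ, Y0 ≤ Y → ∀ Z : ℕ, 1 ≤ Z → (Z : ℝ) ≤ Y ^ k →
      ((Z + U + 2 * U * Z : ℕ) : ℝ) ≤ Real.exp ((⌊Y ^ (2 * M)⌋₊ : ℝ) ^ δ) := by
  obtain ⟨Y0, h0, h⟩ := ev_const ((2 : ℝ) ^ δ * (k * (1 / (δ / 2)) + (1 + 3 * U))) (δ / 2)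
    (half_pos hδ)
  refine ⟨Y0, h0, ?_⟩
  intro Y hY Z hZ hZY
  have hY1 : 1 ≤ Y := h0.trans hY
  have hY0 : 0 < Y := by linarith
  have hZ1 : (1 : ℝ) ≤ Z := by exact_mod_cast hZ
  have h1 : ((Z + U + 2 * U * Z : ℕ) : ℝ) ≤ (1 + 3 * U) * Y ^ k := by
    push_cast
    have hU : (0 : ℝ) ≤ U := Nat.cast_nonneg _
    calc (Z : ℝ) + U + 2 * U * Z ≤ (1 + 3 * U) * Z := by nlinarith
      _ ≤ (1 + 3 * U) * Y ^ k := by gcongr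
  refine h1.trans ?_
  have h2 : (0 : ℝ) < 1 + 3 * U := by positivity
  have e0 : (1 + 3 * (U : ℝ)) * Y ^ k = Real.exp (Real.log (1 + 3 * U) + k * Real.log Y) := by
    rw [Real.exp_add, Real.exp_log h2]
    congr 1
    rw [Real.rpow_def_of_pos hY0]
    congr 1
    ring
  rw [e0]
  apply Real.exp_le_exp.2
  have h3 : Real.log Y ≤ Y ^ (δ / 2) / (δ / 2) := Real.log_le_rpow_div hY0.le (half_pos hδ)
  have h4 : Real.log (1 + 3 * (U : ℝ)) ≤ 1 + 3 * U := by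
    have := Real.log_le_sub_one_of_pos h2
    linarith
  have h5 : (1 : ℝ) ≤ Y ^ (δ / 2) := Real.one_le_rpow hY1 (half_pos hδ).le
  have h6 : Real.log (1 + 3 * (U : ℝ)) + k * Real.log Y ≤
      (k * (1 / (δ / 2)) + (1 + 3 * U)) * Y ^ (δ / 2) := by
    have h7 := mul_le_mul_of_nonneg_left h3 hk.le
    have h8 : (1 + 3 * (U : ℝ)) * 1 ≤ (1 + 3 * U) * Y ^ (δ / 2) :=
      mul_le_mul_of_nonneg_left h5 h2.le
    calc Real.log (1 + 3 * (U : ℝ)) + k * Real.log Y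
        ≤ (1 + 3 * U) * Y ^ (δ / 2) + k * (Y ^ (δ / 2) / (δ / 2)) := by linarith
      _ = _ := by ring
  refine h6.trans ?_
  have h9 : (Y / 2) ^ δ ≤ (⌊Y ^ (2 * M)⌋₊ : ℝ) ^ δ :=
    Real.rpow_le_rpow (by positivity) (floor_ge_half hY1 hM) hδ.le
  refine le_trans ?_ h9
  rw [Real.div_rpow hY0.le (by norm_num), le_div_iff₀ (by positivity)]
  calc (k * (1 / (δ / 2)) + (1 + 3 * U)) * Y ^ (δ / 2) * 2 ^ δ
      = (2 ^ δ * (k * (1 / (δ / 2)) + (1 + 3 * U))) * Y ^ (δ / 2) := by ring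
    _ ≤ Y ^ (δ / 2) * Y ^ (δ / 2) := mul_le_mul_of_nonneg_right (h Y hY) (by positivity)
    _ = Y ^ δ := by
        rw [← Real.rpow_add hY0]
        congr 1
        ring

theorem evC (U M C : ℕ) : ∃ Y0 : ℝ, 1 ≤ Y0 ∧ ∀ Y : ℝ, Y0 ≤ Y →
    ((2 * U * (⌊Y ^ (2 * M)⌋₊ + 2) ^ C : ℕ) : ℝ) < Y ^ ((2 * M * C + 1 : ℕ) : ℝ) := by
  refine ⟨2 * U * 3 ^ C + 1, by
    have : (0 : ℝ) ≤ 2 * U * 3 ^ C := by positivity
    linarith, ?_⟩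
  intro Y hY
  have h0 : (0 : ℝ) ≤ 2 * U * 3 ^ C := by positivity
  have hY1 : 1 ≤ Y := by linarith
  have hY0 : 0 < Y := by linarith
  have h1 : (1 : ℝ) ≤ Y ^ (2 * M) := one_le_pow₀ hY1
  have h2 : (⌊Y ^ (2 * M)⌋₊ : ℝ) ≤ Y ^ (2 * M) := Nat.floor_le (by positivity)
  rw [Real.rpow_natCast]
  push_cast
  calc 2 * (U : ℝ) * ((⌊Y ^ (2 * M)⌋₊ : ℝ) + 2) ^ C ≤ 2 * U * (3 * Y ^ (2 * M)) ^ C := by
        gcongr
        linarith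
    _ = (2 * U * 3 ^ C) * (Y ^ (2 * M)) ^ C := by rw [mul_pow]; ring
    _ < Y * (Y ^ (2 * M)) ^ C := by
        apply mul_lt_mul_of_pos_right _ (by positivity)
        linarith
    _ = Y ^ (2 * M * C + 1) := by rw [pow_succ, ← pow_mul]; ring

end Pool.Agent.N745.NT
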