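import Pool.Agent.N745.NT.Cnt

/-!
# Tuples of integers
-/

set_option autoImplicit false

namespace Pool.Agent.N745.NT

open Finset Pool.Agent.H785R2.ABC Pool.Agent.H705R2.ABC Pool.Agent.N745.T1

/-- the radical of a product of pairwise coprime integers -/
theorem rad_prod {ι : Type*} [DecidableEq ι] (s : Finset ι) (f : ι → ℕ)
    (h : ∀ i ∈ s, ∀ j ∈ s, i ≠ j → (f i).Coprime (f j)) : rad (∏ i ∈ s, f i) = ∏ i ∈ s, rad (f i) := by
  induction s using Finset.induction_on with
  | empty =>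
    rw [prod_empty, prod_empty]
    unfold rad
    rw [Nat.primeFactors_one, prod_empty]
  | insert a s ha ih =>
    rw [prod_insert ha, prod_insert ha, PO.rad_mul_coprime, ih]
    · intro i hi j hj hij
      exact h i (mem_insert_of_mem hi) j (mem_insert_of_mem hj) hij
    · apply Nat.Coprime.prod_right
      intro i hi
      exact h a (mem_insert_self a s) i (mem_insert_of_mem hi) (by rintro rfl; exact ha hi)

/-- the radical of the product of the members -/
def radi {n : ℕ} (x : Fin n → ℤ) : ℕ := rad (∏ i, x i).natAbs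

theorem radi_eq {n : ℕ} (x : Fin n → ℤ) (h : ∀ i j, i ≠ j → Int.gcd (x i) (x j) = 1) :
    (radi x : ℝ) = ∏ i, (rad (x i).natAbs : ℝ) := by
  unfold radi
  have h1 : (∏ i, x i).natAbs = ∏ i, (x i).natAbs := by
    rw [← Int.natAbsHom_apply, map_prod]
    rfl
  rw [h1, rad_prod univ (fun i => (x i).natAbs) (fun i _ j _ hij => h i j hij)]
  push_cast
  rfl

/-- splitting according to the signs -/
theorem sign_classes {n : ℕ} (T : Finset (Fin n → ℤ)) (hT : ∀ x ∈ T, ∀ i, x i ≠ 0) {Bd : ℝ}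
    (h : ∀ P : Finset (Fin n), (((T.filter fun x => ∀ i, (0 < x i ↔ i ∈ P)).image
      fun x i => (x i).natAbs).card : ℝ) ≤ Bd) : (T.card : ℝ) ≤ 2 ^ n * Bd := by
  classical
  have h1 : T ⊆ (univ : Finset (Finset (Fin n))).biUnion fun P =>
      T.filter fun x => ∀ i, (0 < x i ↔ i ∈ P) := by
    intro x hx
    rw [mem_biUnion]
    refine ⟨univ.filter fun i => 0 < x i, mem_univ _, mem_filter.2 ⟨hx, fun i => ?_⟩⟩
    rw [mem_filter]
    simp
  have h2 : (T.card : ℝ) ≤ ∑ P : Finset (Fin n),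
      ((T.filter fun x => ∀ i, (0 < x i ↔ i ∈ P)).card : ℝ) := by
    exact_mod_cast (card_le_card h1).trans card_biUnion_le
  refine h2.trans ?_
  calc ∑ P : Finset (Fin n), ((T.filter fun x => ∀ i, (0 < x i ↔ i ∈ P)).card : ℝ)
      ≤ ∑ _P : Finset (Fin n), Bd := by
        apply sum_le_sum
        intro P _
        refine le_trans (le_of_eq ?_) (h P)
        rw [card_image_of_injOn]
        intro x hx y hy hxy
        have hx' := mem_filter.1 (mem_coe.1 hx)
        have hy' := mem_filter.1 (mem_coe.1 hy)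
        funext i
        have e1 : (x i).natAbs = (y i).natAbs := congrFun hxy i
        have e2 := hT x hx'.1 i
        have e3 := hT y hy'.1 i
        have e4 := hx'.2 i
        have e5 := hy'.2 i
        by_cases hi : i ∈ P
        · have := e4.2 hi
          have := e5.2 hi
          omega
        · have : ¬ 0 < x i := fun h => hi (e4.1 h)
          have : ¬ 0 < y i := fun h => hi (e5.1 h)
          omega
    _ = 2 ^ n * Bd := by
        rw [sum_const, card_univ, Fintype.card_finset, Fintype.card_fin, nsmul_eq_mul]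
        push_cast
        rfl

/-- **counting integer tuples by size** -/
theorem int_count (n : ℕ) (hn : 2 ≤ n) (B h : ℕ) (hB : 1 ≤ B) (hh : 1 ≤ h) (g : ℝ) (hg0 : 0 ≤ g)
    (hg1 : g ≤ 3 / 4) (hg2 : g * n ≤ 2) (hg3 : g * ((n : ℝ) - h) ≤ 1) (ε : ℝ) (hε : 0 < ε) :
    ∃ M0 : ℝ, 0 < M0 ∧ ∀ M : ℝ, M0 ≤ M → ∃ C : ℝ, 0 < C ∧ ∀ (X : ℕ) (N : ℤ)
      (T : Finset (Fin n → ℤ)), 1 ≤ X →
      (∀ x ∈ T, (∀ i, x i ≠ 0 ∧ |x i| ≤ (X : ℤ)) ∧ (∀ i j, i ≠ j → Int.gcd (x i) (x j) = 1) ∧
        ∑ i, x i = N ∧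
        h ≤ (univ.filter fun i => (radi x : ℝ) ^ M < B * ((|x i| : ℤ) : ℝ)).card) →
      (T.card : ℝ) ≤ C * (X : ℝ) ^ ((1 - g + ε) / M) := by
  classical
  obtain ⟨M0, hM0, hmain⟩ := count_M n hn 1 B h hB hh g hg0 hg1 hg2 hg3 ε hε
  refine ⟨M0, hM0, ?_⟩
  intro M hM
  obtain ⟨C, hC, hbd⟩ := hmain M hM
  refine ⟨2 ^ n * C, by positivity, ?_⟩
  intro X N T hX hT
  rw [mul_assoc]
  apply sign_classes T (fun x hx i => ((hT x hx).1 i).1)
  intro P
  apply hbd X (fun i => if i ∈ P then 1 else -1) N _ hX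
  · intro i
    split_ifs <;> decide
  · intro t ht
    obtain ⟨x, hx, rfl⟩ := mem_image.1 ht
    rw [mem_filter] at hx
    obtain ⟨hxT, hxP⟩ := hx
    obtain ⟨h1, h2, h3, h4⟩ := hT x hxT
    have hval : ∀ i, (if i ∈ P then (1 : ℤ) else -1) * ((x i).natAbs : ℤ) = x i := by
      intro i
      have e1 := hxP i
      have e2 := (h1 i).1
      split_ifs with hi
      · have := e1.2 hi
        omega
      · have : ¬ 0 < x i := fun h => hi (e1.1 h)
        omega
    refine ⟨⟨?_, ?_, ?_, ?_⟩, ?_⟩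
    · intro i
      have := (h1 i).1
      show 1 ≤ (x i).natAbs
      omega
    · intro i
      have := (h1 i).2
      show (x i).natAbs ≤ X
      rw [Int.abs_eq_natAbs] at this
      exact_mod_cast this
    · intro i j hij
      exact h2 i j hij
    · rw [← h3]
      exact sum_congr rfl fun i _ => hval i
    · refine h4.trans (le_of_eq ?_)
      congr 1
      ext i
      rw [mem_filter, mem_filter]
      have e1 : ((|x i| : ℤ) : ℝ) = ((x i).natAbs : ℝ) := by
        rw [Int.abs_eq_natAbs, Int.cast_natCast]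
      rw [radi_eq x h2, e1]

end Pool.Agent.N745.NT
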