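import Pool.Agent.N745.NT.MainQ
import Pool.Agent.N745.NT.Int
import Pool.Agent.TH867.HP.Basic

/-!
# Hyperplanes in general position
-/

set_option autoImplicit false

namespace Pool.Agent.N745.NT

open Finset Pool.Agent.H785R2.ABC Pool.Agent.H705R2.ABC Pool.Agent.N745.T1
  Pool.Agent.TH867.HP

variable {m q : ℕ}

/-- a bound for the determinants -/
noncomputable def K3 (L : Fin q → Fin (m + 1) → ℤ) : ℕ :=
  1 + ∑ s : Fin (m + 1) → Fin q, (mt L s).det.natAbs

theorem det_le_K3 (L : Fin q → Fin (m + 1) → ℤ) (s : Fin (m + 1) → Fin q) :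
    (mt L s).det.natAbs ≤ K3 L := by
  have := single_le_sum (f := fun s : Fin (m + 1) → Fin q => (mt L s).det.natAbs)
    (fun _ _ => Nat.zero_le _) (mem_univ s)
  have h : (mt L s).det.natAbs ≤ ∑ s : Fin (m + 1) → Fin q, (mt L s).det.natAbs := this
  unfold K3
  omega

/-- the linear relation between `m + 2` forms in general position -/
theorem relation {L : Fin q → Fin (m + 1) → ℤ} (hL : Gp L) (ι : Fin (m + 1 + 1) → Fin q)
    (hι : Function.Injective ι) : ∃ v : Fin (m + 1 + 1) → ℤ,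
      (∀ i, v i ≠ 0 ∧ (v i).natAbs ≤ K3 L) ∧
      ∀ x : Fin (m + 1) → ℤ, ∑ i, v i * ev L x (ι i) = 0 := by
  refine ⟨fun i => (-1) ^ (i : ℕ) * (mt L (fun a => ι (i.succAbove a))).det, ?_, ?_⟩
  · intro i
    have h1 : (mt L (fun a => ι (i.succAbove a))).det ≠ 0 :=
      hL _ (hι.comp (Fin.succAbove_right_injective))
    constructor
    · exact mul_ne_zero (pow_ne_zero _ (by norm_num)) h1
    · rw [Int.natAbs_mul, Int.natAbs_pow]
      simp only [Int.natAbs_neg, Int.natAbs_one, one_pow, one_mul]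
      exact det_le_K3 L _
  · intro x
    set A : Matrix (Fin (m + 1 + 1)) (Fin (m + 1 + 1)) ℤ :=
      Matrix.of fun i j => Fin.cases (ev L x (ι i)) (fun j => L (ι i) j) j with hA
    have h1 : A.det = 0 := by
      rw [← Matrix.exists_mulVec_eq_zero_iff]
      refine ⟨Fin.cases (-1) x, ?_, ?_⟩
      · intro h
        have := congrFun h 0
        simp at this
      · funext i
        rw [Matrix.mulVec, dotProduct, Fin.sum_univ_succ]
        simp only [hA, Matrix.of_apply, Fin.cases_zero, Fin.cases_succ, Pi.zero_apply]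
        unfold ev
        ring
    rw [Matrix.det_succ_column_zero] at h1
    rw [← h1]
    apply sum_congr rfl
    intro i _
    have h2 : A.submatrix i.succAbove Fin.succ = mt L (fun a => ι (i.succAbove a)) := by
      ext a b
      simp [hA, Pool.Agent.TH867.HP.mt]
    have h3 : A i 0 = ev L x (ι i) := by simp [hA]
    rw [h2, h3]
    ring

/-- the points of a class -/
theorem class_fam {L : Fin q → Fin (m + 1) → ℤ} (hL : Gp L) {Δ : ℕ} (hΔ : 1 ≤ Δ) {Z : ℕ}
    (T : Finset (Fin (m + 1) → ℤ)) (P : Finset (Fin q)) (δ : Fin q → ℕ)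
    (hT : ∀ x ∈ T, (∀ i, ev L x i ≠ 0) ∧ (∀ i, va L x i ≤ Z) ∧
      (∀ i j, i ≠ j → Nat.gcd (va L x i) (va L x j) ∣ Δ) ∧ (∀ i, (0 < ev L x i ↔ i ∈ P)) ∧
      (∀ i, δ i = Nat.gcd (va L x i) Δ)) :
    Fam (m + 1) (K3 L * Δ) Z (T.image fun x i => va L x i / δ i) := by
  classical
  have hval : ∀ x ∈ T, ∀ i, 0 < va L x i := fun x hx i => Int.natAbs_pos.2 ((hT x hx).1 i)
  have hδd : ∀ x ∈ T, ∀ i, δ i ∣ va L x i := fun x hx i => by
    rw [(hT x hx).2.2.2.2 i]
    exact Nat.gcd_dvd_left _ _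
  have hδ0 : ∀ x ∈ T, ∀ i, 0 < δ i := fun x hx i => by
    rw [(hT x hx).2.2.2.2 i]
    exact Nat.gcd_pos_of_pos_right _ (by omega)
  have hδΔ : ∀ x ∈ T, ∀ i, δ i ≤ Δ := fun x hx i => by
    rw [(hT x hx).2.2.2.2 i]
    exact Nat.gcd_le_right _ (by omega)
  refine ⟨?_, ?_, ?_, ?_⟩
  · intro t ht i
    obtain ⟨x, hx, rfl⟩ := mem_image.1 ht
    exact Nat.div_pos (Nat.le_of_dvd (hval x hx i) (hδd x hx i)) (hδ0 x hx i)
  · intro t ht i
    obtain ⟨x, hx, rfl⟩ := mem_image.1 ht
    exact (Nat.div_le_self _ _).trans ((hT x hx).2.1 i)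
  · intro t ht i j hij
    obtain ⟨x, hx, rfl⟩ := mem_image.1 ht
    obtain ⟨-, -, h3, -, h5⟩ := hT x hx
    rw [Nat.coprime_iff_gcd_eq_one]
    by_contra hne
    obtain ⟨p, hp, hpd⟩ := Nat.exists_prime_and_dvd hne
    have hpi : p ∣ va L x i / δ i := hpd.trans (Nat.gcd_dvd_left _ _)
    have hpj : p ∣ va L x j / δ j := hpd.trans (Nat.gcd_dvd_right _ _)
    -- `p ^ (v_p Δ + 1)` divides both values
    have hkey : ∀ i, p ∣ va L x i / δ i → p ^ (Δ.factorization p + 1) ∣ va L x i := by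
      intro i hi
      have e1 : va L x i ≠ 0 := (hval x hx i).ne'
      rw [hp.pow_dvd_iff_le_factorization e1]
      have e2 : 1 ≤ (va L x i / δ i).factorization p := by
        rw [← hp.dvd_iff_one_le_factorization]
        · exact hi
        · exact (Nat.div_pos (Nat.le_of_dvd (hval x hx i) (hδd x hx i)) (hδ0 x hx i)).ne'
      rw [Nat.factorization_div (hδd x hx i), Finsupp.tsub_apply, h5 i,
        Nat.factorization_gcd e1 (by omega), Finsupp.inf_apply] at e2
      rcases le_total ((va L x i).factorization p) (Δ.factorization p) with e3 | e3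
      · rw [inf_eq_left.2 e3] at e2
        omega
      · rw [inf_eq_right.2 e3] at e2
        omega
    have h6 : p ^ (Δ.factorization p + 1) ∣ Δ :=
      (Nat.dvd_gcd (hkey i hpi) (hkey j hpj)).trans (h3 i j hij)
    rw [hp.pow_dvd_iff_le_factorization (by omega)] at h6
    omega
  · intro ι hι
    obtain ⟨v, hv, hv0⟩ := relation hL ι hι
    rcases T.eq_empty_or_nonempty with hT0 | ⟨x0, hx0⟩
    · refine ⟨fun _ => 1, 0, fun i => ⟨one_ne_zero, ?_⟩, ?_⟩
      · have : 1 ≤ K3 L * Δ := Nat.mul_pos (by unfold K3; omega) (by omega)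
        simpa using this
      · intro t ht
        rw [hT0, image_empty] at ht
        exact absurd ht (notMem_empty _)
    refine ⟨fun i => v i * ((if ι i ∈ P then 1 else -1) * (δ (ι i) : ℤ)), 0, ?_, ?_⟩
    · intro i
      have e1 := hδ0 x0 hx0 (ι i)
      have e2 := hδΔ x0 hx0 (ι i)
      have e3 : (if ι i ∈ P then (1 : ℤ) else -1).natAbs = 1 := by split_ifs <;> rfl
      constructor
      · apply mul_ne_zero (hv i).1
        apply mul_ne_zero
        · split_ifs <;> norm_num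
        · exact_mod_cast e1.ne'
      · rw [Int.natAbs_mul, Int.natAbs_mul, e3, one_mul, Int.natAbs_natCast]
        exact Nat.mul_le_mul (hv i).2 e2
    · intro t ht
      obtain ⟨x, hx, rfl⟩ := mem_image.1 ht
      rw [← hv0 x]
      apply sum_congr rfl
      intro i _
      rw [mul_assoc]
      congr 1
      have e1 : δ (ι i) * (va L x (ι i) / δ (ι i)) = va L x (ι i) :=
        Nat.mul_div_cancel' (hδd x hx _)
      have e2 : ((δ (ι i) : ℤ) * ((va L x (ι i) / δ (ι i) : ℕ) : ℤ)) = (va L x (ι i) : ℤ) := by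
        exact_mod_cast e1
      rw [mul_assoc, e2]
      have e3 := (hT x hx).2.2.2.1 (ι i)
      have e4 := (hT x hx).1 (ι i)
      unfold va
      split_ifs with h
      · have := e3.2 h
        omega
      · have : ¬ 0 < ev L x (ι i) := fun h' => h (e3.1 h')
        omega

/-- a point is determined by the values -/
theorem ev_inj {L : Fin q → Fin (m + 1) → ℤ} (hL : Gp L) (hq : m + 1 ≤ q)
    {x y : Fin (m + 1) → ℤ} (h : ∀ i, ev L x i = ev L y i) : x = y := by
  set s : Fin (m + 1) → Fin q := Fin.castLE hq with hs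
  have hsi : Function.Injective s := Fin.castLE_injective hq
  funext j
  have h1 := adj_eq L s x j
  have h2 := adj_eq L s y j
  have h3 : (mt L s).det * x j = (mt L s).det * y j := by
    rw [h1, h2]
    exact sum_congr rfl fun a _ => by rw [h]
  exact mul_left_cancel₀ (hL s hsi) h3

/-- the radical of the product of the values -/
def radv (L : Fin q → Fin (m + 1) → ℤ) (x : Fin (m + 1) → ℤ) : ℕ := rad (∏ i, va L x i)

theorem rad_mono {a b : ℕ} (h : a ∣ b) (hb : b ≠ 0) : rad a ≤ rad b := by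
  unfold rad
  apply prod_le_prod_of_subset_of_one_le' (Nat.primeFactors_mono h hb)
  intro p hp _
  exact (Nat.prime_of_mem_primeFactors hp).one_lt.le

/-- **the points with small radical in a dyadic shell** -/
theorem shell {L : Fin q → Fin (m + 1) → ℤ} (hL : Gp L) (hm : 1 ≤ m) (hq : m + 2 ≤ q) {Δ : ℕ}
    (hΔ : 1 ≤ Δ) (κ : ℝ) (hκ0 : 0 ≤ κ) (hκ' : κ ≤ 1) (hκ1 : (m : ℝ) ≤ κ * q)
    (hκ2 : (1 - κ) * m ≤ (q : ℝ) - (m + 1)) (η : ℝ) (hη : 0 < η) :
    ∃ E : ℝ, 0 < E ∧ ∀ k : ℝ, 0 < k → ∃ D : ℝ, 0 < D ∧ ∀ (Y : ℝ) (H : ℕ)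
      (T : Finset (Fin (m + 1) → ℤ)), 1 ≤ Y → ((K2 L * H : ℕ) : ℝ) ≤ Y ^ k →
      (∀ x ∈ T, (∀ i, ev L x i ≠ 0) ∧ ht x ≤ H ∧ (K1 L : ℝ) * Δ * Y ^ E < ht x ∧
        (∀ i j, i ≠ j → Nat.gcd (va L x i) (va L x j) ∣ Δ) ∧ (radv L x : ℝ) ≤ Y) →
      (T.card : ℝ) ≤ D * Y ^ (κ + η) := by
  classical
  obtain ⟨E, hE, hmain⟩ := mainQ q (m + 1) (by omega) (by omega) (K3 L * Δ) κ hκ0 hκ'
    (by push_cast; linarith) η hη
  refine ⟨E, hE, ?_⟩
  intro k hk
  obtain ⟨D, hD, hbd⟩ := hmain k hk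
  refine ⟨(Fintype.card (Finset (Fin q) × (Fin q → Fin (Δ + 1))) : ℝ) * D, ?_, ?_⟩
  · apply mul_pos _ hD
    have : 0 < Fintype.card (Finset (Fin q) × (Fin q → Fin (Δ + 1))) := Fintype.card_pos
    exact_mod_cast this
  intro Y H T hY hZ hT
  have hY0 : 0 < Y := by linarith
  -- the classes
  let cl : Finset (Fin q) × (Fin q → Fin (Δ + 1)) → Finset (Fin (m + 1) → ℤ) := fun c =>
    T.filter fun x => (∀ i, (0 < ev L x i ↔ i ∈ c.1)) ∧ (∀ i, (c.2 i : ℕ) = Nat.gcd (va L x i) Δ)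
  have hcov : T ⊆ univ.biUnion cl := by
    intro x hx
    rw [mem_biUnion]
    refine ⟨(univ.filter fun i => 0 < ev L x i, fun i => ⟨Nat.gcd (va L x i) Δ, ?_⟩), mem_univ _,
      mem_filter.2 ⟨hx, fun i => ?_, fun i => rfl⟩⟩
    · have := Nat.gcd_le_right (va L x i) (by omega : 0 < Δ)
      omega
    · simp
  have hclb : ∀ c, ((cl c).card : ℝ) ≤ D * Y ^ (κ + η) := by
    intro c
    have hmem : ∀ x ∈ cl c, x ∈ T ∧ (∀ i, (0 < ev L x i ↔ i ∈ c.1)) ∧
        (∀ i, (c.2 i : ℕ) = Nat.gcd (va L x i) Δ) := fun x hx => mem_filter.1 hx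
    have hval : ∀ x ∈ cl c, ∀ i, 0 < va L x i := fun x hx i =>
      Int.natAbs_pos.2 ((hT x (hmem x hx).1).1 i)
    have hδd : ∀ x ∈ cl c, ∀ i, (c.2 i : ℕ) ∣ va L x i := fun x hx i => by
      rw [(hmem x hx).2.2 i]
      exact Nat.gcd_dvd_left _ _
    have hδ0 : ∀ x ∈ cl c, ∀ i, 0 < (c.2 i : ℕ) := fun x hx i => by
      rw [(hmem x hx).2.2 i]
      exact Nat.gcd_pos_of_pos_right _ (by omega)
    have hFam := class_fam hL hΔ (Z := K2 L * H) (cl c) c.1 (fun i => (c.2 i : ℕ)) (by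
      intro x hx
      obtain ⟨h1, h2, h3⟩ := hmem x hx
      obtain ⟨g1, g2, g3, g4, g5⟩ := hT x h1
      exact ⟨g1, fun i => (va_le L x i).trans (Nat.mul_le_mul_left _ g2), g4, h2, h3⟩)
    have hcard : (((cl c).image fun x i => va L x i / (c.2 i : ℕ)).card : ℝ) = (cl c).card := by
      rw [card_image_of_injOn]
      intro x hx y hy hxy
      have hx' := mem_coe.1 hx
      have hy' := mem_coe.1 hy
      apply ev_inj hL (by omega)
      intro i
      have e1 : va L x i / (c.2 i : ℕ) = va L y i / (c.2 i : ℕ) := congrFun hxy i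
      have e2 : va L x i = va L y i := by
        rw [← Nat.mul_div_cancel' (hδd x hx' i), ← Nat.mul_div_cancel' (hδd y hy' i), e1]
      have e3 := (hmem x hx').2.1 i
      have e4 := (hmem y hy').2.1 i
      have e5 := (hT x (hmem x hx').1).1 i
      have e6 := (hT y (hmem y hy').1).1 i
      unfold va at e2
      by_cases hi : i ∈ c.1
      · have := e3.2 hi
        have := e4.2 hi
        omega
      · have : ¬ 0 < ev L x i := fun h => hi (e3.1 h)
        have : ¬ 0 < ev L y i := fun h => hi (e4.1 h)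
        omega
    rw [← hcard]
    apply hbd Y (K2 L * H) _ hY hZ hFam
    intro t htt
    obtain ⟨x, hx, rfl⟩ := mem_image.1 htt
    obtain ⟨h1, h2, h3⟩ := hmem x hx
    obtain ⟨g1, g2, g3, g4, g5⟩ := hT x h1
    -- at most `m` low members
    have hlow : (univ.filter fun i =>
        ((va L x i / (c.2 i : ℕ) : ℕ) : ℝ) < Y ^ E).card ≤ m := by
      by_contra hcon
      rw [not_le] at hcon
      obtain ⟨J, hJ1, hJ2⟩ := exists_subset_card_eq (Nat.succ_le_of_lt hcon)
      set s : Fin (m + 1) → Fin q := fun a => J.orderEmbOfFin hJ2 a with hs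
      have hsi : Function.Injective s := fun a b h => (J.orderEmbOfFin hJ2).injective h
      have hV : ∀ a, va L x (s a) ≤ ⌊(Δ : ℝ) * Y ^ E⌋₊ := by
        intro a
        have e1 : s a ∈ J := Finset.orderEmbOfFin_mem J hJ2 a
        have e2 := (mem_filter.1 (hJ1 e1)).2
        apply Nat.le_floor
        have e3 : (va L x (s a) : ℝ) = (c.2 (s a) : ℕ) *
            ((va L x (s a) / (c.2 (s a) : ℕ) : ℕ) : ℝ) := by
          exact_mod_cast (Nat.mul_div_cancel' (hδd x hx (s a))).symm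
        rw [e3]
        have e4 : ((c.2 (s a) : ℕ) : ℝ) ≤ Δ := by
          have := (c.2 (s a)).2
          exact_mod_cast (by omega : (c.2 (s a) : ℕ) ≤ Δ)
        exact mul_le_mul e4 e2.le (Nat.cast_nonneg _) (Nat.cast_nonneg _)
      have e5 := ht_le hL hsi x hV
      have e6 : (ht x : ℝ) ≤ K1 L * (Δ * Y ^ E) := by
        calc (ht x : ℝ) ≤ ((K1 L * ⌊(Δ : ℝ) * Y ^ E⌋₊ : ℕ) : ℝ) := by exact_mod_cast e5
          _ = K1 L * (⌊(Δ : ℝ) * Y ^ E⌋₊ : ℝ) := by push_cast; ring
          _ ≤ K1 L * (Δ * Y ^ E) := by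
              apply mul_le_mul_of_nonneg_left (Nat.floor_le (by positivity)) (Nat.cast_nonneg _)
      linarith
    refine ⟨?_, ?_, ?_⟩
    · have e1 : ∏ i, (rad (va L x i / (c.2 i : ℕ)) : ℝ) =
          (rad (∏ i, va L x i / (c.2 i : ℕ)) : ℝ) := by
        rw [rad_prod univ (fun i => va L x i / (c.2 i : ℕ)) (fun i _ j _ hij =>
          hFam.cop _ (mem_image_of_mem _ hx) i j hij)]
        push_cast
        rfl
      rw [e1]
      refine le_trans ?_ g5
      have e2 : rad (∏ i, va L x i / (c.2 i : ℕ)) ≤ radv L x := by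
        unfold radv
        apply rad_mono
        · apply prod_dvd_prod_of_dvd
          intro i _
          exact Nat.div_dvd_of_dvd (hδd x hx i)
        · exact prod_ne_zero_iff.2 fun i _ => (hval x hx i).ne'
      exact_mod_cast e2
    · by_contra hcon
      push Not at hcon
      have e1 : (univ.filter fun i =>
          ((va L x i / (c.2 i : ℕ) : ℕ) : ℝ) < Y ^ E) = univ := by
        apply filter_true_of_mem
        intro i _
        exact hcon i
      rw [e1, card_univ, Fintype.card_fin] at hlow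
      omega
    · have e1 : ((univ.filter fun i =>
          ((va L x i / (c.2 i : ℕ) : ℕ) : ℝ) < Y ^ E).card : ℝ) ≤ m := by exact_mod_cast hlow
      have e2 : (1 - κ) * ((univ.filter fun i =>
          ((va L x i / (c.2 i : ℕ) : ℕ) : ℝ) < Y ^ E).card : ℝ) ≤ (1 - κ) * m :=
        mul_le_mul_of_nonneg_left e1 (by linarith)
      push_cast
      linarith
  have h1 : (T.card : ℝ) ≤ ∑ c, ((cl c).card : ℝ) := by
    exact_mod_cast (card_le_card hcov).trans card_biUnion_le
  calc (T.card : ℝ) ≤ ∑ c, ((cl c).card : ℝ) := h1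
    _ ≤ ∑ _c : Finset (Fin q) × (Fin q → Fin (Δ + 1)), D * Y ^ (κ + η) :=
        sum_le_sum fun c _ => hclb c
    _ = _ := by
        rw [sum_const, card_univ, nsmul_eq_mul]
        ring

end Pool.Agent.N745.NT
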