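import Pool.Agent.N745.T1.Levels

/-!
# Levels of dustiness for tuples
-/

set_option autoImplicit false

namespace Pool.Agent.N745.NT

open Finset Pool.Agent.Y913 Pool.Agent.H785R2.ABC Pool.Agent.N745.T1

/-- the relations between two consecutive levels -/
structure StepN (η : ℝ) (s M : ℕ) (γ : ℝ) (M' : ℕ) (γ' : ℝ) (w t0 : ℕ) : Prop where
  hM' : 1 ≤ M'
  hγ' : 0 < γ'
  hγγ : γ' ≤ γ / 2
  hmono : (M : ℝ) * (γ / γ' + 1) ≤ M'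
  small : γ' + 2 * γ' * (nb γ : ℝ) ^ 2 ≤ η
  hw : 2 * (M : ℝ) ≤ γ' * w
  hKK : 2 * KK (nb γ) (nb γ * w) + s ≤ M'
  ht0 : 3 ≤ γ' * t0
  htM : t0 ≤ M'

theorem exists_stepN (η : ℝ) (hη : 0 < η) (s M : ℕ) (γ : ℝ) (hγ : 0 < γ) :
    ∃ (M' : ℕ) (γ' : ℝ) (w t0 : ℕ), StepN η s M γ M' γ' w t0 := by
  obtain ⟨M', γ', w, t0, h⟩ := exists_step η hη M γ hγ
  refine ⟨M' + s, γ', w, t0, ⟨?_, h.hγ', h.hγγ, ?_, ?_, h.hw, ?_, h.ht0, ?_⟩⟩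
  · have := h.hM'
    omega
  · refine h.hmono.trans ?_
    push_cast
    have : (0 : ℝ) ≤ (s : ℝ) := Nat.cast_nonneg _
    linarith
  · refine le_trans ?_ h.small
    have h1 := h.hγ'
    have h2 : ((nb γ : ℕ) : ℝ) ^ 2 ≤ ((2 * nb γ : ℕ) : ℝ) ^ 2 := by
      apply pow_le_pow_left₀ (Nat.cast_nonneg _)
      exact_mod_cast (by omega : nb γ ≤ 2 * nb γ)
    have h3 := mul_le_mul_of_nonneg_left h2 (by linarith : (0 : ℝ) ≤ 2 * γ')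
    linarith
  · have := h.hKK1
    omega
  · have := h.htM
    omega

/-- a sequence of levels -/
theorem exists_levelsN (η : ℝ) (hη : 0 < η) (s : ℕ) :
    ∃ (M : ℕ → ℕ) (γ : ℕ → ℝ) (w t0 : ℕ → ℕ),
    ∀ j, (1 ≤ M j ∧ 0 < γ j ∧ γ j ≤ 1) ∧
      StepN η s (M j) (γ j) (M (j + 1)) (γ (j + 1)) (w j) (t0 j) := by
  have h : ∀ x : {x : ℕ × ℝ // 0 < x.2}, ∃ y : {x : ℕ × ℝ // 0 < x.2}, ∃ w t0 : ℕ,
      StepN η s x.1.1 x.1.2 y.1.1 y.1.2 w t0 := by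
    rintro ⟨⟨M, γ⟩, hγ⟩
    obtain ⟨M', γ', w, t0, hs⟩ := exists_stepN η hη s M γ hγ
    exact ⟨⟨(M', γ'), hs.hγ'⟩, w, t0, hs⟩
  choose f w t0 hf using h
  let x0 : {x : ℕ × ℝ // 0 < x.2} := ⟨(1, 1), one_pos⟩
  let a : ℕ → {x : ℕ × ℝ // 0 < x.2} := fun j => f^[j] x0
  have ha : ∀ j, a (j + 1) = f (a j) := fun j => Function.iterate_succ_apply' f j x0
  have hstep : ∀ j, StepN η s (a j).1.1 (a j).1.2 (a (j + 1)).1.1 (a (j + 1)).1.2 (w (a j))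
      (t0 (a j)) := by
    intro j
    rw [ha j]
    exact hf (a j)
  refine ⟨fun j => (a j).1.1, fun j => (a j).1.2, fun j => w (a j), fun j => t0 (a j), ?_⟩
  intro j
  refine ⟨?_, hstep j⟩
  induction j with
  | zero => exact ⟨le_rfl, one_pos, le_rfl⟩
  | succ j ih =>
    have h := hstep j
    refine ⟨h.hM', h.hγ', ?_⟩
    have h3 : (a j).1.2 ≤ 1 := ih.2.2
    have h4 := h.hγγ
    show (a (j + 1)).1.2 ≤ 1
    linarith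

/-- dustiness decreases -/
theorem dusty_of_leN {η Y : ℝ} (hY : 1 ≤ Y) {s : ℕ} {M : ℕ → ℕ} {γ : ℕ → ℝ} {w t0 : ℕ → ℕ}
    (h : ∀ j, (1 ≤ M j ∧ 0 < γ j ∧ γ j ≤ 1) ∧
      StepN η s (M j) (γ j) (M (j + 1)) (γ (j + 1)) (w j) (t0 j)) {m : ℕ} {i j : ℕ} (hij : i ≤ j)
    (hd : Dusty Y (γ j) (M j) m) : Dusty Y (γ i) (M i) m := by
  induction j with
  | zero =>
    obtain rfl : i = 0 := by omega
    exact hd
  | succ j ih =>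
    rcases Nat.lt_or_ge j i with h1 | h1
    · obtain rfl : i = j + 1 := by omega
      exact hd
    · apply ih h1
      obtain ⟨-, hs⟩ := h j
      exact hd.mono hY hs.hγ' hs.hγγ hs.hmono

/-- one of the `m + 1` levels is good for `m` integers -/
theorem exists_goodN {η Y : ℝ} (hY : 1 ≤ Y) {s : ℕ} {M : ℕ → ℕ} {γ : ℕ → ℝ} {w t0 : ℕ → ℕ}
    (h : ∀ j, (1 ≤ M j ∧ 0 < γ j ∧ γ j ≤ 1) ∧
      StepN η s (M j) (γ j) (M (j + 1)) (γ (j + 1)) (w j) (t0 j)) {n : ℕ} (m : Fin n → ℕ) :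
    ∃ j : Fin (n + 1), ∀ i : Fin n, Dusty Y (γ (j + 1)) (M (j + 1)) (m i) ∨
      ¬ Dusty Y (γ j) (M j) (m i) := by
  by_contra hcon
  push Not at hcon
  choose f hf using hcon
  obtain ⟨j, j', hne, hjj⟩ := Fintype.exists_ne_map_eq_of_card_lt f (by simp)
  wlog hlt : j < j' generalizing j j'
  · exact this j' j (Ne.symm hne) hjj.symm (lt_of_le_of_ne (not_lt.1 hlt) (Ne.symm hne))
  have h1 := (hf j').2
  rw [← hjj] at h1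
  exact (hf j).1 (dusty_of_leN hY h (show (j : ℕ) + 1 ≤ (j' : ℕ) from hlt) h1)

/-- reduction to a fixed divisor of the member `r` -/
theorem dust_fiberN {m : ℕ} {T : Finset (Fin m → ℕ)} {Y γ : ℝ} {M : ℕ} {r : Fin m} (hY : 1 ≤ Y)
    (hγ : 0 ≤ γ) (hT : ∀ t ∈ T, Dusty Y γ M (t r)) {B : ℝ} (hB : 0 ≤ B)
    (h : ∀ ρ : ℕ, Y ^ (γ / 2) < ρ → (ρ : ℝ) ≤ Y ^ γ →
      ((T.filter fun t => ρ ^ M ∣ t r).card : ℝ) ≤ B) :
    (T.card : ℝ) ≤ Y ^ γ * B := by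
  classical
  set I : Finset ℕ := (Icc 1 ⌊Y ^ γ⌋₊).filter fun ρ : ℕ => Y ^ (γ / 2) < (ρ : ℝ) with hI
  have hIcard : (I.card : ℝ) ≤ Y ^ γ := by
    have h1 : I.card ≤ ⌊Y ^ γ⌋₊ := by
      calc I.card ≤ (Icc 1 ⌊Y ^ γ⌋₊).card := card_filter_le _ _
        _ = ⌊Y ^ γ⌋₊ := by rw [Nat.card_Icc]; omega
    calc (I.card : ℝ) ≤ (⌊Y ^ γ⌋₊ : ℝ) := by exact_mod_cast h1
      _ ≤ Y ^ γ := Nat.floor_le (by positivity)
  have hsub : T ⊆ I.biUnion fun ρ => T.filter fun t => ρ ^ M ∣ t r := by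
    intro t ht
    obtain ⟨ρ, h1, h2, h3⟩ := hT t ht
    rw [mem_biUnion]
    refine ⟨ρ, ?_, mem_filter.2 ⟨ht, h1⟩⟩
    rw [hI, mem_filter, mem_Icc]
    refine ⟨⟨?_, Nat.le_floor h3⟩, h2⟩
    have h4 : (1 : ℝ) ≤ Y ^ (γ / 2) := Real.one_le_rpow hY (by linarith)
    have h5 : (1 : ℝ) < ρ := lt_of_le_of_lt h4 h2
    have h6 : 1 < ρ := by exact_mod_cast h5
    omega
  have h1 : (T.card : ℝ) ≤ ∑ ρ ∈ I, ((T.filter fun t => ρ ^ M ∣ t r).card : ℝ) := by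
    have h2 := (card_le_card hsub).trans card_biUnion_le
    exact_mod_cast h2
  refine h1.trans ?_
  calc ∑ ρ ∈ I, ((T.filter fun t => ρ ^ M ∣ t r).card : ℝ) ≤ ∑ _ρ ∈ I, B := by
        apply sum_le_sum
        intro ρ hρ
        rw [hI, mem_filter, mem_Icc] at hρ
        exact h ρ hρ.2 ((Nat.le_floor_iff (by positivity)).1 hρ.1.2)
    _ = (I.card : ℝ) * B := by rw [sum_const, nsmul_eq_mul]
    _ ≤ Y ^ γ * B := mul_le_mul_of_nonneg_right hIcard hB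

end Pool.Agent.N745.NT
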