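import Pool.Agent.N745.NT.Ene

/-!
# Linear congruences between integers with small radicals
-/

set_option autoImplicit false

namespace Pool.Agent.N745.NT

open Finset Pool.Agent.H785R2.ABC Pool.Agent.H705R2.ABC

/-- fibre counting -/
theorem fiber_count {m : ℕ} (T : Finset (Fin m → ℕ)) (G : Finset (Fin m))
    (V : Fin m → Finset ℕ) (hV : ∀ t ∈ T, ∀ i, i ∉ G → t i ∈ V i) {B : ℝ}
    (hfib : ∀ T' : Finset (Fin m → ℕ), T' ⊆ T →
      (∀ t ∈ T', ∀ t' ∈ T', ∀ i, i ∉ G → t i = t' i) → (T'.card : ℝ) ≤ B) :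
    (T.card : ℝ) ≤ (∏ i ∈ Gᶜ, ((V i).card : ℝ)) * B := by
  classical
  set φ : (Fin m → ℕ) → (Fin m → ℕ) := fun t i => if i ∈ G then 0 else t i with hφ
  set W : Finset (Fin m → ℕ) := Fintype.piFinset fun i => if i ∈ G then {0} else V i with hW
  have hmaps : ∀ t ∈ T, φ t ∈ W := by
    intro t ht
    rw [hW, Fintype.mem_piFinset]
    intro i
    simp only [hφ]
    split_ifs with h
    · exact mem_singleton_self _
    · exact hV t ht i h
  have hWcard : (W.card : ℝ) = ∏ i ∈ Gᶜ, ((V i).card : ℝ) := by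
    rw [hW, Fintype.card_piFinset]
    push_cast
    rw [← prod_mul_prod_compl G]
    rw [prod_congr rfl (fun i hi => by rw [if_pos hi, card_singleton, Nat.cast_one] :
      ∀ i ∈ G, (((if i ∈ G then ({0} : Finset ℕ) else V i).card : ℕ) : ℝ) = 1), prod_const_one,
      one_mul]
    apply prod_congr rfl
    intro i hi
    rw [mem_compl] at hi
    rw [if_neg hi]
  rw [card_eq_sum_card_fiberwise (f := φ) (t := W) (fun t ht => mem_coe.2 (hmaps t (mem_coe.1 ht)))]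
  push_cast
  rw [← hWcard]
  calc ∑ w ∈ W, ((T.filter fun t => φ t = w).card : ℝ) ≤ ∑ _w ∈ W, B := by
        apply sum_le_sum
        intro w _
        apply hfib _ (filter_subset _ _)
        intro t ht t' ht' i hi
        have h1 := congrFun (mem_filter.1 ht).2 i
        have h2 := congrFun (mem_filter.1 ht').2 i
        simp only [hφ, if_neg hi] at h1 h2
        rw [h1, h2]
    _ = (W.card : ℝ) * B := by rw [sum_const, nsmul_eq_mul]

/-- dividing a congruence by a bounded factor -/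
theorem dvd_quot {F u : ℕ} (hF : 1 ≤ F) {d : ℤ} (h : (F : ℤ) ∣ (u : ℤ) * d) :
    ((F / Nat.gcd F u : ℕ) : ℤ) ∣ d := by
  have hg : 0 < Nat.gcd F u := Nat.gcd_pos_of_pos_left _ hF
  have h1 : F / Nat.gcd F u ∣ d.natAbs := by
    have h2 : F ∣ u * d.natAbs := by
      have := Int.natAbs_dvd_natAbs.2 h
      rwa [Int.natAbs_natCast, Int.natAbs_mul, Int.natAbs_natCast] at this
    have h3 : F / Nat.gcd F u ∣ (u / Nat.gcd F u) * d.natAbs := by
      have e1 : F = Nat.gcd F u * (F / Nat.gcd F u) := (Nat.mul_div_cancel' (Nat.gcd_dvd_left F u)).symm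
      have e2 : u = Nat.gcd F u * (u / Nat.gcd F u) := (Nat.mul_div_cancel' (Nat.gcd_dvd_right F u)).symm
      have h4 : Nat.gcd F u * (F / Nat.gcd F u) ∣ Nat.gcd F u * ((u / Nat.gcd F u) * d.natAbs) := by
        rw [← e1, ← mul_assoc, ← e2]
        exact h2
      exact Nat.dvd_of_mul_dvd_mul_left hg h4
    exact (Nat.coprime_div_gcd_div_gcd hg).dvd_of_dvd_mul_left h3
  exact Int.natCast_dvd.2 h1

/-- energy of an affine map modulo `F` -/
theorem energy_lin (hF : Basics) (hA4 : StmtA4) (hJ : StmtJ) (e : ℝ) (he : 0 < e) :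
    ∃ D : ℝ, 0 < D ∧ ∀ (Z F U : ℕ) (R : ℝ) (A : Finset ℕ) (v N : ℤ), 1 ≤ Z → 1 ≤ R → 1 ≤ F →
      F ≤ Z → v ≠ 0 → v.natAbs ≤ U → R ^ ((3 : ℝ) / 2) ≤ 4 * F →
      (∀ n ∈ A, 1 ≤ n ∧ n ≤ Z ∧ (rad n : ℝ) ≤ R ∧ n.Coprime F) →
      (((A ×ˢ A).filter fun t => (N + v * (t.1 : ℤ)) % F = (N + v * (t.2 : ℤ)) % F).card : ℝ) ≤
        D * (Z : ℝ) ^ e * ((1 + 4 * U) * R) := by
  classical
  obtain ⟨D, hD, h⟩ := energy hF hA4 hJ e he
  refine ⟨D, hD, ?_⟩
  intro Z F U R A v N hZ hR hF1 hFZ hv hvU hRF hA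
  have hg : 0 < Nat.gcd F v.natAbs := Nat.gcd_pos_of_pos_left _ hF1
  obtain ⟨F', hF'⟩ : ∃ F', F' = F / Nat.gcd F v.natAbs := ⟨_, rfl⟩
  have hdvd : F' ∣ F := hF' ▸ Nat.div_dvd_of_dvd (Nat.gcd_dvd_left _ _)
  have hF'1 : 1 ≤ F' := Nat.pos_of_dvd_of_pos hdvd hF1
  have hF'F : F ≤ U * F' := by
    have e1 : F = Nat.gcd F v.natAbs * F' := by
      rw [hF']
      exact (Nat.mul_div_cancel' (Nat.gcd_dvd_left F _)).symm
    have e2 : Nat.gcd F v.natAbs ≤ U :=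
      (Nat.gcd_le_right _ (Int.natAbs_pos.2 hv)).trans hvU
    calc F = Nat.gcd F v.natAbs * F' := e1
      _ ≤ U * F' := Nat.mul_le_mul_right _ e2
  have hsub : ((A ×ˢ A).filter fun t => (N + v * (t.1 : ℤ)) % F = (N + v * (t.2 : ℤ)) % F) ⊆
      (A ×ˢ A).filter fun t => (t.1 : ℤ) % F' = (t.2 : ℤ) % F' := by
    intro t ht
    rw [mem_filter] at ht ⊢
    refine ⟨ht.1, ?_⟩
    have h1 : (N + v * (t.1 : ℤ)) ≡ (N + v * (t.2 : ℤ)) [ZMOD (F : ℤ)] := ht.2
    have h2 : (F : ℤ) ∣ v * ((t.2 : ℤ) - t.1) := by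
      have := h1.dvd
      have e1 : N + v * (t.2 : ℤ) - (N + v * (t.1 : ℤ)) = v * ((t.2 : ℤ) - t.1) := by ring
      rwa [e1] at this
    have h3 : (F : ℤ) ∣ (v.natAbs : ℤ) * ((t.2 : ℤ) - t.1) := by
      rcases Int.natAbs_eq v with h4 | h4
      · rw [← h4]; exact h2
      · have : (v.natAbs : ℤ) = -v := by omega
        rw [this, neg_mul]
        exact (dvd_neg).2 h2
    have h4 := dvd_quot hF1 h3
    rw [← hF'] at h4
    exact (Int.modEq_iff_dvd.2 h4)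
  have h1 : (((A ×ˢ A).filter fun t => (t.1 : ℤ) % F' = (t.2 : ℤ) % F').card : ℝ) ≤
      D * (Z : ℝ) ^ e * (R * (1 + R ^ ((3 : ℝ) / 2) / F')) :=
    h Z F' R A hZ hR hF'1 ((Nat.le_of_dvd hF1 hdvd).trans hFZ)
      (fun n hn => by
        obtain ⟨g1, g2, g3, g4⟩ := hA n hn
        exact ⟨g1, g2, g3, Nat.Coprime.coprime_dvd_right hdvd g4⟩)
  have hF'R : (0 : ℝ) < F' := by exact_mod_cast hF'1
  have h2 : R ^ ((3 : ℝ) / 2) / F' ≤ 4 * U := by
    rw [div_le_iff₀ hF'R]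
    refine hRF.trans ?_
    have : (F : ℝ) ≤ U * F' := by exact_mod_cast hF'F
    linarith
  calc (((A ×ˢ A).filter fun t => (N + v * (t.1 : ℤ)) % F = (N + v * (t.2 : ℤ)) % F).card : ℝ)
      ≤ (((A ×ˢ A).filter fun t => (t.1 : ℤ) % F' = (t.2 : ℤ) % F').card : ℝ) := by
        exact_mod_cast card_le_card hsub
    _ ≤ D * (Z : ℝ) ^ e * (R * (1 + R ^ ((3 : ℝ) / 2) / F')) := h1
    _ ≤ D * (Z : ℝ) ^ e * ((1 + 4 * U) * R) := by
        apply mul_le_mul_of_nonneg_left _ (by positivity)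
        have : R * (1 + R ^ ((3 : ℝ) / 2) / F') ≤ R * (1 + 4 * U) :=
          mul_le_mul_of_nonneg_left (by linarith) (by linarith)
        linarith

/-- the tuples we count -/
structure Tup {m : ℕ} (v : Fin m → ℤ) (N : ℤ) (Z : ℕ) (t : Fin m → ℕ) : Prop where
  pos : ∀ i, 1 ≤ t i
  le : ∀ i, t i ≤ Z
  cop : ∀ i j, i ≠ j → (t i).Coprime (t j)
  sum : ∑ i, v i * (t i : ℤ) = N

/-- the difference of two tuples which agree outside three places -/
theorem Tup.diff {m : ℕ} {v : Fin m → ℤ} {N : ℤ} {Z : ℕ} {t t' : Fin m → ℕ}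
    (h : Tup v N Z t) (h' : Tup v N Z t') (G : Finset (Fin m)) (hG : ∀ i, i ∉ G → t i = t' i) :
    ∑ i ∈ G, v i * ((t i : ℤ) - t' i) = 0 := by
  have h1 : ∑ i, v i * ((t i : ℤ) - t' i) = 0 := by
    have e1 : ∑ i, v i * ((t i : ℤ) - t' i) = ∑ i, v i * (t i : ℤ) - ∑ i, v i * (t' i : ℤ) := by
      rw [← sum_sub_distrib]
      exact sum_congr rfl fun i _ => by ring
    rw [e1, h.sum, h'.sum, sub_self]
  rw [← h1]
  apply sum_subset (subset_univ G)
  intro i _ hi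
  rw [hG i hi, sub_self, mul_zero]

/-- **one member divisible by `F`, two free members** -/
theorem bl1 (hF : Basics) (hA4 : StmtA4) (hJ : StmtJ) (e : ℝ) (he : 0 < e) :
    ∃ D : ℝ, 0 < D ∧ ∀ (m Z F U : ℕ) (v : Fin m → ℤ) (N : ℤ) (R : Fin m → ℝ)
      (T : Finset (Fin m → ℕ)) (a b c : Fin m), 1 ≤ Z → 1 ≤ F → (∀ i, 1 ≤ R i) →
      (∀ i, v i ≠ 0 ∧ (v i).natAbs ≤ U) → (∀ i, (R i) ^ ((3 : ℝ) / 2) ≤ 4 * F) →
      a ≠ b → a ≠ c → b ≠ c →
      (∀ t ∈ T, Tup v N Z t ∧ (∀ i, (rad (t i) : ℝ) ≤ R i) ∧ F ∣ t c) →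
      (∀ t ∈ T, ∀ t' ∈ T, ∀ i, i ∉ ({a, b, c} : Finset (Fin m)) → t i = t' i) →
      (T.card : ℝ) ≤ D * (Z : ℝ) ^ e * ((1 + 4 * U) * (R a * R b) ^ ((1 : ℝ) / 2)) := by
  classical
  obtain ⟨D, hD, h⟩ := energy_lin hF hA4 hJ e he
  refine ⟨D, hD, ?_⟩
  intro m Z F U v N R T a b c hZ hF1 hR hv hRF hab hac hbc hT hfix
  rcases T.eq_empty_or_nonempty with h0 | ⟨t0, ht0⟩
  · rw [h0, card_empty, Nat.cast_zero]
    have := hR a
    have := hR b
    positivity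
  have hFZ : F ≤ Z := by
    obtain ⟨g1, -, g3⟩ := hT t0 ht0
    exact (Nat.le_of_dvd (g1.pos c) g3).trans (g1.le c)
  have hsum3 : ∀ t ∈ T, v a * ((t a : ℤ) - t0 a) + (v b * ((t b : ℤ) - t0 b) +
      v c * ((t c : ℤ) - t0 c)) = 0 := by
    intro t ht
    have h1 := (hT t ht).1.diff (hT t0 ht0).1 {a, b, c} (fun i hi => hfix t ht t0 ht0 i hi)
    rw [sum_insert (by simp [hab, hac]), sum_insert (by simp [hbc]), sum_singleton] at h1
    exact h1
  set P := T.image fun t => t a with hP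
  set Q := T.image fun t => t b with hQ
  set N' : ℤ := v a * t0 a + v b * t0 b with hN'
  set κP : ℕ → ℤ := fun n => (0 + v a * (n : ℤ)) % (F : ℤ) with hκP
  set κQ : ℕ → ℤ := fun n => (N' + (-v b) * (n : ℤ)) % (F : ℤ) with hκQ
  have hcard : T.card ≤ ((P ×ˢ Q).filter fun t => κP t.1 = κQ t.2).card := by
    have h1 : (T.image fun t => (t a, t b)).card = T.card := by
      apply card_image_of_injOn
      intro t ht t' ht' htt
      simp only [Prod.mk.injEq] at htt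
      have g1 := hsum3 t ht
      have g2 := hsum3 t' ht'
      have g3 : v c * ((t c : ℤ) - t' c) = 0 := by
        rw [htt.1, htt.2] at g1
        linear_combination g1 - g2
      rcases mul_eq_zero.1 g3 with g4 | g4
      · exact absurd g4 (hv c).1
      have g5 : t c = t' c := by
        have : (t c : ℤ) = t' c := by linarith
        exact_mod_cast this
      funext i
      by_cases hi : i ∈ ({a, b, c} : Finset (Fin m))
      · rw [mem_insert, mem_insert, mem_singleton] at hi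
        rcases hi with rfl | rfl | rfl
        · exact htt.1
        · exact htt.2
        · exact g5
      · exact hfix t ht t' ht' i hi
    rw [← h1]
    apply card_le_card
    intro x hx
    obtain ⟨t, ht, rfl⟩ := mem_image.1 hx
    rw [mem_filter, mem_product]
    refine ⟨⟨mem_image_of_mem _ ht, mem_image_of_mem _ ht⟩, ?_⟩
    have g1 := hsum3 t ht
    have g2 : (F : ℤ) ∣ v c * ((t c : ℤ) - t0 c) := by
      apply Dvd.dvd.mul_left
      have g3 : (F : ℤ) ∣ (t c : ℤ) := Int.natCast_dvd_natCast.2 (hT t ht).2.2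
      have g4 : (F : ℤ) ∣ (t0 c : ℤ) := Int.natCast_dvd_natCast.2 (hT t0 ht0).2.2
      exact dvd_sub g3 g4
    show (0 + v a * (t a : ℤ)) ≡ (N' + (-v b) * (t b : ℤ)) [ZMOD (F : ℤ)]
    apply Int.modEq_iff_dvd.2
    have e1 : N' + (-v b) * (t b : ℤ) - (0 + v a * (t a : ℤ)) = v c * ((t c : ℤ) - t0 c) := by
      rw [hN']
      linear_combination (-1 : ℤ) * g1
    rw [e1]
    exact g2
  have hcopF : ∀ t ∈ T, ∀ i, i ≠ c → (t i).Coprime F := by
    intro t ht i hi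
    obtain ⟨g1, -, g3⟩ := hT t ht
    exact Nat.Coprime.coprime_dvd_right g3 (g1.cop i c hi)
  set K : ℝ := D * (Z : ℝ) ^ e * (1 + 4 * U) with hK
  have hK0 : 0 ≤ K := by rw [hK]; positivity
  have hEP : ((((P ×ˢ P).filter fun t => κP t.1 = κP t.2).card : ℕ) : ℝ) ≤ K * R a := by
    have := h Z F U (R a) P (v a) 0 hZ (hR a) hF1 hFZ (hv a).1 (hv a).2 (hRF a) (by
      intro n hn
      obtain ⟨t, ht, rfl⟩ := mem_image.1 hn
      obtain ⟨g1, g2, -⟩ := hT t ht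
      exact ⟨g1.pos a, g1.le a, g2 a, hcopF t ht a hac⟩)
    refine this.trans (le_of_eq ?_)
    rw [hK]; ring
  have hEQ : ((((Q ×ˢ Q).filter fun t => κQ t.1 = κQ t.2).card : ℕ) : ℝ) ≤ K * R b := by
    have := h Z F U (R b) Q (-v b) N' hZ (hR b) hF1 hFZ (neg_ne_zero.2 (hv b).1)
      (by rw [Int.natAbs_neg]; exact (hv b).2) (hRF b) (by
      intro n hn
      obtain ⟨t, ht, rfl⟩ := mem_image.1 hn
      obtain ⟨g1, g2, -⟩ := hT t ht
      exact ⟨g1.pos b, g1.le b, g2 b, hcopF t ht b hbc⟩)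
    refine this.trans (le_of_eq ?_)
    rw [hK]; ring
  have hcs := Est.cs P Q κP κQ
  have hRa := hR a
  have hRb := hR b
  have hsq : (T.card : ℝ) ^ 2 ≤ (K * (R a * R b) ^ ((1 : ℝ) / 2)) ^ 2 := by
    have h1 : (T.card : ℝ) ^ 2 ≤ (((P ×ˢ Q).filter fun t => κP t.1 = κQ t.2).card : ℝ) ^ 2 := by
      apply pow_le_pow_left₀ (Nat.cast_nonneg _)
      exact_mod_cast hcard
    have h2 : ((R a * R b) ^ ((1 : ℝ) / 2)) ^ 2 = R a * R b := by
      rw [← Real.rpow_natCast, ← Real.rpow_mul (by positivity)]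
      norm_num
    calc _ ≤ _ := h1
      _ ≤ _ := hcs
      _ ≤ (K * R a) * (K * R b) := mul_le_mul hEP hEQ (Nat.cast_nonneg _) (by positivity)
      _ = _ := by rw [mul_pow, h2]; ring
  have := le_of_sq_le_sq hsq (by positivity)
  refine this.trans (le_of_eq ?_)
  rw [hK]; ring

/-- **one member divisible by `F`, one free member** -/
theorem bl1' (hF : Basics) (hA4 : StmtA4) (hJ : StmtJ) (e : ℝ) (he : 0 < e) :
    ∃ D : ℝ, 0 < D ∧ ∀ (m Z F U : ℕ) (v : Fin m → ℤ) (N : ℤ) (R : Fin m → ℝ)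
      (T : Finset (Fin m → ℕ)) (a c : Fin m), 1 ≤ Z → 1 ≤ F → (∀ i, 1 ≤ R i) →
      (∀ i, v i ≠ 0 ∧ (v i).natAbs ≤ U) → (∀ i, (R i) ^ ((3 : ℝ) / 2) ≤ 4 * F) → a ≠ c →
      (∀ t ∈ T, Tup v N Z t ∧ (∀ i, (rad (t i) : ℝ) ≤ R i) ∧ F ∣ t c) →
      (∀ t ∈ T, ∀ t' ∈ T, ∀ i, i ∉ ({a, c} : Finset (Fin m)) → t i = t' i) →
      (T.card : ℝ) ≤ (D * (Z : ℝ) ^ e * ((1 + 4 * U) * R a)) ^ ((1 : ℝ) / 2) := by
  classical
  obtain ⟨D, hD, h⟩ := energy_lin hF hA4 hJ e he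
  refine ⟨D, hD, ?_⟩
  intro m Z F U v N R T a c hZ hF1 hR hv hRF hac hT hfix
  have hRa := hR a
  rcases T.eq_empty_or_nonempty with h0 | ⟨t0, ht0⟩
  · rw [h0, card_empty, Nat.cast_zero]
    positivity
  have hFZ : F ≤ Z := by
    obtain ⟨g1, -, g3⟩ := hT t0 ht0
    exact (Nat.le_of_dvd (g1.pos c) g3).trans (g1.le c)
  have hsum2 : ∀ t ∈ T, v a * ((t a : ℤ) - t0 a) + v c * ((t c : ℤ) - t0 c) = 0 := by
    intro t ht
    have h1 := (hT t ht).1.diff (hT t0 ht0).1 {a, c} (fun i hi => hfix t ht t0 ht0 i hi)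
    rw [sum_insert (by simp [hac]), sum_singleton] at h1
    exact h1
  set P := T.image fun t => t a with hP
  have hcard : T.card = P.card := by
    rw [hP]
    symm
    apply card_image_of_injOn
    intro t ht t' ht' htt
    simp only at htt
    have g1 := hsum2 t ht
    have g2 := hsum2 t' ht'
    have g3 : v c * ((t c : ℤ) - t' c) = 0 := by
      rw [htt] at g1
      linear_combination g1 - g2
    rcases mul_eq_zero.1 g3 with g4 | g4
    · exact absurd g4 (hv c).1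
    have g5 : t c = t' c := by
      have : (t c : ℤ) = t' c := by linarith
      exact_mod_cast this
    funext i
    by_cases hi : i ∈ ({a, c} : Finset (Fin m))
    · rw [mem_insert, mem_singleton] at hi
      rcases hi with rfl | rfl
      · exact htt
      · exact g5
    · exact hfix t ht t' ht' i hi
  have hall : ((P ×ˢ P).filter fun t => (0 + v a * (t.1 : ℤ)) % F = (0 + v a * (t.2 : ℤ)) % F) =
      P ×ˢ P := by
    apply filter_true_of_mem
    rintro ⟨x, y⟩ hxy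
    rw [mem_product] at hxy
    obtain ⟨t, ht, hx⟩ := mem_image.1 hxy.1
    obtain ⟨t', ht', hy⟩ := mem_image.1 hxy.2
    simp only at hx hy
    show (0 + v a * (x : ℤ)) ≡ (0 + v a * (y : ℤ)) [ZMOD (F : ℤ)]
    apply Int.modEq_iff_dvd.2
    have g1 := hsum2 t ht
    have g2 := hsum2 t' ht'
    have e1 : (0 + v a * (y : ℤ)) - (0 + v a * (x : ℤ)) = v c * ((t c : ℤ) - t' c) := by
      rw [← hx, ← hy]
      linear_combination g2 - g1
    rw [e1]
    apply Dvd.dvd.mul_left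
    exact dvd_sub (Int.natCast_dvd_natCast.2 (hT t ht).2.2)
      (Int.natCast_dvd_natCast.2 (hT t' ht').2.2)
  have hE := h Z F U (R a) P (v a) 0 hZ (hR a) hF1 hFZ (hv a).1 (hv a).2 (hRF a) (by
      intro n hn
      obtain ⟨t, ht, rfl⟩ := mem_image.1 hn
      obtain ⟨g1, g2, g3⟩ := hT t ht
      exact ⟨g1.pos a, g1.le a, g2 a, Nat.Coprime.coprime_dvd_right g3 (g1.cop a c hac)⟩)
  rw [hall, card_product] at hE
  rw [hcard]
  have h1 : ((P.card : ℝ)) ^ 2 ≤ D * (Z : ℝ) ^ e * ((1 + 4 * U) * R a) := by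
    rw [sq]
    exact_mod_cast hE
  calc (P.card : ℝ) = ((P.card : ℝ) ^ 2) ^ ((1 : ℝ) / 2) := by
        rw [← Real.rpow_natCast, ← Real.rpow_mul (Nat.cast_nonneg _)]
        norm_num
    _ ≤ _ := Real.rpow_le_rpow (by positivity) h1 (by norm_num)

end Pool.Agent.N745.NT
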