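import Pool.Agent.N745.NT.OneLevelQ
import Pool.Agent.N745.NT.Main
import Pool.Agent.N745.NT.Evt
import Pool.Agent.H705R2.ABC.PolyPf
import Pool.Agent.H705R2.ABC.Main

/-!
# Families of rank `r` of tuples of `q` coprime integers with a small product of radicals
-/

set_option autoImplicit false

namespace Pool.Agent.N745.NT

open Finset Pool.Agent.Y913 Pool.Agent.Y913.Nb Pool.Agent.H785R2.ABC Pool.Agent.H705R2.ABC
  Pool.Agent.N745.T1

/-- **the main bound for families** -/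
theorem mainQ_of (hF : Basics) (hA4 : StmtA4) (hJ : StmtJ) (q r : ℕ) (hr2 : 2 ≤ r)
    (hrq : r + 1 ≤ q) (U : ℕ) (κ : ℝ) (hκ0 : 0 ≤ κ) (hκ' : κ ≤ 1) (hκ1 : (r : ℝ) - 1 ≤ κ * q)
    (η : ℝ) (hη : 0 < η) :
    ∃ L : ℝ, 0 < L ∧ ∀ k : ℝ, 0 < k → ∃ D : ℝ, 0 < D ∧ ∀ (Y : ℝ) (Z : ℕ)
      (T : Finset (Fin q → ℕ)), 1 ≤ Y → (Z : ℝ) ≤ Y ^ k → Fam r U Z T →
      (∀ t ∈ T, (∏ i, (rad (t i) : ℝ)) ≤ Y ∧ (∃ i, Y ^ L ≤ (t i : ℝ)) ∧
        (1 - κ) * ((univ.filter fun i => (t i : ℝ) < Y ^ L).card : ℝ) ≤ (q : ℝ) - r) →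
      (T.card : ℝ) ≤ D * Y ^ (κ + η) := by
  classical
  have hη4 : 0 < η / 4 := by positivity
  obtain ⟨M, γ, w, t0, hlev⟩ := exists_levelsN (η / 4) hη4 U
  have hone := fun j : Fin (q + 1) => one_levelQ hF hA4 hJ (η / 4) hη4 U (M j) (hlev j).1.1 (γ j)
    (hlev j).1.2.1 (hlev j).1.2.2 (M (j + 1)) (γ (j + 1)) (w j) (t0 j) (hlev j).2
  choose C0 C δ hδ hone using hone
  set L : ℝ := ∑ j : Fin (q + 1), ((2 * M j * C j + 1 : ℕ) : ℝ) with hL
  have hLle : ∀ j : Fin (q + 1), ((2 * M j * C j + 1 : ℕ) : ℝ) ≤ L := fun j =>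
    single_le_sum (f := fun j : Fin (q + 1) => ((2 * M j * C j + 1 : ℕ) : ℝ))
      (fun i _ => Nat.cast_nonneg _) (mem_univ j)
  have hL0 : 0 < L := by
    have := hLle 0
    have h1 : (1 : ℝ) ≤ ((2 * M (0 : Fin (q + 1)) * C 0 + 1 : ℕ) : ℝ) := by
      push_cast
      have : (0 : ℝ) ≤ 2 * (M (0 : Fin (q + 1)) : ℝ) * C 0 := by positivity
      linarith
    linarith
  refine ⟨L, hL0, ?_⟩
  intro k hk
  obtain ⟨e, he⟩ : ∃ e : ℝ, e = η / (4 * (k * (r + 2))) := ⟨_, rfl⟩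
  have he0 : 0 < e := by rw [he]; positivity
  have hke : k * e * (r + 2) = η / 4 := by
    rw [he]
    field_simp
  choose D hD2 hbd using fun j => hone j e he0
  choose YA hYA hevA using fun j : Fin (q + 1) =>
    evA (C0 j) (nb (γ j)) (hlev j).2.hγ' hk
  choose YB hYB hevB using fun j : Fin (q + 1) => evB U (M j) (hlev j).1.1 (hδ j) hk
  choose YC hYC hevC using fun j : Fin (q + 1) => evC U (M j) (C j)
  set Y0 : ℝ := ∑ j : Fin (q + 1), (YA j + YB j + YC j) with hY0def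
  have hY0le : ∀ j, YA j + YB j + YC j ≤ Y0 := fun j =>
    single_le_sum (f := fun j : Fin (q + 1) => YA j + YB j + YC j) (fun i _ => by
      have := hYA i; have := hYB i; have := hYC i
      linarith) (mem_univ j)
  obtain ⟨Dp, hDp, hp⟩ := polylog_le 0 q hη4
  set DD : ℝ := ∑ j, (D j) ^ (r + 1 + 1) with hDD
  have hDD0 : ∀ j, (D j) ^ (r + 1 + 1) ≤ DD := fun j =>
    single_le_sum (f := fun j => (D j) ^ (r + 1 + 1)) (fun i _ => by
      have := hD2 i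
      positivity) (mem_univ j)
  have hDDpos : 0 < DD := lt_of_lt_of_le (by have := hD2 0; positivity) (hDD0 0)
  have hY00 : 0 < Y0 := by
    have h1 := hY0le 0
    have := hYA 0; have := hYB 0; have := hYC 0
    linarith
  refine ⟨(Y0 ^ k + 1) ^ q + (q + 1) * 4 ^ q * Dp * DD * 2 ^ q, by positivity, ?_⟩
  intro Y Z T hY hZ hFam hT
  have hYpos : (0 : ℝ) < Y := by linarith
  have hge1 : (1 : ℝ) ≤ Y ^ (κ + η) := Real.one_le_rpow hY (by linarith)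
  have hc1 : (0 : ℝ) ≤ (q + 1) * 4 ^ q * Dp * DD * 2 ^ q := by positivity
  rcases lt_or_ge Y Y0 with hsmall | hbig
  · -- bounded `Y`
    have h1 : T ⊆ Fintype.piFinset fun _ : Fin q => range (Z + 1) := by
      intro t ht
      rw [Fintype.mem_piFinset]
      intro i
      rw [mem_range]
      have := hFam.le t ht i
      omega
    have h2 := card_le_card h1
    rw [Fintype.card_piFinset] at h2
    simp only [card_range, prod_const, card_univ, Fintype.card_fin] at h2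
    have h3 : (Z : ℝ) ≤ Y0 ^ k := hZ.trans (Real.rpow_le_rpow hYpos.le hsmall.le hk.le)
    calc (T.card : ℝ) ≤ (((Z + 1) ^ q : ℕ) : ℝ) := by exact_mod_cast h2
      _ = ((Z : ℝ) + 1) ^ q := by push_cast; ring
      _ ≤ (Y0 ^ k + 1) ^ q := by gcongr
      _ ≤ ((Y0 ^ k + 1) ^ q + (q + 1) * 4 ^ q * Dp * DD * 2 ^ q) * 1 := by
          rw [mul_one]; linarith
      _ ≤ _ := by
          apply mul_le_mul_of_nonneg_left hge1 (by positivity)
  rcases T.eq_empty_or_nonempty with hTe | ⟨tt, htt⟩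
  · rw [hTe, card_empty, Nat.cast_zero]
    positivity
  have hZ1 : 1 ≤ Z := (hFam.pos tt htt ⟨0, by omega⟩).trans (hFam.le tt htt _)
  have hZR : (1 : ℝ) ≤ Z := by exact_mod_cast hZ1
  have hYj : ∀ j, YA j ≤ Y ∧ YB j ≤ Y ∧ YC j ≤ Y := by
    intro j
    have h1 := hY0le j
    have := hYA j; have := hYB j; have := hYC j
    refine ⟨by linarith, by linarith, by linarith⟩
  -- radicals
  have hradY : ∀ t ∈ T, ∀ i, (rad (t i) : ℝ) ≤ Y := by
    intro t ht i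
    refine le_trans ?_ (hT t ht).1
    have h1 : (rad (t i) : ℝ) = ∏ i' ∈ ({i} : Finset (Fin q)), (rad (t i') : ℝ) := by
      rw [prod_singleton]
    rw [h1]
    apply Finset.prod_le_prod_of_subset_of_one_le (subset_univ _)
    · intro i' _
      positivity
    · intro i' _ _
      exact_mod_cast rad_one_le _
  set Lg : ℕ := Nat.log 2 ⌊Y⌋₊ with hLg
  have hlogle : ∀ t ∈ T, ∀ i, Nat.log 2 (rad (t i)) < Lg + 1 := by
    intro t ht i
    have h1 : rad (t i) ≤ ⌊Y⌋₊ := Nat.le_floor (hradY t ht i)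
    have := Nat.log_mono_right (b := 2) h1
    omega
  -- the pieces
  let piece : (Fin (q + 1) × Finset (Fin q)) × (Finset (Fin q) × (Fin q → Fin (Lg + 1))) →
      Finset (Fin q → ℕ) := fun x => T.filter fun t =>
    ((∀ i ∈ x.1.2, Dusty Y (γ (x.1.1 + 1)) (M (x.1.1 + 1)) (t i)) ∧
      (∀ i ∉ x.1.2, ¬ Dusty Y (γ x.1.1) (M x.1.1) (t i))) ∧
    (Disjoint x.1.2 x.2.1 ∧ (∀ i ∈ x.2.1, (t i : ℝ) < Y ^ L) ∧
      (∀ i, i ∉ x.1.2 → i ∉ x.2.1 → Y ^ L ≤ (t i : ℝ))) ∧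
    (∀ i, Nat.log 2 (rad (t i)) = (x.2.2 i : ℕ)) ∧ (∃ u, u ∉ x.2.1)
  have hcov : T ⊆ univ.biUnion piece := by
    intro t ht
    obtain ⟨j, hj⟩ := exists_goodN hY hlev (fun i => t i)
    set S : Finset (Fin q) := univ.filter fun i => Dusty Y (γ (j + 1)) (M (j + 1)) (t i) with hS
    rw [mem_biUnion]
    refine ⟨((j, S), (univ.filter fun i => i ∉ S ∧ (t i : ℝ) < Y ^ L,
      fun i => ⟨Nat.log 2 (rad (t i)), hlogle t ht i⟩)), mem_univ _, ?_⟩
    rw [mem_filter]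
    refine ⟨ht, ⟨?_, ?_⟩, ⟨?_, ?_, ?_⟩, ?_, ?_⟩
    · intro i hi
      exact (mem_filter.1 hi).2
    · intro i hi
      have h1 : ¬ Dusty Y (γ (j + 1)) (M (j + 1)) (t i) := fun h2 =>
        hi (mem_filter.2 ⟨mem_univ _, h2⟩)
      exact (hj i).resolve_left h1
    · rw [disjoint_left]
      intro i hi hi'
      exact (mem_filter.1 hi').2.1 hi
    · intro i hi
      exact (mem_filter.1 hi).2.2
    · intro i hi1 hi2
      by_contra hcon
      exact hi2 (mem_filter.2 ⟨mem_univ _, hi1, not_le.1 hcon⟩)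
    · intro i
      rfl
    · obtain ⟨u, hu⟩ := (hT t ht).2.1
      refine ⟨u, ?_⟩
      intro hu'
      have := (mem_filter.1 hu').2.2
      linarith
  -- the bound for one piece
  set G : ℝ := DD * Y ^ (η / 4) * Y ^ (η / 4) * (2 ^ q * Y ^ κ) with hG
  have hG0 : 0 ≤ G := by rw [hG]; positivity
  have hpiece : ∀ x, ((piece x).card : ℝ) ≤ G := by
    rintro ⟨⟨j, S⟩, ⟨Λ, c⟩⟩
    rcases (piece ⟨⟨j, S⟩, ⟨Λ, c⟩⟩).eq_empty_or_nonempty with h0 | ⟨ts, hts⟩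
    · rw [h0, card_empty, Nat.cast_zero]
      exact hG0
    obtain ⟨hYa, hYb, hYc⟩ := hYj j
    have hmem : ∀ t ∈ piece ⟨⟨j, S⟩, ⟨Λ, c⟩⟩, t ∈ T ∧
        ((∀ i ∈ S, Dusty Y (γ (j + 1)) (M (j + 1)) (t i)) ∧
        (∀ i ∉ S, ¬ Dusty Y (γ j) (M j) (t i))) ∧
        (Disjoint S Λ ∧ (∀ i ∈ Λ, (t i : ℝ) < Y ^ L) ∧
        (∀ i, i ∉ S → i ∉ Λ → Y ^ L ≤ (t i : ℝ))) ∧
        (∀ i, Nat.log 2 (rad (t i)) = (c i : ℕ)) ∧ (∃ u, u ∉ Λ) := by
      intro t ht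
      exact mem_filter.1 ht
    obtain ⟨htsT, -, ⟨hSΛ, htsΛ, -⟩, htsc, huΛ⟩ := hmem ts hts
    set ρ : Fin q → ℝ := fun i => ((c i : ℕ) + 1 : ℕ) * Real.log 2 with hr
    have hexpr : ∀ i, Real.exp (ρ i) = 2 ^ ((c i : ℕ) + 1) := by
      intro i
      simp only [hr]
      rw [mul_comm, Real.exp_mul, Real.exp_log (by norm_num), Real.rpow_natCast]
    have hrad2 : ∀ i, Real.exp (ρ i) ≤ 2 * (rad (ts i) : ℝ) := by
      intro i
      rw [hexpr, pow_succ, mul_comm]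
      have h1 : 2 ^ (Nat.log 2 (rad (ts i))) ≤ rad (ts i) :=
        Nat.pow_log_le_self 2 (by have := rad_one_le (ts i); omega)
      rw [htsc i] at h1
      have h2 : (2 : ℝ) ^ ((c i : ℕ)) ≤ (rad (ts i) : ℝ) := by exact_mod_cast h1
      linarith
    have hr0 : ∀ i, 0 ≤ ρ i ∧ Real.exp (ρ i) ≤ 2 * Y := by
      intro i
      refine ⟨?_, (hrad2 i).trans ?_⟩
      · simp only [hr]
        have := Real.log_nonneg (by norm_num : (1 : ℝ) ≤ 2)
        positivity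
      · have := hradY ts htsT i
        linarith
    have hexpsum : Real.exp (∑ i, ρ i) ≤ 2 ^ q * Y := by
      rw [Real.exp_sum]
      calc ∏ i, Real.exp (ρ i) ≤ ∏ i, (2 * (rad (ts i) : ℝ)) :=
            prod_le_prod (fun i _ => (Real.exp_pos _).le) (fun i _ => hrad2 i)
        _ = 2 ^ q * ∏ i, (rad (ts i) : ℝ) := by
            rw [prod_mul_distrib, prod_const, card_univ, Fintype.card_fin]
        _ ≤ 2 ^ q * Y := by
            apply mul_le_mul_of_nonneg_left (hT ts htsT).1 (by positivity)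
    have hgΛ : (1 - κ) * (Λ.card : ℝ) ≤ (q : ℝ) - r := by
      refine le_trans ?_ (hT ts htsT).2.2
      apply mul_le_mul_of_nonneg_left _ (by linarith)
      exact_mod_cast card_le_card (fun i hi => mem_filter.2 ⟨mem_univ _, htsΛ i hi⟩)
    have hFamP : Fam r U Z (piece ⟨⟨j, S⟩, ⟨Λ, c⟩⟩) := hFam.mono (filter_subset _ _)
    have hradP : ∀ t ∈ piece ⟨⟨j, S⟩, ⟨Λ, c⟩⟩, ∀ i, (rad (t i) : ℝ) ≤ Real.exp (ρ i) := by
      intro t ht i
      obtain ⟨-, -, -, h2, -⟩ := hmem t ht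
      rw [hexpr, ← h2 i]
      have h3 := (Nat.lt_pow_succ_log_self (b := 2) (by norm_num) (rad (t i))).le
      exact_mod_cast h3
    have hb := hbd j q r Z U Y κ ρ S Λ (piece ⟨⟨j, S⟩, ⟨Λ, c⟩⟩) hr2 hrq hZ1 hY
      Nat.lt_two_pow_self (hevA j Y hYa Z hZ1 hZ) (hevB j Y hYb Z hZ1 hZ) hr0 hSΛ huΛ hκ1
      hgΛ hFamP hradP (by
        intro t ht
        obtain ⟨h1, ⟨h2, h3⟩, ⟨-, -, h4⟩, -, -⟩ := hmem t ht
        refine ⟨hradY t h1, h2, h3, ?_⟩
        intro i hi1 hi2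
        have h5 := h4 i hi1 hi2
        have h6 := hevC j Y hYc
        have h7 : Y ^ ((2 * M j * C j + 1 : ℕ) : ℝ) ≤ Y ^ L :=
          Real.rpow_le_rpow_of_exponent_le hY (hLle j)
        have h8 : ((2 * U * (⌊Y ^ (2 * M j)⌋₊ + 2) ^ C j : ℕ) : ℝ) < (t i : ℝ) :=
          lt_of_lt_of_le h6 (h7.trans h5)
        exact_mod_cast h8)
    refine hb.trans ?_
    rw [hG]
    have hDj := hD2 j
    have e1 : (D j * (Z : ℝ) ^ e) ^ (r + 1 + 1) ≤ DD * Y ^ (η / 4) := by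
      rw [mul_pow]
      have e2 : ((Z : ℝ) ^ e) ^ (r + 1 + 1) ≤ Y ^ (η / 4) := by
        calc ((Z : ℝ) ^ e) ^ (r + 1 + 1) ≤ ((Y ^ k) ^ e) ^ (r + 1 + 1) := by gcongr
          _ = Y ^ (η / 4) := by
            rw [← Real.rpow_mul hYpos.le, ← Real.rpow_natCast, ← Real.rpow_mul hYpos.le]
            congr 1
            push_cast
            rw [← hke]
            ring
      exact mul_le_mul (hDD0 j) e2 (by positivity) hDDpos.le
    have e3 : Real.exp (κ * ∑ i, ρ i) ≤ 2 ^ q * Y ^ κ := by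
      calc Real.exp (κ * ∑ i, ρ i) = (Real.exp (∑ i, ρ i)) ^ κ := by
            rw [← Real.exp_mul]
            congr 1
            ring
        _ ≤ (2 ^ q * Y) ^ κ :=
            Real.rpow_le_rpow (Real.exp_pos _).le hexpsum (by linarith)
        _ = (2 ^ q) ^ κ * Y ^ κ := Real.mul_rpow (by positivity) hYpos.le
        _ ≤ (2 ^ q) ^ (1 : ℝ) * Y ^ κ := by
            apply mul_le_mul_of_nonneg_right _ (by positivity)
            apply Real.rpow_le_rpow_of_exponent_le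
            · exact one_le_pow₀ (by norm_num)
            · linarith
        _ = 2 ^ q * Y ^ κ := by rw [Real.rpow_one]
    calc (D j * (Z : ℝ) ^ e) ^ (r + 1 + 1) * Y ^ (η / 4) * Real.exp (κ * ∑ i, ρ i)
        ≤ (DD * Y ^ (η / 4)) * Y ^ (η / 4) * (2 ^ q * Y ^ κ) := by
          gcongr
      _ = _ := by ring
  -- the number of pieces
  have hnum : ((Fintype.card ((Fin (q + 1) × Finset (Fin q)) ×
      (Finset (Fin q) × (Fin q → Fin (Lg + 1)))) : ℕ) : ℝ) ≤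
      (q + 1) * 4 ^ q * (Dp * Y ^ (η / 4)) := by
    rw [Fintype.card_prod, Fintype.card_prod, Fintype.card_prod, Fintype.card_finset,
      Fintype.card_fun, Fintype.card_fin, Fintype.card_fin, Fintype.card_fin]
    push_cast
    have h1 : (((Lg : ℝ) + 1)) ^ q ≤ Dp * Y ^ (η / 4) := by
      have hfl : 1 ≤ ⌊Y⌋₊ := Nat.le_floor (by exact_mod_cast hY)
      have h2 := hp ⌊Y⌋₊ hfl
      rw [Nat.zero_add, ← hLg] at h2
      calc (((Lg : ℝ) + 1)) ^ q ≤ (((2 * Lg + 1) ^ q : ℕ) : ℝ) := by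
            push_cast
            have : (0 : ℝ) ≤ (Lg : ℝ) := Nat.cast_nonneg _
            gcongr
            linarith
        _ ≤ Dp * (⌊Y⌋₊ : ℝ) ^ (η / 4) := h2
        _ ≤ Dp * Y ^ (η / 4) := by
            gcongr
            exact Nat.floor_le hYpos.le
    calc ((q : ℝ) + 1) * 2 ^ q * (2 ^ q * ((Lg : ℝ) + 1) ^ q)
        ≤ ((q : ℝ) + 1) * 2 ^ q * (2 ^ q * (Dp * Y ^ (η / 4))) := by gcongr
      _ = (q + 1) * 4 ^ q * (Dp * Y ^ (η / 4)) := by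
          have : (4 : ℝ) ^ q = 2 ^ q * 2 ^ q := by rw [← mul_pow]; norm_num
          rw [this]
          ring
  have h1 : (T.card : ℝ) ≤ ∑ x, ((piece x).card : ℝ) := by
    have h2 := (card_le_card hcov).trans card_biUnion_le
    exact_mod_cast h2
  calc (T.card : ℝ) ≤ ∑ x, ((piece x).card : ℝ) := h1
    _ ≤ ∑ _x : (Fin (q + 1) × Finset (Fin q)) × (Finset (Fin q) × (Fin q → Fin (Lg + 1))), G :=
        sum_le_sum fun x _ => hpiece x
    _ = (Fintype.card ((Fin (q + 1) × Finset (Fin q)) ×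
      (Finset (Fin q) × (Fin q → Fin (Lg + 1)))) : ℝ) * G := by
        rw [sum_const, card_univ, nsmul_eq_mul]
    _ ≤ ((q + 1) * 4 ^ q * (Dp * Y ^ (η / 4))) * G := mul_le_mul_of_nonneg_right hnum hG0
    _ = ((q + 1) * 4 ^ q * Dp * DD * 2 ^ q) *
        (Y ^ (η / 4) * Y ^ (η / 4) * Y ^ (η / 4) * Y ^ κ) := by
        rw [hG]
        ring
    _ = ((q + 1) * 4 ^ q * Dp * DD * 2 ^ q) * Y ^ (κ + 3 * (η / 4)) := by
        rw [← Real.rpow_add hYpos, ← Real.rpow_add hYpos, ← Real.rpow_add hYpos]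
        congr 2
        ring
    _ ≤ ((q + 1) * 4 ^ q * Dp * DD * 2 ^ q) * Y ^ (κ + η) := by
        apply mul_le_mul_of_nonneg_left _ hc1
        apply Real.rpow_le_rpow_of_exponent_le hY
        linarith
    _ ≤ _ := by
        apply mul_le_mul_of_nonneg_right _ (by positivity)
        have : (0 : ℝ) ≤ (Y0 ^ k + 1) ^ q := by positivity
        linarith

/-- **the main bound for families**, unconditionally -/
theorem mainQ (q r : ℕ) (hr2 : 2 ≤ r) (hrq : r + 1 ≤ q) (U : ℕ) (κ : ℝ) (hκ0 : 0 ≤ κ)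
    (hκ' : κ ≤ 1) (hκ1 : (r : ℝ) - 1 ≤ κ * q) (η : ℝ) (hη : 0 < η) :
    ∃ L : ℝ, 0 < L ∧ ∀ k : ℝ, 0 < k → ∃ D : ℝ, 0 < D ∧ ∀ (Y : ℝ) (Z : ℕ)
      (T : Finset (Fin q → ℕ)), 1 ≤ Y → (Z : ℝ) ≤ Y ^ k → Fam r U Z T →
      (∀ t ∈ T, (∏ i, (rad (t i) : ℝ)) ≤ Y ∧ (∃ i, Y ^ L ≤ (t i : ℝ)) ∧
        (1 - κ) * ((univ.filter fun i => (t i : ℝ) < Y ^ L).card : ℝ) ≤ (q : ℝ) - r) →
      (T.card : ℝ) ≤ D * Y ^ (κ + η) :=
  mainQ_of basics stmtA4' (stmtJ_of (stmtPwr_of (stmtTwo_of stmtD') stmtFac)) q r hr2 hrq U κ hκ0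
    hκ' hκ1 η hη

end Pool.Agent.N745.NT
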