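import Pool.Agent.N745.NT.Piece

/-!
# One level: the bound for all patterns
-/

set_option autoImplicit false

namespace Pool.Agent.N745.NT

open Finset Pool.Agent.Y913 Pool.Agent.Y913.Nb Pool.Agent.H785R2.ABC Pool.Agent.H705R2.ABC
  Pool.Agent.N745.T1

/-- **one level** -/
theorem one_level (hF : Basics) (hA4 : StmtA4) (hJ : StmtJ) (η : ℝ) (hη : 0 < η) (s M : ℕ)
    (hM : 1 ≤ M) (γ : ℝ) (hγ : 0 < γ) (hγ1 : γ ≤ 1) (M' : ℕ) (γ' : ℝ) (w t0 : ℕ)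
    (hs : StepN η s M γ M' γ' w t0) : ∃ (C0 C : ℕ) (δ : ℝ), 0 < δ ∧ ∀ e : ℝ, 0 < e →
      ∃ D : ℝ, 2 ≤ D ∧ ∀ (m Z U : ℕ) (Y g : ℝ) (v : Fin m → ℤ) (N : ℤ) (r : Fin m → ℝ)
      (S Λ : Finset (Fin m)) (T : Finset (Fin m → ℕ)), 2 ≤ m → 1 ≤ Z → 1 ≤ Y → U < 2 ^ s →
      (∀ i, v i ≠ 0 ∧ (v i).natAbs ≤ U) →
      ((C0 * (nb γ * Nat.log 2 Z) : ℕ) : ℝ) ≤ Y ^ γ' →
      ((Z + U + 2 * U * Z : ℕ) : ℝ) ≤ Real.exp ((⌊Y ^ (2 * M)⌋₊ : ℝ) ^ δ) →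
      (∀ i, 0 ≤ r i ∧ Real.exp (r i) ≤ 2 * Y) → Disjoint S Λ → (∃ u, u ∉ Λ) → 0 ≤ g →
      g ≤ 3 / 4 → g * m ≤ 2 → g * Λ.card ≤ 1 → Pc v N Z Y r T →
      (∀ t ∈ T, (∀ i, (rad (t i) : ℝ) ≤ Y) ∧ (∀ i ∈ S, Dusty Y γ' M' (t i)) ∧
        (∀ i ∉ S, ¬ Dusty Y γ M (t i)) ∧
        (∀ i, i ∉ S → i ∉ Λ → 2 * U * (⌊Y ^ (2 * M)⌋₊ + 2) ^ C < t i)) →
      (T.card : ℝ) ≤ (D * (Z : ℝ) ^ e) ^ (m + 1) * Y ^ η * Real.exp ((1 - g) * ∑ i, r i) := by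
  classical
  obtain ⟨C0, h1a⟩ := opt1a (nb γ) w
  obtain ⟨C, δ, hδ, h1b⟩ := opt1b (nb γ) (η / (2 * M)) (by positivity)
  refine ⟨C0, C, δ, hδ, ?_⟩
  intro e he
  obtain ⟨D4, hD4, h4⟩ := hA4 e he
  obtain ⟨Dp, hDp, hp⟩ := polylog_le 0 (nb γ) he
  obtain ⟨D2, hD2, h2⟩ := opt2 hF hA4 hJ e he
  obtain ⟨D3, hD3, h3⟩ := opt3 hF hA4 hJ e he
  set D : ℝ := 2 + D4 + Dp * (C0 : ℝ) ^ (nb γ) + D2 * (1 + 4 * 2 ^ s) + D3 * (1 + 4 * 2 ^ s)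
    with hD
  have q1 : (0 : ℝ) ≤ Dp * (C0 : ℝ) ^ (nb γ) := by positivity
  have q2 : (0 : ℝ) ≤ D2 * (1 + 4 * 2 ^ s) := by positivity
  have q3 : (0 : ℝ) ≤ D3 * (1 + 4 * 2 ^ s) := by positivity
  have hDge : 2 ≤ D := by rw [hD]; linarith
  refine ⟨D, hDge, ?_⟩
  intro m Z U Y g v N r S Λ T hm hZ hY hU hv hZ1 hZ2 hr hSΛ hΛ hg0 hg1 hg2 hg3 hP hT
  have hY0 : (0 : ℝ) < Y := by linarith
  have hZR : (1 : ℝ) ≤ Z := by exact_mod_cast hZ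
  have hZe : (1 : ℝ) ≤ (Z : ℝ) ^ e := Real.one_le_rpow hZR he.le
  set W : ℝ := D * (Z : ℝ) ^ e with hW
  have hW2 : 2 ≤ W := by
    calc (2 : ℝ) = 2 * 1 := by ring
      _ ≤ D * (Z : ℝ) ^ e := mul_le_mul hDge hZe zero_le_one (by linarith)
  have hW1 : 1 ≤ W := by linarith
  have hV : ∀ R : ℝ, 0 ≤ R →
      (((Icc 1 Z).filter fun d => (rad d : ℝ) ≤ R).card : ℝ) ≤ W * R := by
    intro R hR
    refine (h4 Z hZ R hR).trans ?_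
    apply mul_le_mul_of_nonneg_right _ hR
    rw [hW]
    apply mul_le_mul_of_nonneg_right _ (by positivity)
    rw [hD]; linarith
  have hlog : (((2 * Nat.log 2 Z + 1) ^ (nb γ) : ℕ) : ℝ) * (C0 : ℝ) ^ (nb γ) ≤ W := by
    have h5 := hp Z hZ
    rw [Nat.zero_add] at h5
    calc (((2 * Nat.log 2 Z + 1) ^ (nb γ) : ℕ) : ℝ) * (C0 : ℝ) ^ (nb γ)
        ≤ (Dp * (Z : ℝ) ^ e) * (C0 : ℝ) ^ (nb γ) :=
          mul_le_mul_of_nonneg_right h5 (by positivity)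
      _ = (Dp * (C0 : ℝ) ^ (nb γ)) * (Z : ℝ) ^ e := by ring
      _ ≤ D * (Z : ℝ) ^ e := by
          apply mul_le_mul_of_nonneg_right _ (by positivity)
          rw [hD]; linarith
  have hU' : (U : ℝ) ≤ 2 ^ s := by exact_mod_cast hU.le
  have hDW : ∀ D' : ℝ, 0 < D' → D' * (1 + 4 * 2 ^ s) ≤ D →
      D' * (Z : ℝ) ^ e * (1 + 4 * U) ≤ W := by
    intro D' hD' hle
    calc D' * (Z : ℝ) ^ e * (1 + 4 * U) = (D' * (1 + 4 * U)) * (Z : ℝ) ^ e := by ring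
      _ ≤ (D' * (1 + 4 * 2 ^ s)) * (Z : ℝ) ^ e := by gcongr
      _ ≤ D * (Z : ℝ) ^ e := mul_le_mul_of_nonneg_right hle (by positivity)
  have hv2 : ∀ i, v i ≠ 0 ∧ (v i).natAbs < 2 ^ s := fun i => ⟨(hv i).1, (hv i).2.trans_lt hU⟩
  have hnb : ∀ t ∈ T, ∀ i, i ∉ S → NB (nb γ) (Y ^ (2 * M)) (t i) := by
    intro t ht i hi
    obtain ⟨g1, -, g3, -⟩ := hT t ht
    exact nb_of_not_dusty hY hγ hγ1 hM (Nat.le_ceil _) ((hP.tup t ht).pos i) (g1 i) (g3 i hi)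
  have hfin : ∀ x y : ℝ, x ≤ η → g * ∑ i, r i ≤ y →
      (T.card : ℝ) ≤ W ^ (m + 1) * Y ^ x * Real.exp (∑ i, r i - y) →
      (T.card : ℝ) ≤ W ^ (m + 1) * Y ^ η * Real.exp ((1 - g) * ∑ i, r i) := by
    intro x y hx hy hc
    refine hc.trans ?_
    have e1 : Y ^ x ≤ Y ^ η := Real.rpow_le_rpow_of_exponent_le hY hx
    have e2 : Real.exp (∑ i, r i - y) ≤ Real.exp ((1 - g) * ∑ i, r i) := by
      apply Real.exp_le_exp.2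
      linarith
    gcongr
  have hsm0 : γ' ≤ η := by
    have h6 : (0 : ℝ) ≤ 2 * γ' * (nb γ : ℝ) ^ 2 := by
      have := hs.hγ'
      positivity
    linarith [hs.small]
  have hM0 : (0 : ℝ) < M := by exact_mod_cast hM
  have hεM : 2 * (M : ℝ) * (η / (2 * M)) = η := by field_simp
  rcases opt hm r (fun i => (hr i).1) S Λ hSΛ hΛ g hg0 hg1 hg2 hg3 with
    ⟨a, b, hab, hS, hL, hsave⟩ | ⟨a, b, c, hab, hac, hbc, hcS, hsave⟩ | ⟨a, c, hac, hcS, hsave, -⟩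
  · -- two members
    by_cases haS : a ∈ S
    · have hbS : b ∉ S := by tauto
      have h5 := h1a m Z s M M' γ' Y W v N r T b a hY hs.hγ' hW1 hV hlog hs.hM' hs.hw hs.hKK hZ1
        hv2 (Ne.symm hab) hP (fun t ht => ⟨hnb t ht b hbS, (hT t ht).2.1 a haS⟩)
      exact hfin _ _ hs.small (by linarith) h5
    · by_cases hbS : b ∈ S
      · have h5 := h1a m Z s M M' γ' Y W v N r T a b hY hs.hγ' hW1 hV hlog hs.hM' hs.hw hs.hKK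
          hZ1 hv2 hab hP (fun t ht => ⟨hnb t ht a haS, (hT t ht).2.1 b hbS⟩)
        exact hfin _ _ hs.small (by linarith) h5
      · have h5 := h1b m Z U M Y W v N r T a b hY hW2 hV hv hZ2 hab hP (fun t ht =>
          ⟨hnb t ht a haS, hnb t ht b hbS, by
            rcases hL with h6 | h6
            · exact Or.inl ((hT t ht).2.2.2 a haS h6)
            · exact Or.inr ((hT t ht).2.2.2 b hbS h6)⟩)
        rw [hεM] at h5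
        exact hfin _ _ le_rfl (by linarith) h5
  · -- three members
    have h5 := h2 m Z U M' t0 γ' Y W v N r T a b c hZ hY hs.hγ' hW1 hV
      (hDW D2 hD2 (by rw [hD]; linarith)) hs.ht0 hs.htM hv hr hab hac hbc hP
      (fun t ht => (hT t ht).2.1 c hcS)
    exact hfin _ _ hsm0 hsave h5
  · have h5 := h3 m Z U M' t0 γ' Y W v N r T a c hZ hY hs.hγ' hW1 hV
      (hDW D3 hD3 (by rw [hD]; linarith)) hs.ht0 hs.htM hv hr hac hP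
      (fun t ht => (hT t ht).2.1 c hcS)
    exact hfin _ _ hsm0 hsave h5

end Pool.Agent.N745.NT
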