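import Pool.Agent.N745.NT.Opt

/-!
# The optimization for `q` coordinates of rank `r`
-/

set_option autoImplicit false

namespace Pool.Agent.N745.NT

open Finset

/-- a subset with a small sum -/
theorem exists_small {ι : Type*} [DecidableEq ι] (f : ι → ℝ) : ∀ (n : ℕ) (A : Finset ι),
    A.card = n → ∀ j : ℕ, j ≤ n → ∃ J, J ⊆ A ∧ J.card = j ∧ (n : ℝ) * ∑ i ∈ J, f i ≤
      j * ∑ i ∈ A, f i := by
  intro n
  induction n with
  | zero =>
    intro A hA j hj
    obtain rfl : j = 0 := by omega
    exact ⟨∅, empty_subset _, card_empty, by simp⟩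
  | succ n ih =>
    intro A hA j hj
    rcases Nat.lt_or_ge n j with h | h
    · obtain rfl : j = n + 1 := by omega
      exact ⟨A, Subset.rfl, hA, le_rfl⟩
    · have hne : A.Nonempty := by rw [← card_pos]; omega
      obtain ⟨x, hx, hmax⟩ := exists_max_image A f hne
      obtain ⟨J, hJ1, hJ2, hJ3⟩ := ih (A.erase x) (by rw [card_erase_of_mem hx]; omega) j h
      refine ⟨J, hJ1.trans (erase_subset _ _), hJ2, ?_⟩
      have h1 : ∑ i ∈ A, f i ≤ (n + 1 : ℕ) * f x := by
        rw [← hA]
        exact sum_le_card_mul A f hmax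
      have h2 : ∑ i ∈ A.erase x, f i = ∑ i ∈ A, f i - f x := by
        rw [← add_sum_erase A f hx]
        ring
      rw [h2] at hJ3
      push_cast at h1 ⊢
      rcases Nat.eq_zero_or_pos n with hn | hn
      · subst hn
        obtain rfl : j = 0 := by omega
        rw [card_eq_zero.1 hJ2]
        simp
      have hnR : (0 : ℝ) < n := by exact_mod_cast hn
      have hj0 : (0 : ℝ) ≤ j := Nat.cast_nonneg _
      -- `n (n + 1) ∑_J ≤ j (n + 1) (Σ_A - f x) ≤ j n Σ_A`
      have h3 : (n : ℝ) * ((n + 1) * ∑ i ∈ J, f i) ≤ n * (j * ∑ i ∈ A, f i) := by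
        calc (n : ℝ) * ((n + 1) * ∑ i ∈ J, f i) = (n + 1) * (n * ∑ i ∈ J, f i) := by ring
          _ ≤ (n + 1) * (j * (∑ i ∈ A, f i - f x)) := by gcongr
          _ = n * (j * ∑ i ∈ A, f i) + j * (∑ i ∈ A, f i - (n + 1) * f x) := by ring
          _ ≤ n * (j * ∑ i ∈ A, f i) := by nlinarith
      exact le_of_mul_le_mul_left h3 hnR

/-- two elements with a large sum -/
theorem exists_two {ι : Type*} [DecidableEq ι] (f : ι → ℝ) (J : Finset ι) (hJ : 2 ≤ J.card) :
    ∃ a ∈ J, ∃ b ∈ J, a ≠ b ∧ 2 * ∑ i ∈ J, f i ≤ J.card * (f a + f b) := by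
  obtain ⟨a, ha, hamax⟩ := exists_max_image J f (by rw [← card_pos]; omega)
  obtain ⟨b, hb, hbmax⟩ := exists_max_image (J.erase a) f
    (by rw [← card_pos, card_erase_of_mem ha]; omega)
  have hbJ := (mem_erase.1 hb).2
  have hba := (mem_erase.1 hb).1
  refine ⟨a, ha, b, hbJ, Ne.symm hba, ?_⟩
  have h1 : ∑ i ∈ J, f i ≤ f a + (J.card - 1) * f b := by
    rw [← add_sum_erase J f ha]
    gcongr
    refine (sum_le_card_mul _ _ hbmax).trans (le_of_eq ?_)
    rw [card_erase_of_mem ha, Nat.cast_sub (by omega)]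
    norm_num
  have h2 := hamax b hbJ
  have h3 : (2 : ℝ) ≤ J.card := by exact_mod_cast hJ
  nlinarith [mul_nonneg (sub_nonneg.2 h3) (sub_nonneg.2 h2)]

/-- a subset of given size -/
theorem exists_sub {ι : Type*} (A : Finset ι) (j : ℕ) (h : j ≤ A.card) : ∃ J ⊆ A, J.card = j :=
  exists_subset_card_eq h

/-- the last case of the optimization -/
theorem optQ_aux {p x y PN lam n δ q κ c SJ : ℝ} (hlam : 2 ≤ lam) (hδ : 1 ≤ δ) (hδlam : δ ≤ lam)
    (hn : 0 ≤ n) (hq : q = n + lam) (hqpos : 0 < q) (hc : c * (lam - 1) = lam - δ)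
    (hPN : PN ≤ n * y) (hx : p - PN ≤ lam * x) (hy : q * y ≤ p) (hy0 : 0 ≤ y) (hp : 0 ≤ p)
    (hSJ : SJ ≤ PN - y + c * (p - PN - x)) (hκ1 : q - δ - 1 ≤ κ * q) (hκ2 : (1 - κ) * lam ≤ δ) :
    SJ ≤ κ * p := by
  have hl1 : 0 < lam - 1 := by linarith
  have hl0 : 0 < lam := by linarith
  have hc0 : 0 ≤ c := by
    by_contra hcon
    rw [not_le] at hcon
    have := mul_neg_of_neg_of_pos hcon hl1
    linarith
  -- `lam * SJ ≤ (δ n - lam) y + (lam - δ) p`
  have h1 : lam * SJ ≤ (δ * n - lam) * y + (lam - δ) * p := by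
    have e1 : lam * SJ ≤ lam * (PN - y + c * (p - PN - x)) := mul_le_mul_of_nonneg_left hSJ hl0.le
    have e2 : c * (p - PN) ≤ c * (lam * x) := mul_le_mul_of_nonneg_left hx hc0
    have e3 : lam * (PN - y + c * (p - PN - x)) ≤
        lam * PN - lam * y + (c * (lam - 1)) * (p - PN) := by nlinarith
    rw [hc] at e3
    have e4 : δ * PN ≤ δ * (n * y) := mul_le_mul_of_nonneg_left hPN (by linarith)
    nlinarith
  rcases le_or_gt (δ * n - lam) 0 with h2 | h2
  · have h3 : (δ * n - lam) * y ≤ 0 := mul_nonpos_of_nonpos_of_nonneg h2 hy0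
    have h4 : (lam - δ) * p ≤ (lam * κ) * p := mul_le_mul_of_nonneg_right (by nlinarith) hp
    have h5 : lam * SJ ≤ lam * (κ * p) := by nlinarith
    exact le_of_mul_le_mul_left h5 hl0
  · -- `y ≤ p / q`
    have h3 : (δ * n - lam) * (q * y) ≤ (δ * n - lam) * p := mul_le_mul_of_nonneg_left hy h2.le
    have h4 : q * (lam * SJ) ≤ q * ((δ * n - lam) * y + (lam - δ) * p) :=
      mul_le_mul_of_nonneg_left h1 hqpos.le
    have h5 : q * (lam * SJ) ≤ (δ * n - lam + q * (lam - δ)) * p := by nlinarith
    have h6 : δ * n - lam + q * (lam - δ) = lam * (q - δ - 1) := by rw [hq]; ring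
    rw [h6] at h5
    have h7 : lam * (q - δ - 1) * p ≤ lam * (κ * q) * p := by
      apply mul_le_mul_of_nonneg_right _ hp
      exact mul_le_mul_of_nonneg_left hκ1 hl0.le
    have h8 : (q * lam) * SJ ≤ (q * lam) * (κ * p) := by nlinarith
    exact le_of_mul_le_mul_left h8 (by positivity)

/-- among the possible savings one is large -/
theorem optQ {q r : ℕ} (hr : 2 ≤ r) (hq : r + 1 ≤ q) (s : Fin q → ℝ) (hs : ∀ i, 0 ≤ s i)
    (S Λ : Finset (Fin q)) (hSΛ : Disjoint S Λ) (hΛ : ∃ u, u ∉ Λ) (κ : ℝ)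
    (hκ1 : (r : ℝ) - 1 ≤ κ * q) (hκ2 : (1 - κ) * Λ.card ≤ (q : ℝ) - r) :
    ∃ I : Finset (Fin q), I.card = r + 1 ∧
    ((∃ a ∈ I, ∃ b ∈ I, a ≠ b ∧ (a ∉ S ∨ b ∉ S) ∧ (a ∉ Λ ∨ b ∉ Λ) ∧
      ∑ i ∈ I, s i - (s a + s b) ≤ κ * ∑ i, s i) ∨
    (∃ a ∈ I, ∃ b ∈ I, ∃ c ∈ I, a ≠ b ∧ a ≠ c ∧ b ≠ c ∧ c ∈ S ∧
      ∑ i ∈ I, s i - (s c + (s a + s b) / 2) ≤ κ * ∑ i, s i)) := by
  classical
  have hrR : (2 : ℝ) ≤ r := by exact_mod_cast hr
  have hqR : (r : ℝ) + 1 ≤ q := by exact_mod_cast hq
  have hq0 : (0 : ℝ) < q := by linarith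
  obtain ⟨p, hp⟩ : ∃ p, p = ∑ i, s i := ⟨_, rfl⟩
  have hp0 : 0 ≤ p := by rw [hp]; exact sum_nonneg fun i _ => hs i
  rw [← hp]
  have hmain : ((r : ℝ) - 1) * p ≤ q * (κ * p) := by
    have := mul_le_mul_of_nonneg_right hκ1 hp0
    linarith
  haveI : NeZero q := ⟨by omega⟩
  obtain ⟨i1, -, hi1⟩ := exists_max_image (univ : Finset (Fin q)) s ⟨0, mem_univ _⟩
  have hne1 : (univ.erase i1 : Finset (Fin q)).Nonempty := by
    rw [← card_pos, card_erase_of_mem (mem_univ _), card_univ, Fintype.card_fin]
    omega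
  obtain ⟨i2, hi2m, hi2⟩ := exists_max_image _ s hne1
  have h12 : i2 ≠ i1 := (mem_erase.1 hi2m).1
  have h1 : ∀ i, s i ≤ s i1 := fun i => hi1 i (mem_univ _)
  have h2 : ∀ i, i ≠ i1 → s i ≤ s i2 := fun i hi => hi2 i (mem_erase.2 ⟨hi, mem_univ _⟩)
  -- a pair with a large sum
  have hpair : ∀ a b : Fin q, a ≠ b → 2 * p ≤ q * (s a + s b) → ∃ I : Finset (Fin q),
      I.card = r + 1 ∧ a ∈ I ∧ b ∈ I ∧ ∑ i ∈ I, s i - (s a + s b) ≤ κ * p := by
    intro a b hab hsum
    have hbm : b ∈ (univ.erase a : Finset (Fin q)) := mem_erase.2 ⟨Ne.symm hab, mem_univ _⟩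
    have hcard : ((univ.erase a).erase b : Finset (Fin q)).card = q - 2 := by
      rw [card_erase_of_mem hbm, card_erase_of_mem (mem_univ _), card_univ, Fintype.card_fin]
      omega
    obtain ⟨J, hJ1, hJ2, hJ3⟩ := exists_small s (q - 2) _ hcard (r - 1) (by omega)
    have hsumA : ∑ i ∈ (univ.erase a).erase b, s i = p - s a - s b := by
      rw [hp, ← add_sum_erase _ _ (mem_univ a), ← add_sum_erase _ _ hbm]
      ring
    have haJ : a ∉ J := fun h => by
      have := hJ1 h
      simp at this
    have hbJ : b ∉ J := fun h => by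
      have := hJ1 h
      simp at this
    refine ⟨insert a (insert b J), ?_, mem_insert_self _ _,
      mem_insert_of_mem (mem_insert_self _ _), ?_⟩
    · rw [card_insert_of_notMem, card_insert_of_notMem hbJ, hJ2]
      · omega
      · rw [mem_insert]
        push Not
        exact ⟨hab, haJ⟩
    · rw [sum_insert, sum_insert hbJ]
      · rw [hsumA] at hJ3
        have e1 : ((q - 2 : ℕ) : ℝ) = (q : ℝ) - 2 := by
          rw [Nat.cast_sub (by omega)]
          norm_num
        have e2 : ((r - 1 : ℕ) : ℝ) = (r : ℝ) - 1 := by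
          rw [Nat.cast_sub (by omega)]
          norm_num
        rw [e1, e2] at hJ3
        have e3 : s a + (s b + ∑ i ∈ J, s i) - (s a + s b) = ∑ i ∈ J, s i := by ring
        rw [e3]
        have hq2 : (0 : ℝ) < q - 2 := by linarith
        -- `q (p - s a - s b) ≤ (q - 2) p`
        have e4 : (q : ℝ) * (p - s a - s b) ≤ (q - 2) * p := by nlinarith
        have e5 : (q : ℝ) * ((q - 2) * ∑ i ∈ J, s i) ≤ (q - 2) * (q * (κ * p)) := by
          calc (q : ℝ) * ((q - 2) * ∑ i ∈ J, s i) ≤ q * ((r - 1) * (p - s a - s b)) :=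
                mul_le_mul_of_nonneg_left hJ3 hq0.le
            _ = (r - 1) * (q * (p - s a - s b)) := by ring
            _ ≤ (r - 1) * ((q - 2) * p) := by
                apply mul_le_mul_of_nonneg_left e4
                linarith
            _ = (q - 2) * ((r - 1) * p) := by ring
            _ ≤ (q - 2) * (q * (κ * p)) := mul_le_mul_of_nonneg_left hmain hq2.le
        have e6 : (q * (q - 2)) * ∑ i ∈ J, s i ≤ (q * (q - 2)) * (κ * p) := by linarith
        exact le_of_mul_le_mul_left e6 (by positivity)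
      · rw [mem_insert]
        push Not
        exact ⟨hab, haJ⟩
  by_cases hcase : i1 ∈ Λ ∧ i2 ∈ Λ
  · -- the two largest are low
    have hne : (Λᶜ).Nonempty := by
      obtain ⟨u, hu⟩ := hΛ
      exact ⟨u, mem_compl.2 hu⟩
    obtain ⟨u, hum, hu⟩ := exists_max_image _ s hne
    have huL := mem_compl.1 hum
    have h1u : i1 ≠ u := by
      rintro rfl
      exact huL hcase.1
    have hS1 : i1 ∉ S := fun h => (disjoint_left.1 hSΛ) h hcase.1
    rcases le_or_gt (2 * p) (q * (s i1 + s u)) with hA | hB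
    · obtain ⟨I, hI1, hI2, hI3, hI4⟩ := hpair i1 u h1u hA
      exact ⟨I, hI1, Or.inl ⟨i1, hI2, u, hI3, h1u, Or.inl hS1, Or.inr huL, hI4⟩⟩
    · have hyx : s u ≤ s i1 := h1 u
      have hy0 : 0 ≤ s u := hs u
      have hyp : (q : ℝ) * s u ≤ p := by nlinarith
      have hcardc : (Λᶜ).card = q - Λ.card := by
        rw [card_compl, Fintype.card_fin]
      have hLq : Λ.card < q := by
        have h5 : 0 < (Λᶜ).card := card_pos.2 hne
        omega
      have hcardcu : ((Λᶜ).erase u).card = q - Λ.card - 1 := by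
        rw [card_erase_of_mem hum, hcardc]
      have hLam2 : 2 ≤ Λ.card := by
        have h5 : ({i1, i2} : Finset (Fin q)) ⊆ Λ := by
          intro i hi
          rw [mem_insert, mem_singleton] at hi
          rcases hi with rfl | rfl
          · exact hcase.1
          · exact hcase.2
        have h6 := card_le_card h5
        rwa [card_pair (Ne.symm h12)] at h6
      rcases Nat.lt_or_ge (q - Λ.card - 1) (r - 1) with hlt | hge
      · -- all non-low members and some low ones
        obtain ⟨J2, hJ1, hJ2, hJ3⟩ := exists_small s (Λ.card - 1) (Λ.erase i1)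
          (card_erase_of_mem hcase.1) (r + Λ.card - q) (by omega)
        set J := (Λᶜ).erase u ∪ J2 with hJ
        have hJ2L : J2 ⊆ Λ := hJ1.trans (erase_subset _ _)
        have hdisj : Disjoint ((Λᶜ).erase u) J2 := by
          rw [disjoint_left]
          intro i hi hi'
          exact (mem_compl.1 (mem_erase.1 hi).2) (hJ2L hi')
        have hJcard : J.card = r - 1 := by
          rw [hJ, card_union_of_disjoint hdisj, hJ2, hcardcu]
          omega
        have h1J : i1 ∉ J := by
          rw [hJ, mem_union]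
          rintro (h | h)
          · exact (mem_compl.1 (mem_erase.1 h).2) hcase.1
          · exact (mem_erase.1 (hJ1 h)).1 rfl
        have huJ : u ∉ J := by
          rw [hJ, mem_union]
          rintro (h | h)
          · exact (mem_erase.1 h).1 rfl
          · exact huL (hJ2L h)
        refine ⟨insert i1 (insert u J), ?_, Or.inl ⟨i1, mem_insert_self _ _, u,
          mem_insert_of_mem (mem_insert_self _ _), h1u, Or.inl hS1, Or.inr huL, ?_⟩⟩
        · rw [card_insert_of_notMem, card_insert_of_notMem huJ, hJcard]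
          · omega
          · rw [mem_insert]
            push Not
            exact ⟨h1u, h1J⟩
        · rw [sum_insert, sum_insert huJ]
          · have e3 : s i1 + (s u + ∑ i ∈ J, s i) - (s i1 + s u) = ∑ i ∈ J, s i := by ring
            rw [e3]
            obtain ⟨PN, hPN⟩ : ∃ PN, PN = ∑ i ∈ Λᶜ, s i := ⟨_, rfl⟩
            have hPL : ∑ i ∈ Λ, s i = p - PN := by
              rw [hp, hPN, ← sum_add_sum_compl Λ]
              ring
            have e4 : ∑ i ∈ J, s i = PN - s u + ∑ i ∈ J2, s i := by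
              rw [hJ, sum_union hdisj, hPN, ← add_sum_erase _ _ hum]
              ring
            have e5 : ∑ i ∈ Λ.erase i1, s i = p - PN - s i1 := by
              rw [← hPL, ← add_sum_erase _ _ hcase.1]
              ring
            have hlamR : (2 : ℝ) ≤ Λ.card := by exact_mod_cast hLam2
            have e6 : ((Λ.card - 1 : ℕ) : ℝ) = (Λ.card : ℝ) - 1 := by
              rw [Nat.cast_sub (by omega)]
              norm_num
            have e7 : ((r + Λ.card - q : ℕ) : ℝ) = (r : ℝ) + Λ.card - q := by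
              rw [Nat.cast_sub (by omega)]
              push_cast
              ring
            rw [e5, e6, e7] at hJ3
            have hl1 : (0 : ℝ) < (Λ.card : ℝ) - 1 := by linarith
            have hLqR : (Λ.card : ℝ) ≤ q := by exact_mod_cast hLq.le
            have hδlam : (q : ℝ) - r ≤ Λ.card := by
              have h5 : q ≤ r + Λ.card := by omega
              have h6 : (q : ℝ) ≤ r + Λ.card := by exact_mod_cast h5
              linarith
            apply optQ_aux (p := p) (x := s i1) (y := s u) (PN := PN) (lam := (Λ.card : ℝ))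
              (n := (q : ℝ) - Λ.card) (δ := (q : ℝ) - r) (q := (q : ℝ)) (κ := κ)
              (c := ((r : ℝ) + Λ.card - q) / (Λ.card - 1)) hlamR (by linarith) hδlam
              (by linarith) (by ring) hq0
            · rw [div_mul_cancel₀ _ hl1.ne']
              ring
            · rw [hPN]
              refine (sum_le_card_mul _ _ hu).trans (le_of_eq ?_)
              rw [hcardc, Nat.cast_sub hLq.le]
            · rw [← hPL]
              exact sum_le_card_mul _ _ fun i _ => h1 i
            · exact hyp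
            · exact hy0
            · exact hp0
            · rw [e4]
              have e8 : ∑ i ∈ J2, s i ≤ ((r : ℝ) + Λ.card - q) / (Λ.card - 1) *
                  (p - PN - s i1) := by
                rw [div_mul_eq_mul_div, le_div_iff₀ hl1]
                linarith
              linarith
            · linarith
            · exact hκ2
          · rw [mem_insert]
            push Not
            exact ⟨h1u, h1J⟩
      · -- non-low members only
        obtain ⟨J, hJ1, hJ2⟩ := exists_sub ((Λᶜ).erase u) (r - 1) (by rw [hcardcu]; exact hge)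
        have h1J : i1 ∉ J := fun h => (mem_compl.1 (mem_erase.1 (hJ1 h)).2) hcase.1
        have huJ : u ∉ J := fun h => (mem_erase.1 (hJ1 h)).1 rfl
        refine ⟨insert i1 (insert u J), ?_, Or.inl ⟨i1, mem_insert_self _ _, u,
          mem_insert_of_mem (mem_insert_self _ _), h1u, Or.inl hS1, Or.inr huL, ?_⟩⟩
        · rw [card_insert_of_notMem, card_insert_of_notMem huJ, hJ2]
          · omega
          · rw [mem_insert]
            push Not
            exact ⟨h1u, h1J⟩
        · rw [sum_insert, sum_insert huJ]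
          · have e3 : s i1 + (s u + ∑ i ∈ J, s i) - (s i1 + s u) = ∑ i ∈ J, s i := by ring
            rw [e3]
            have e4 : ∑ i ∈ J, s i ≤ ((r : ℝ) - 1) * s u := by
              refine (sum_le_card_mul _ _ fun i hi => hu i (mem_erase.1 (hJ1 hi)).2).trans
                (le_of_eq ?_)
              rw [hJ2, Nat.cast_sub (by omega)]
              norm_num
            have e5 : (q : ℝ) * ∑ i ∈ J, s i ≤ q * (κ * p) := by
              calc (q : ℝ) * ∑ i ∈ J, s i ≤ q * (((r : ℝ) - 1) * s u) :=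
                    mul_le_mul_of_nonneg_left e4 hq0.le
                _ = ((r : ℝ) - 1) * (q * s u) := by ring
                _ ≤ ((r : ℝ) - 1) * p := mul_le_mul_of_nonneg_left hyp (by linarith)
                _ ≤ q * (κ * p) := hmain
            exact le_of_mul_le_mul_left e5 hq0
          · rw [mem_insert]
            push Not
            exact ⟨h1u, h1J⟩
  · have hcase' : i1 ∉ Λ ∨ i2 ∉ Λ := by tauto
    have hps : p ≤ s i1 + (q - 1) * s i2 := by
      rw [hp, ← add_sum_erase _ _ (mem_univ i1)]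
      gcongr
      refine (sum_le_card_mul _ _ fun i hi => hi2 i hi).trans (le_of_eq ?_)
      rw [card_erase_of_mem (mem_univ _), card_univ, Fintype.card_fin, Nat.cast_sub (by omega)]
      norm_num
    by_cases hSS : i1 ∈ S ∧ i2 ∈ S
    · -- both dusty
      have hcard : (univ.erase i1 : Finset (Fin q)).card = q - 1 := by
        rw [card_erase_of_mem (mem_univ _), card_univ, Fintype.card_fin]
      obtain ⟨J, hJ1, hJ2, hJ3⟩ := exists_small s (q - 1) _ hcard r (by omega)
      obtain ⟨a, ha, b, hb, hab, hsum⟩ := exists_two s J (by omega)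
      have h1J : i1 ∉ J := fun h => (mem_erase.1 (hJ1 h)).1 rfl
      refine ⟨insert i1 J, by rw [card_insert_of_notMem h1J, hJ2], Or.inr ⟨a,
        mem_insert_of_mem ha, b, mem_insert_of_mem hb, i1, mem_insert_self _ _, hab, ?_, ?_,
        hSS.1, ?_⟩⟩
      · rintro rfl
        exact h1J ha
      · rintro rfl
        exact h1J hb
      · rw [sum_insert h1J]
        have e1 : ((q - 1 : ℕ) : ℝ) = (q : ℝ) - 1 := by
          rw [Nat.cast_sub (by omega)]
          norm_num
        have e2 : ∑ i ∈ (univ.erase i1 : Finset (Fin q)), s i = p - s i1 := by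
          rw [hp, ← add_sum_erase _ _ (mem_univ i1)]
          ring
        rw [e1, e2] at hJ3
        rw [hJ2] at hsum
        have hq1 : (0 : ℝ) < q - 1 := by linarith
        have hr0 : (0 : ℝ) < r := by linarith
        -- `q (p - s i1) ≤ (q - 1) p`
        have e3 : (q : ℝ) * (p - s i1) ≤ (q - 1) * p := by
          have e4 : p ≤ q * s i1 := by
            rw [hp]
            refine (sum_le_card_mul _ _ fun i _ => h1 i).trans (le_of_eq ?_)
            rw [card_univ, Fintype.card_fin]
          nlinarith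
        have e5 : s i1 + ∑ i ∈ J, s i - (s i1 + (s a + s b) / 2) =
            ∑ i ∈ J, s i - (s a + s b) / 2 := by ring
        rw [e5]
        -- `r (Σ_J - (s a + s b) / 2) ≤ (r - 1) Σ_J`
        have e6 : (r : ℝ) * (∑ i ∈ J, s i - (s a + s b) / 2) ≤ (r - 1) * ∑ i ∈ J, s i := by
          linarith
        have e7 : (q : ℝ) * ((q - 1) * ∑ i ∈ J, s i) ≤ (q - 1) * (r * p) := by
          calc (q : ℝ) * ((q - 1) * ∑ i ∈ J, s i) ≤ q * (r * (p - s i1)) :=
                mul_le_mul_of_nonneg_left hJ3 hq0.le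
            _ = r * (q * (p - s i1)) := by ring
            _ ≤ r * ((q - 1) * p) := mul_le_mul_of_nonneg_left e3 hr0.le
            _ = (q - 1) * (r * p) := by ring
        have e8 : (q : ℝ) * ∑ i ∈ J, s i ≤ r * p := by
          have e9 : (q - 1) * ((q : ℝ) * ∑ i ∈ J, s i) ≤ (q - 1) * (r * p) := by linarith
          exact le_of_mul_le_mul_left e9 hq1
        have e10 : ((r : ℝ) * q) * (∑ i ∈ J, s i - (s a + s b) / 2) ≤ (r * q) * (κ * p) := by
          calc ((r : ℝ) * q) * (∑ i ∈ J, s i - (s a + s b) / 2)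
              = q * (r * (∑ i ∈ J, s i - (s a + s b) / 2)) := by ring
            _ ≤ q * ((r - 1) * ∑ i ∈ J, s i) := mul_le_mul_of_nonneg_left e6 hq0.le
            _ = (r - 1) * (q * ∑ i ∈ J, s i) := by ring
            _ ≤ (r - 1) * (r * p) := mul_le_mul_of_nonneg_left e8 (by linarith)
            _ = r * ((r - 1) * p) := by ring
            _ ≤ r * (q * (κ * p)) := mul_le_mul_of_nonneg_left hmain hr0.le
            _ = (r * q) * (κ * p) := by ring
        exact le_of_mul_le_mul_left e10 (by positivity)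
    · have hSS' : i1 ∉ S ∨ i2 ∉ S := by tauto
      have h2p : 2 * p ≤ q * (s i1 + s i2) := by
        have e1 := h1 i2
        nlinarith
      obtain ⟨I, hI1, hI2, hI3, hI4⟩ := hpair i1 i2 (Ne.symm h12) h2p
      exact ⟨I, hI1, Or.inl ⟨i1, hI2, i2, hI3, Ne.symm h12, hSS', hcase', hI4⟩⟩

end Pool.Agent.N745.NT
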