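import Pool.Agent.N745.NT.Piece
import Pool.Agent.N745.NT.OptQ

/-!
# One level for families of rank `r` with `q` coordinates
-/

set_option autoImplicit false

namespace Pool.Agent.N745.NT

open Finset Pool.Agent.Y913 Pool.Agent.Y913.Nb Pool.Agent.H785R2.ABC Pool.Agent.H705R2.ABC
  Pool.Agent.N745.T1

/-- a family of tuples such that any `r + 1` coordinates satisfy an inhomogeneous linear relation
without vanishing coefficients -/
structure Fam {q : ℕ} (r U Z : ℕ) (T : Finset (Fin q → ℕ)) : Prop where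
  pos : ∀ t ∈ T, ∀ i, 1 ≤ t i
  le : ∀ t ∈ T, ∀ i, t i ≤ Z
  cop : ∀ t ∈ T, ∀ i j, i ≠ j → (t i).Coprime (t j)
  rel : ∀ ι : Fin (r + 1) → Fin q, Function.Injective ι → ∃ (v : Fin (r + 1) → ℤ) (N : ℤ),
    (∀ i, v i ≠ 0 ∧ (v i).natAbs ≤ U) ∧ ∀ t ∈ T, ∑ i, v i * (t (ι i) : ℤ) = N

theorem Fam.mono {q r U Z : ℕ} {T T' : Finset (Fin q → ℕ)} (h : Fam r U Z T) (hT : T' ⊆ T) :
    Fam r U Z T' := by
  refine ⟨fun t ht => h.pos t (hT ht), fun t ht => h.le t (hT ht), fun t ht => h.cop t (hT ht),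
    fun ι hι => ?_⟩
  obtain ⟨v, N, h1, h2⟩ := h.rel ι hι
  exact ⟨v, N, h1, fun t ht => h2 t (hT ht)⟩

/-- `r` coordinates determine a member of the family -/
theorem Fam.inj {q r U Z : ℕ} {T : Finset (Fin q → ℕ)} (h : Fam r U Z T) (hr : 1 ≤ r)
    {ι : Fin (r + 1) → Fin q} (hι : Function.Injective ι) {t t' : Fin q → ℕ} (ht : t ∈ T)
    (ht' : t' ∈ T) (htt : ∀ i, t (ι i) = t' (ι i)) : t = t' := by
  classical
  funext j
  by_cases hj : ∃ i, ι i = j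
  · obtain ⟨i, rfl⟩ := hj
    exact htt i
  · push Not at hj
    set ι' : Fin (r + 1) → Fin q := Function.update ι 0 j with hι'
    have hinj : Function.Injective ι' := by
      intro x y hxy
      by_cases hx : x = 0 <;> by_cases hy : y = 0
      · rw [hx, hy]
      · rw [hx, hι', Function.update_self, Function.update_of_ne hy] at hxy
        exact absurd hxy.symm (hj y)
      · rw [hy, hι', Function.update_self, Function.update_of_ne hx] at hxy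
        exact absurd hxy (hj x)
      · rw [hι', Function.update_of_ne hy, Function.update_of_ne hx] at hxy
        exact hι hxy
    obtain ⟨v, N, h1, h2⟩ := h.rel ι' hinj
    have e1 : ∑ i, v i * ((t (ι' i) : ℤ) - t' (ι' i)) = 0 := by
      have e2 : ∑ i, v i * ((t (ι' i) : ℤ) - t' (ι' i)) =
          ∑ i, v i * (t (ι' i) : ℤ) - ∑ i, v i * (t' (ι' i) : ℤ) := by
        rw [← sum_sub_distrib]
        exact sum_congr rfl fun i _ => by ring
      rw [e2, h2 t ht, h2 t' ht', sub_self]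
    rw [sum_eq_single (0 : Fin (r + 1))] at e1
    · rcases mul_eq_zero.1 e1 with e3 | e3
      · exact absurd e3 (h1 0).1
      · rw [hι', Function.update_self] at e3
        have : (t j : ℤ) = t' j := by linarith
        exact_mod_cast this
    · intro i _ hi
      rw [hι', Function.update_of_ne hi, htt i, sub_self, mul_zero]
    · intro h5
      exact absurd (mem_univ _) h5

/-- **one level** for families -/
theorem one_levelQ (hF : Basics) (hA4 : StmtA4) (hJ : StmtJ) (η : ℝ) (hη : 0 < η) (s M : ℕ)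
    (hM : 1 ≤ M) (γ : ℝ) (hγ : 0 < γ) (hγ1 : γ ≤ 1) (M' : ℕ) (γ' : ℝ) (w t0 : ℕ)
    (hs : StepN η s M γ M' γ' w t0) : ∃ (C0 C : ℕ) (δ : ℝ), 0 < δ ∧ ∀ e : ℝ, 0 < e →
      ∃ D : ℝ, 2 ≤ D ∧ ∀ (q r Z U : ℕ) (Y κ : ℝ) (ρ : Fin q → ℝ)
      (S Λ : Finset (Fin q)) (T : Finset (Fin q → ℕ)), 2 ≤ r → r + 1 ≤ q → 1 ≤ Z → 1 ≤ Y →
      U < 2 ^ s → ((C0 * (nb γ * Nat.log 2 Z) : ℕ) : ℝ) ≤ Y ^ γ' →
      ((Z + U + 2 * U * Z : ℕ) : ℝ) ≤ Real.exp ((⌊Y ^ (2 * M)⌋₊ : ℝ) ^ δ) →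
      (∀ i, 0 ≤ ρ i ∧ Real.exp (ρ i) ≤ 2 * Y) → Disjoint S Λ → (∃ u, u ∉ Λ) →
      (r : ℝ) - 1 ≤ κ * q → (1 - κ) * Λ.card ≤ (q : ℝ) - r → Fam r U Z T →
      (∀ t ∈ T, ∀ i, (rad (t i) : ℝ) ≤ Real.exp (ρ i)) →
      (∀ t ∈ T, (∀ i, (rad (t i) : ℝ) ≤ Y) ∧ (∀ i ∈ S, Dusty Y γ' M' (t i)) ∧
        (∀ i ∉ S, ¬ Dusty Y γ M (t i)) ∧
        (∀ i, i ∉ S → i ∉ Λ → 2 * U * (⌊Y ^ (2 * M)⌋₊ + 2) ^ C < t i)) →
      (T.card : ℝ) ≤ (D * (Z : ℝ) ^ e) ^ (r + 1 + 1) * Y ^ η * Real.exp (κ * ∑ i, ρ i) := by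
  classical
  obtain ⟨C0, h1a⟩ := opt1a (nb γ) w
  obtain ⟨C, δ, hδ, h1b⟩ := opt1b (nb γ) (η / (2 * M)) (by positivity)
  refine ⟨C0, C, δ, hδ, ?_⟩
  intro e he
  obtain ⟨D4, hD4, h4⟩ := hA4 e he
  obtain ⟨Dp, hDp, hp⟩ := polylog_le 0 (nb γ) he
  obtain ⟨D2, hD2, h2⟩ := opt2 hF hA4 hJ e he
  set D : ℝ := 2 + D4 + Dp * (C0 : ℝ) ^ (nb γ) + D2 * (1 + 4 * 2 ^ s) with hD
  have q1 : (0 : ℝ) ≤ Dp * (C0 : ℝ) ^ (nb γ) := by positivity
  have q2 : (0 : ℝ) ≤ D2 * (1 + 4 * 2 ^ s) := by positivity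
  have hDge : 2 ≤ D := by rw [hD]; linarith
  refine ⟨D, hDge, ?_⟩
  intro q r Z U Y κ ρ S Λ T hr2 hrq hZ hY hU hZ1 hZ2 hr hSΛ hΛ hκ1 hκ2 hFam hrad hT
  have hY0 : (0 : ℝ) < Y := by linarith
  have hZR : (1 : ℝ) ≤ Z := by exact_mod_cast hZ
  have hZe : (1 : ℝ) ≤ (Z : ℝ) ^ e := Real.one_le_rpow hZR he.le
  set W : ℝ := D * (Z : ℝ) ^ e with hW
  have hW2 : 2 ≤ W := by
    calc (2 : ℝ) = 2 * 1 := by ring
      _ ≤ D * (Z : ℝ) ^ e := mul_le_mul hDge hZe zero_le_one (by linarith)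
  have hW1 : 1 ≤ W := by linarith
  have hV : ∀ R : ℝ, 0 ≤ R →
      (((Icc 1 Z).filter fun d => (rad d : ℝ) ≤ R).card : ℝ) ≤ W * R := by
    intro R hR
    refine (h4 Z hZ R hR).trans ?_
    apply mul_le_mul_of_nonneg_right _ hR
    rw [hW]
    apply mul_le_mul_of_nonneg_right _ (by positivity)
    rw [hD]; linarith
  have hlog : (((2 * Nat.log 2 Z + 1) ^ (nb γ) : ℕ) : ℝ) * (C0 : ℝ) ^ (nb γ) ≤ W := by
    have h5 := hp Z hZ
    rw [Nat.zero_add] at h5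
    calc (((2 * Nat.log 2 Z + 1) ^ (nb γ) : ℕ) : ℝ) * (C0 : ℝ) ^ (nb γ)
        ≤ (Dp * (Z : ℝ) ^ e) * (C0 : ℝ) ^ (nb γ) :=
          mul_le_mul_of_nonneg_right h5 (by positivity)
      _ = (Dp * (C0 : ℝ) ^ (nb γ)) * (Z : ℝ) ^ e := by ring
      _ ≤ D * (Z : ℝ) ^ e := by
          apply mul_le_mul_of_nonneg_right _ (by positivity)
          rw [hD]; linarith
  have hU' : (U : ℝ) ≤ 2 ^ s := by exact_mod_cast hU.le
  have hDW : ∀ D' : ℝ, 0 < D' → D' * (1 + 4 * 2 ^ s) ≤ D →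
      D' * (Z : ℝ) ^ e * (1 + 4 * U) ≤ W := by
    intro D' hD' hle
    calc D' * (Z : ℝ) ^ e * (1 + 4 * U) = (D' * (1 + 4 * U)) * (Z : ℝ) ^ e := by ring
      _ ≤ (D' * (1 + 4 * 2 ^ s)) * (Z : ℝ) ^ e := by gcongr
      _ ≤ D * (Z : ℝ) ^ e := mul_le_mul_of_nonneg_right hle (by positivity)
  have hnb : ∀ t ∈ T, ∀ i, i ∉ S → NB (nb γ) (Y ^ (2 * M)) (t i) := by
    intro t ht i hi
    obtain ⟨g1, -, g3, -⟩ := hT t ht
    exact nb_of_not_dusty hY hγ hγ1 hM (Nat.le_ceil _) (hFam.pos t ht i) (g1 i) (g3 i hi)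
  have hsm0 : γ' ≤ η := by
    have h6 : (0 : ℝ) ≤ 2 * γ' * (nb γ : ℝ) ^ 2 := by
      have := hs.hγ'
      positivity
    linarith [hs.small]
  have hM0 : (0 : ℝ) < M := by exact_mod_cast hM
  have hεM : 2 * (M : ℝ) * (η / (2 * M)) = η := by field_simp
  obtain ⟨I, hI, hopt⟩ := optQ hr2 hrq ρ (fun i => (hr i).1) S Λ hSΛ hΛ κ hκ1 hκ2
  -- the projection to the coordinates in `I`
  set ι : Fin (r + 1) → Fin q := fun i => I.orderEmbOfFin hI i with hι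
  have hιinj : Function.Injective ι := fun x y h => (I.orderEmbOfFin hI).injective h
  have hιsurj : ∀ a ∈ I, ∃ i, ι i = a := by
    intro a ha
    have h5 : a ∈ Set.range (I.orderEmbOfFin hI) := by
      rw [Finset.range_orderEmbOfFin]
      exact ha
    exact h5
  have hsumI : ∑ i, ρ (ι i) = ∑ i ∈ I, ρ i := by
    have h5 : I = univ.image ι := by
      ext a
      rw [mem_image]
      constructor
      · intro ha
        obtain ⟨i, hi⟩ := hιsurj a ha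
        exact ⟨i, mem_univ _, hi⟩
      · rintro ⟨i, -, rfl⟩
        exact Finset.orderEmbOfFin_mem I hI i
    conv_rhs => rw [h5]
    rw [sum_image (fun x _ y _ h => hιinj h)]
  obtain ⟨v, N, hv, hvN⟩ := hFam.rel ι hιinj
  have hv2 : ∀ i, v i ≠ 0 ∧ (v i).natAbs < 2 ^ s := fun i => ⟨(hv i).1, (hv i).2.trans_lt hU⟩
  set T' : Finset (Fin (r + 1) → ℕ) := T.image fun t i => t (ι i) with hT'
  have hcard : (T'.card : ℝ) = T.card := by
    rw [hT', card_image_of_injOn]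
    intro t ht t' ht' htt
    exact hFam.inj (by omega) hιinj ht ht' fun i => congrFun htt i
  rw [← hcard]
  have hPc : Pc v N Z Y (fun i => ρ (ι i)) T' := by
    constructor
    · intro t' ht'
      obtain ⟨t, ht, rfl⟩ := mem_image.1 ht'
      exact ⟨fun i => hFam.pos t ht _, fun i => hFam.le t ht _,
        fun i j hij => hFam.cop t ht _ _ fun h => hij (hιinj h), hvN t ht⟩
    · intro t' ht' i
      obtain ⟨t, ht, rfl⟩ := mem_image.1 ht'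
      exact hrad t ht _
  have hfin : ∀ x y : ℝ, x ≤ η → ∑ i ∈ I, ρ i - y ≤ κ * ∑ i, ρ i →
      (T'.card : ℝ) ≤ W ^ (r + 1 + 1) * Y ^ x * Real.exp (∑ i, ρ (ι i) - y) →
      (T'.card : ℝ) ≤ W ^ (r + 1 + 1) * Y ^ η * Real.exp (κ * ∑ i, ρ i) := by
    intro x y hx hy hc
    refine hc.trans ?_
    rw [hsumI]
    have e1 : Y ^ x ≤ Y ^ η := Real.rpow_le_rpow_of_exponent_le hY hx
    have e2 : Real.exp (∑ i ∈ I, ρ i - y) ≤ Real.exp (κ * ∑ i, ρ i) := Real.exp_le_exp.2 hy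
    gcongr
  rcases hopt with ⟨a, haI, b, hbI, hab, hS, hL, hsave⟩ |
    ⟨a, haI, b, hbI, c, hcI, hab, hac, hbc, hcS, hsave⟩
  · obtain ⟨a', rfl⟩ := hιsurj a haI
    obtain ⟨b', rfl⟩ := hιsurj b hbI
    have hab' : a' ≠ b' := fun h => hab (by rw [h])
    by_cases haS : ι a' ∈ S
    · have hbS : ι b' ∉ S := by tauto
      have h5 := h1a (r + 1) Z s M M' γ' Y W v N (fun i => ρ (ι i)) T' b' a' hY hs.hγ' hW1 hV hlog
        hs.hM' hs.hw hs.hKK hZ1 hv2 (Ne.symm hab') hPc (fun t' ht' => by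
          obtain ⟨t, ht, rfl⟩ := mem_image.1 ht'
          exact ⟨hnb t ht _ hbS, (hT t ht).2.1 _ haS⟩)
      exact hfin _ _ hs.small (by linarith) h5
    · by_cases hbS : ι b' ∈ S
      · have h5 := h1a (r + 1) Z s M M' γ' Y W v N (fun i => ρ (ι i)) T' a' b' hY hs.hγ' hW1 hV
          hlog hs.hM' hs.hw hs.hKK hZ1 hv2 hab' hPc (fun t' ht' => by
            obtain ⟨t, ht, rfl⟩ := mem_image.1 ht'
            exact ⟨hnb t ht _ haS, (hT t ht).2.1 _ hbS⟩)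
        exact hfin _ _ hs.small (by linarith) h5
      · have h5 := h1b (r + 1) Z U M Y W v N (fun i => ρ (ι i)) T' a' b' hY hW2 hV hv hZ2 hab' hPc
          (fun t' ht' => by
            obtain ⟨t, ht, rfl⟩ := mem_image.1 ht'
            refine ⟨hnb t ht _ haS, hnb t ht _ hbS, ?_⟩
            rcases hL with h6 | h6
            · exact Or.inl ((hT t ht).2.2.2 _ haS h6)
            · exact Or.inr ((hT t ht).2.2.2 _ hbS h6))
        rw [hεM] at h5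
        exact hfin _ _ le_rfl (by linarith) h5
  · obtain ⟨a', rfl⟩ := hιsurj a haI
    obtain ⟨b', rfl⟩ := hιsurj b hbI
    obtain ⟨c', rfl⟩ := hιsurj c hcI
    have h5 := h2 (r + 1) Z U M' t0 γ' Y W v N (fun i => ρ (ι i)) T' a' b' c' hZ hY hs.hγ' hW1 hV
      (hDW D2 hD2 (by rw [hD]; linarith)) hs.ht0 hs.htM hv (fun i => hr (ι i))
      (fun h => hab (by rw [h])) (fun h => hac (by rw [h])) (fun h => hbc (by rw [h])) hPc
      (fun t' ht' => by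
        obtain ⟨t, ht, rfl⟩ := mem_image.1 ht'
        exact (hT t ht).2.1 _ hcS)
    exact hfin _ _ hsm0 hsave h5

end Pool.Agent.N745.NT
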