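import Mathlib

/-!
# The optimization
-/

set_option autoImplicit false

namespace Pool.Agent.N745.NT

open Finset

theorem sum_le_card_mul {ι : Type*} (s : Finset ι) (f : ι → ℝ) {c : ℝ} (h : ∀ i ∈ s, f i ≤ c) :
    ∑ i ∈ s, f i ≤ s.card * c := by
  have := sum_le_card_nsmul s f c h
  rwa [nsmul_eq_mul] at this

/-- among the possible savings one is large -/
theorem opt {m : ℕ} (hm : 2 ≤ m) (s : Fin m → ℝ) (hs : ∀ i, 0 ≤ s i) (S Λ : Finset (Fin m))
    (hSΛ : Disjoint S Λ) (hΛ : ∃ u, u ∉ Λ) (g : ℝ) (hg0 : 0 ≤ g) (hg1 : g ≤ 3 / 4)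
    (hg2 : g * m ≤ 2) (hg3 : g * Λ.card ≤ 1) :
    (∃ a b, a ≠ b ∧ (a ∉ S ∨ b ∉ S) ∧ (a ∉ Λ ∨ b ∉ Λ) ∧ g * ∑ i, s i ≤ s a + s b) ∨
    (∃ a b c, a ≠ b ∧ a ≠ c ∧ b ≠ c ∧ c ∈ S ∧ g * ∑ i, s i ≤ s c + (s a + s b) / 2) ∨
    (∃ a c, a ≠ c ∧ c ∈ S ∧ g * ∑ i, s i ≤ s c + s a / 2 ∧ m = 2) := by
  classical
  have hmR : (2 : ℝ) ≤ m := by exact_mod_cast hm
  haveI : NeZero m := ⟨by omega⟩
  obtain ⟨i1, -, hi1⟩ := exists_max_image (univ : Finset (Fin m)) s ⟨0, mem_univ _⟩
  have hne1 : (univ.erase i1 : Finset (Fin m)).Nonempty := by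
    rw [← card_pos, card_erase_of_mem (mem_univ _), card_univ, Fintype.card_fin]
    omega
  obtain ⟨i2, hi2m, hi2⟩ := exists_max_image _ s hne1
  have h12 : i2 ≠ i1 := (mem_erase.1 hi2m).1
  have h1 : ∀ i, s i ≤ s i1 := fun i => hi1 i (mem_univ _)
  have h2 : ∀ i, i ≠ i1 → s i ≤ s i2 := fun i hi => hi2 i (mem_erase.2 ⟨hi, mem_univ _⟩)
  by_cases hcase : i1 ∈ Λ ∧ i2 ∈ Λ
  · -- the two largest are low
    left
    have hne : (Λᶜ).Nonempty := by
      obtain ⟨u, hu⟩ := hΛ
      exact ⟨u, mem_compl.2 hu⟩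
    obtain ⟨u, hum, hu⟩ := exists_max_image _ s hne
    rw [mem_compl] at hum
    have hcard : ((Λᶜ).card : ℝ) = m - Λ.card := by
      rw [card_compl, Fintype.card_fin, Nat.cast_sub]
      exact (card_le_univ _).trans (by rw [Fintype.card_fin])
    have hp : ∑ i, s i ≤ Λ.card * s i1 + (m - Λ.card) * s u := by
      rw [← sum_add_sum_compl Λ, ← hcard]
      exact add_le_add (sum_le_card_mul _ _ fun i _ => h1 i) (sum_le_card_mul _ _ fun i hi => hu i hi)
    refine ⟨i1, u, ?_, Or.inl ?_, Or.inr hum, ?_⟩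
    · rintro rfl
      exact hum hcase.1
    · exact fun h => (disjoint_left.1 hSΛ) h hcase.1
    · have e1 := mul_le_mul_of_nonneg_left hp hg0
      refine e1.trans ?_
      have e2 : s u ≤ s i1 := h1 u
      have e3 : 0 ≤ s u := hs u
      have e4 : g * (Λ.card * s i1 + (m - Λ.card) * s u) =
          (g * Λ.card) * s i1 + (g * m - g * Λ.card) * s u := by ring
      rw [e4]
      nlinarith [mul_nonneg (sub_nonneg.2 hg3) (sub_nonneg.2 e2),
        mul_nonneg (sub_nonneg.2 hg2) e3]
  · have hcase' : i1 ∉ Λ ∨ i2 ∉ Λ := by tauto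
    by_cases hSS : i1 ∈ S ∧ i2 ∈ S
    · -- both dusty
      right
      rcases Nat.lt_or_ge 2 m with hm3 | hm3
      · left
        have hne2 : ((univ.erase i1).erase i2 : Finset (Fin m)).Nonempty := by
          rw [← card_pos, card_erase_of_mem hi2m, card_erase_of_mem (mem_univ _), card_univ,
            Fintype.card_fin]
          omega
        obtain ⟨i3, hi3m, hi3⟩ := exists_max_image _ s hne2
        have h32 : i3 ≠ i2 := (mem_erase.1 hi3m).1
        have h31 : i3 ≠ i1 := (mem_erase.1 (mem_erase.1 hi3m).2).1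
        have hp : ∑ i, s i ≤ s i1 + (s i2 + (m - 2) * s i3) := by
          rw [← add_sum_erase _ _ (mem_univ i1), ← add_sum_erase _ _ hi2m]
          gcongr
          refine (sum_le_card_mul _ _ fun i hi => hi3 i hi).trans (le_of_eq ?_)
          rw [card_erase_of_mem hi2m, card_erase_of_mem (mem_univ _), card_univ,
            Fintype.card_fin]
          congr 1
          have : (m - 1 - 1 : ℕ) = m - 2 := by omega
          rw [this, Nat.cast_sub hm]
          norm_num
        refine ⟨i2, i3, i1, Ne.symm h32, h12, h31, hSS.1, ?_⟩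
        have e1 := mul_le_mul_of_nonneg_left hp hg0
        refine e1.trans ?_
        have e2 : s i2 ≤ s i1 := h1 i2
        have e3 : s i3 ≤ s i2 := h2 i3 h31
        have e4 := hs i3
        have e5 : g * (s i1 + (s i2 + (m - 2) * s i3)) =
            g * s i1 + g * s i2 + (g * m) * s i3 - 2 * g * s i3 := by ring
        rw [e5]
        nlinarith [mul_nonneg (sub_nonneg.2 hg2) e4, mul_nonneg (by linarith : 0 ≤ 1 - g)
          (sub_nonneg.2 e2), mul_nonneg (by linarith : 0 ≤ 3 / 2 - 2 * g) (sub_nonneg.2 e3)]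
      · right
        have hm2 : m = 2 := by omega
        have hp : ∑ i, s i ≤ s i1 + (m - 1) * s i2 := by
          rw [← add_sum_erase _ _ (mem_univ i1)]
          gcongr
          refine (sum_le_card_mul _ _ fun i hi => hi2 i hi).trans (le_of_eq ?_)
          rw [card_erase_of_mem (mem_univ _), card_univ, Fintype.card_fin]
          congr 1
          rw [Nat.cast_sub (by omega)]
          norm_num
        refine ⟨i2, i1, h12, hSS.1, ?_, hm2⟩
        have hmR2 : (m : ℝ) = 2 := by exact_mod_cast hm2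
        rw [hmR2] at hp
        have e1 := mul_le_mul_of_nonneg_left hp hg0
        refine e1.trans ?_
        have e2 : s i2 ≤ s i1 := h1 i2
        have e3 := hs i2
        nlinarith [mul_nonneg (by linarith : 0 ≤ 1 - g) (sub_nonneg.2 e2),
          mul_nonneg (by linarith : 0 ≤ 3 / 4 - g) e3]
    · left
      have hSS' : i1 ∉ S ∨ i2 ∉ S := by tauto
      refine ⟨i1, i2, Ne.symm h12, hSS', hcase', ?_⟩
      have hp : ∑ i, s i ≤ s i1 + (m - 1) * s i2 := by
        rw [← add_sum_erase _ _ (mem_univ i1)]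
        gcongr
        refine (sum_le_card_mul _ _ fun i hi => hi2 i hi).trans (le_of_eq ?_)
        rw [card_erase_of_mem (mem_univ _), card_univ, Fintype.card_fin]
        congr 1
        rw [Nat.cast_sub (by omega)]
        norm_num
      have e1 := mul_le_mul_of_nonneg_left hp hg0
      refine e1.trans ?_
      have e2 : s i2 ≤ s i1 := h1 i2
      have e3 := hs i2
      have e5 : g * (s i1 + (m - 1) * s i2) = g * s i1 + (g * m) * s i2 - g * s i2 := by ring
      rw [e5]
      nlinarith [mul_nonneg (by linarith : 0 ≤ 1 - g) (sub_nonneg.2 e2),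
        mul_nonneg (sub_nonneg.2 hg2) e3]

end Pool.Agent.N745.NT
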