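import Pool.Agent.N745.NT.Lev
import Pool.Agent.N745.NT.Opt
import Pool.Agent.N745.NT.Bl2
import Pool.Agent.N745.NT.Bl3
import Pool.Agent.N745.T1.Pat1

/-!
# One level, one pattern, one cell
-/

set_option autoImplicit false

namespace Pool.Agent.N745.NT

open Finset Pool.Agent.Y913 Pool.Agent.Y913.Nb Pool.Agent.H785R2.ABC Pool.Agent.H705R2.ABC
  Pool.Agent.N745.T1

/-- fibres over the coordinates outside `G` -/
theorem piece_fib {m Z : ℕ} {v : Fin m → ℤ} {N : ℤ} {W : ℝ} (hW : 1 ≤ W)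
    (hV : ∀ R : ℝ, 0 ≤ R → (((Icc 1 Z).filter fun d => (rad d : ℝ) ≤ R).card : ℝ) ≤ W * R)
    (r : Fin m → ℝ) (T : Finset (Fin m → ℕ))
    (hT : ∀ t ∈ T, Tup v N Z t ∧ ∀ i, (rad (t i) : ℝ) ≤ Real.exp (r i)) (G : Finset (Fin m))
    {B : ℝ} (hB : 0 ≤ B)
    (hfib : ∀ T' : Finset (Fin m → ℕ), T' ⊆ T →
      (∀ t ∈ T', ∀ t' ∈ T', ∀ i, i ∉ G → t i = t' i) → (T'.card : ℝ) ≤ B) :
    (T.card : ℝ) ≤ W ^ m * Real.exp (∑ i, r i - ∑ i ∈ G, r i) * B := by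
  classical
  refine (fiber_count T G (fun i => (Icc 1 Z).filter fun d => (rad d : ℝ) ≤ Real.exp (r i))
    ?_ hfib).trans ?_
  · intro t ht i _
    obtain ⟨h1, h2⟩ := hT t ht
    rw [mem_filter, mem_Icc]
    exact ⟨⟨h1.pos i, h1.le i⟩, h2 i⟩
  · apply mul_le_mul_of_nonneg_right _ hB
    have e1 : ∑ i, r i - ∑ i ∈ G, r i = ∑ i ∈ Gᶜ, r i := by
      rw [← sum_add_sum_compl G]
      ring
    rw [e1, Real.exp_sum]
    calc ∏ i ∈ Gᶜ, ((((Icc 1 Z).filter fun d => (rad d : ℝ) ≤ Real.exp (r i)).card : ℕ) : ℝ)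
        ≤ ∏ i ∈ Gᶜ, (W * Real.exp (r i)) := by
          apply prod_le_prod
          · intro i _
            positivity
          · intro i _
            exact hV _ (Real.exp_pos _).le
      _ = W ^ (Gᶜ).card * ∏ i ∈ Gᶜ, Real.exp (r i) := by
          rw [prod_mul_distrib, prod_const]
      _ ≤ W ^ m * ∏ i ∈ Gᶜ, Real.exp (r i) := by
          apply mul_le_mul_of_nonneg_right _ (prod_nonneg fun i _ => (Real.exp_pos _).le)
          apply pow_le_pow_right₀ hW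
          exact (card_le_univ _).trans (by rw [Fintype.card_fin])

/-- the three-halves power of a radical is smaller than the modulus -/
theorem radius_le {Y γ' : ℝ} {t0 ρ : ℕ} (hY : 1 ≤ Y) (ht0 : 3 ≤ γ' * t0)
    (hρ : Y ^ (γ' / 2) < ρ) {x : ℝ} (hx0 : 0 ≤ x) (hx : x ≤ 2 * Y) :
    x ^ ((3 : ℝ) / 2) ≤ 4 * ((ρ ^ t0 : ℕ) : ℝ) := by
  have hY0 : (0 : ℝ) < Y := by linarith
  have h1 : Y ^ ((3 : ℝ) / 2) ≤ ((ρ ^ t0 : ℕ) : ℝ) := by
    calc Y ^ ((3 : ℝ) / 2) ≤ Y ^ (γ' / 2 * t0) :=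
          Real.rpow_le_rpow_of_exponent_le hY (by linarith)
      _ = (Y ^ (γ' / 2)) ^ t0 := by rw [Real.rpow_mul hY0.le, Real.rpow_natCast]
      _ ≤ (ρ : ℝ) ^ t0 := pow_le_pow_left₀ (by positivity) hρ.le t0
      _ = _ := by push_cast; rfl
  have h2 : (2 : ℝ) ^ ((3 : ℝ) / 2) ≤ 4 := by
    calc (2 : ℝ) ^ ((3 : ℝ) / 2) ≤ (2 : ℝ) ^ (2 : ℝ) :=
          Real.rpow_le_rpow_of_exponent_le (by norm_num) (by norm_num)
      _ = 4 := by norm_num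
  calc x ^ ((3 : ℝ) / 2) ≤ (2 * Y) ^ ((3 : ℝ) / 2) := Real.rpow_le_rpow hx0 hx (by norm_num)
    _ = 2 ^ ((3 : ℝ) / 2) * Y ^ ((3 : ℝ) / 2) := Real.mul_rpow (by norm_num) hY0.le
    _ ≤ 4 * ((ρ ^ t0 : ℕ) : ℝ) := by gcongr

/-- the hypotheses on one piece -/
structure Pc {m : ℕ} (v : Fin m → ℤ) (N : ℤ) (Z : ℕ) (Y : ℝ) (r : Fin m → ℝ)
    (T : Finset (Fin m → ℕ)) : Prop where
  tup : ∀ t ∈ T, Tup v N Z t
  rad : ∀ t ∈ T, ∀ i, (Pool.Agent.H785R2.ABC.rad (t i) : ℝ) ≤ Real.exp (r i)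

theorem Pc.mono {m : ℕ} {v : Fin m → ℤ} {N : ℤ} {Z : ℕ} {Y : ℝ} {r : Fin m → ℝ}
    {T T' : Finset (Fin m → ℕ)} (h : Pc v N Z Y r T) (hT : T' ⊆ T) : Pc v N Z Y r T' :=
  ⟨fun t ht => h.tup t (hT ht), fun t ht => h.rad t (hT ht)⟩

/-- two members, one dusty and one solid -/
theorem opt1a (n w : ℕ) : ∃ C0 : ℕ, ∀ (m Z s M M' : ℕ) (γ' Y W : ℝ) (v : Fin m → ℤ) (N : ℤ)
    (r : Fin m → ℝ) (T : Finset (Fin m → ℕ)) (a c : Fin m), 1 ≤ Y → 0 < γ' → 1 ≤ W →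
    (∀ R : ℝ, 0 ≤ R → (((Icc 1 Z).filter fun d => (rad d : ℝ) ≤ R).card : ℝ) ≤ W * R) →
    (((2 * Nat.log 2 Z + 1) ^ n : ℕ) : ℝ) * (C0 : ℝ) ^ n ≤ W →
    1 ≤ M' → 2 * (M : ℝ) ≤ γ' * w → 2 * KK n (n * w) + s ≤ M' →
    ((C0 * (n * Nat.log 2 Z) : ℕ) : ℝ) ≤ Y ^ γ' →
    (∀ i, v i ≠ 0 ∧ (v i).natAbs < 2 ^ s) → a ≠ c → Pc v N Z Y r T →
    (∀ t ∈ T, NB n (Y ^ (2 * M)) (t a) ∧ Dusty Y γ' M' (t c)) →
    (T.card : ℝ) ≤ W ^ (m + 1) * Y ^ (γ' + 2 * γ' * (n : ℝ) ^ 2) *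
      Real.exp (∑ i, r i - (r a + r c)) := by
  classical
  obtain ⟨C0, h⟩ := bl2 n w
  refine ⟨C0, ?_⟩
  intro m Z s M M' γ' Y W v N r T a c hY hγ' hW hV hlog hM' hw hKK hC0 hv hac hP hT
  have hY0 : (0 : ℝ) < Y := by linarith
  set E := Real.exp (∑ i, r i - (r a + r c)) with hE
  have hE0 : 0 < E := Real.exp_pos _
  set B : ℝ := W ^ m * E * (W * Y ^ (2 * γ' * (n : ℝ) ^ 2)) with hB
  have hB0 : 0 ≤ B := by rw [hB]; positivity
  have hmain := dust_fiberN (r := c) (B := B) hY hγ'.le (fun t ht => (hT t ht).2) hB0 (by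
    intro ρ hρ1 hρ2
    obtain ⟨g1, g2, g3⟩ := rho_bounds (M := M) (w := w) hY hγ' hw hρ1
    have hsum : ∑ i ∈ ({a, c} : Finset (Fin m)), r i = r a + r c := by
      rw [sum_insert (by simp [hac]), sum_singleton]
    have hP' := hP.mono (filter_subset (fun t => ρ ^ M' ∣ t c) T)
    have h1 := piece_fib (B := W * Y ^ (2 * γ' * (n : ℝ) ^ 2)) hW hV r
      (T.filter fun t => ρ ^ M' ∣ t c) (fun t ht => ⟨hP'.tup t ht, hP'.rad t ht⟩) {a, c}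
      (by positivity) (by
        intro T' hT' hfix
        have h2 := h m Z ρ M' s v N (Y ^ (2 * M)) T' a c g1 hM' (one_le_pow₀ hY) g2 (by
          have : ((C0 * (n * Nat.log 2 Z) : ℕ) : ℝ) ≤ ((ρ ^ 2 : ℕ) : ℝ) := hC0.trans g3
          exact_mod_cast this) hKK hv hac (fun t ht => ⟨hP'.tup t (hT' ht),
            (hT t (mem_filter.1 (hT' ht)).1).1, (mem_filter.1 (hT' ht)).2⟩) hfix
        have h3 := rho_pow_le hY hρ2 C0 (Nat.log 2 Z) n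
        calc (T'.card : ℝ) ≤ (((2 * Nat.log 2 Z + 1) ^ n * (C0 * (ρ ^ 2) ^ n) ^ n : ℕ) : ℝ) := by
              exact_mod_cast h2
          _ ≤ (((2 * Nat.log 2 Z + 1) ^ n : ℕ) : ℝ) * (C0 : ℝ) ^ n *
              Y ^ (2 * γ' * (n : ℝ) ^ 2) := h3
          _ ≤ W * Y ^ (2 * γ' * (n : ℝ) ^ 2) :=
              mul_le_mul_of_nonneg_right hlog (by positivity))
    rw [hsum] at h1
    exact h1)
  refine hmain.trans (le_of_eq ?_)
  rw [hB, Real.rpow_add hY0, pow_succ]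
  ring

/-- two solid members which are not both small -/
theorem opt1b (n : ℕ) (ε : ℝ) (hε : 0 < ε) : ∃ (C : ℕ) (δ : ℝ), 0 < δ ∧ ∀ (m Z U M : ℕ)
    (Y W : ℝ) (v : Fin m → ℤ) (N : ℤ) (r : Fin m → ℝ) (T : Finset (Fin m → ℕ)) (a b : Fin m),
    1 ≤ Y → 2 ≤ W →
    (∀ R : ℝ, 0 ≤ R → (((Icc 1 Z).filter fun d => (rad d : ℝ) ≤ R).card : ℝ) ≤ W * R) →
    (∀ i, v i ≠ 0 ∧ (v i).natAbs ≤ U) →
    ((Z + U + 2 * U * Z : ℕ) : ℝ) ≤ Real.exp ((⌊Y ^ (2 * M)⌋₊ : ℝ) ^ δ) → a ≠ b →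
    Pc v N Z Y r T →
    (∀ t ∈ T, NB n (Y ^ (2 * M)) (t a) ∧ NB n (Y ^ (2 * M)) (t b) ∧
      (2 * U * (⌊Y ^ (2 * M)⌋₊ + 2) ^ C < t a ∨ 2 * U * (⌊Y ^ (2 * M)⌋₊ + 2) ^ C < t b)) →
    (T.card : ℝ) ≤ W ^ (m + 1) * Y ^ (2 * M * ε) * Real.exp (∑ i, r i - (r a + r b)) := by
  classical
  obtain ⟨C, δ, hδ, h⟩ := bl3 n ε hε
  refine ⟨C, δ, hδ, ?_⟩
  intro m Z U M Y W v N r T a b hY hW hV hv hZ hab hP hT
  have hY0 : (0 : ℝ) < Y := by linarith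
  have hYM : (1 : ℝ) ≤ Y ^ (2 * M) := one_le_pow₀ hY
  have hYn : 1 ≤ ⌊Y ^ (2 * M)⌋₊ := Nat.le_floor (by exact_mod_cast hYM)
  have hfl : (⌊Y ^ (2 * M)⌋₊ : ℝ) ≤ Y ^ (2 * M) := Nat.floor_le (by positivity)
  have hnb : ∀ x : ℕ, NB n (Y ^ (2 * M)) x → NB n ((⌊Y ^ (2 * M)⌋₊ : ℕ) : ℝ) x := by
    rintro x ⟨y, e, h1, h2⟩
    refine ⟨y, e, fun i => ⟨(h1 i).1, ?_⟩, h2⟩
    exact_mod_cast Nat.le_floor (h1 i).2
  have hY1 : (1 : ℝ) ≤ Y ^ (2 * M * ε) := Real.one_le_rpow hY (by positivity)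
  have hsum : ∑ i ∈ ({a, b} : Finset (Fin m)), r i = r a + r b := by
    rw [sum_insert (by simp [hab]), sum_singleton]
  have h1 := piece_fib (B := W * Y ^ (2 * M * ε)) (by linarith : 1 ≤ W) hV r T
    (fun t ht => ⟨hP.tup t ht, hP.rad t ht⟩) {a, b} (by positivity) (by
      intro T' hT' hfix
      have h2 := h m Z ⌊Y ^ (2 * M)⌋₊ U v N T' a b hYn hv hZ hab (fun t ht => by
        obtain ⟨g1, g2, g3⟩ := hT t (hT' ht)
        exact ⟨hP.tup t (hT' ht), hnb _ g1, hnb _ g2, g3⟩) hfix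
      have h3 : (⌊Y ^ (2 * M)⌋₊ : ℝ) ^ ε ≤ Y ^ (2 * M * ε) := by
        calc (⌊Y ^ (2 * M)⌋₊ : ℝ) ^ ε ≤ (Y ^ (2 * M)) ^ ε :=
              Real.rpow_le_rpow (Nat.cast_nonneg _) hfl hε.le
          _ = Y ^ (2 * M * ε) := by
              rw [← Real.rpow_natCast, ← Real.rpow_mul hY0.le]
              congr 1
              push_cast
              ring
      calc (T'.card : ℝ) ≤ 1 + (⌊Y ^ (2 * M)⌋₊ : ℝ) ^ ε := h2
        _ ≤ Y ^ (2 * M * ε) + Y ^ (2 * M * ε) := add_le_add hY1 h3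
        _ = 2 * Y ^ (2 * M * ε) := by ring
        _ ≤ W * Y ^ (2 * M * ε) := by gcongr)
  rw [hsum] at h1
  refine h1.trans (le_of_eq ?_)
  rw [pow_succ]
  ring

/-- three members, one dusty -/
theorem opt2 (hF : Basics) (hA4 : StmtA4) (hJ : StmtJ) (e : ℝ) (he : 0 < e) :
    ∃ D : ℝ, 0 < D ∧ ∀ (m Z U M' t0 : ℕ) (γ' Y W : ℝ) (v : Fin m → ℤ) (N : ℤ)
    (r : Fin m → ℝ) (T : Finset (Fin m → ℕ)) (a b c : Fin m), 1 ≤ Z → 1 ≤ Y → 0 < γ' → 1 ≤ W →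
    (∀ R : ℝ, 0 ≤ R → (((Icc 1 Z).filter fun d => (rad d : ℝ) ≤ R).card : ℝ) ≤ W * R) →
    D * (Z : ℝ) ^ e * (1 + 4 * U) ≤ W → 3 ≤ γ' * t0 → t0 ≤ M' →
    (∀ i, v i ≠ 0 ∧ (v i).natAbs ≤ U) → (∀ i, 0 ≤ r i ∧ Real.exp (r i) ≤ 2 * Y) →
    a ≠ b → a ≠ c → b ≠ c → Pc v N Z Y r T → (∀ t ∈ T, Dusty Y γ' M' (t c)) →
    (T.card : ℝ) ≤ W ^ (m + 1) * Y ^ γ' * Real.exp (∑ i, r i - (r c + (r a + r b) / 2)) := by
  classical
  obtain ⟨D, hD, h⟩ := bl1 hF hA4 hJ e he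
  refine ⟨D, hD, ?_⟩
  intro m Z U M' t0 γ' Y W v N r T a b c hZ hY hγ' hW hV hDW ht0 htM hv hr hab hac hbc hP hT
  have hY0 : (0 : ℝ) < Y := by linarith
  set B : ℝ := W ^ m * Real.exp (∑ i, r i - (r a + (r b + r c))) *
    (W * Real.exp ((r a + r b) / 2)) with hB
  have hB0 : 0 ≤ B := by rw [hB]; positivity
  have hmain := dust_fiberN (r := c) (B := B) hY hγ'.le hT hB0 (by
    intro ρ hρ1 hρ2
    have hρ0 : (0 : ℝ) < ρ := lt_of_le_of_lt (by positivity) hρ1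
    have hρ0' : 0 < ρ := by exact_mod_cast hρ0
    have hsum : ∑ i ∈ ({a, b, c} : Finset (Fin m)), r i = r a + (r b + r c) := by
      rw [sum_insert (by simp [hab, hac]), sum_insert (by simp [hbc]), sum_singleton]
    have hP' := hP.mono (filter_subset (fun t => ρ ^ M' ∣ t c) T)
    have h1 := piece_fib (B := W * Real.exp ((r a + r b) / 2)) hW hV r
      (T.filter fun t => ρ ^ M' ∣ t c) (fun t ht => ⟨hP'.tup t ht, hP'.rad t ht⟩) {a, b, c}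
      (by positivity) (by
        intro T' hT' hfix
        have h2 := h m Z (ρ ^ t0) U v N (fun i => Real.exp (r i)) T' a b c hZ
          (Nat.one_le_iff_ne_zero.2 (pow_ne_zero _ (by omega)))
          (fun i => Real.one_le_exp (hr i).1) hv
          (fun i => radius_le hY ht0 hρ1 (Real.exp_pos _).le (hr i).2) hab hac hbc
          (fun t ht => ⟨hP'.tup t (hT' ht), hP'.rad t (hT' ht),
            (pow_dvd_pow ρ htM).trans (mem_filter.1 (hT' ht)).2⟩) hfix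
        refine h2.trans ?_
        have h3 : (Real.exp (r a) * Real.exp (r b)) ^ ((1 : ℝ) / 2) =
            Real.exp ((r a + r b) / 2) := by
          rw [← Real.exp_add, ← Real.exp_mul]
          congr 1
          ring
        rw [h3]
        calc D * (Z : ℝ) ^ e * ((1 + 4 * U) * Real.exp ((r a + r b) / 2))
            = (D * (Z : ℝ) ^ e * (1 + 4 * U)) * Real.exp ((r a + r b) / 2) := by ring
          _ ≤ W * Real.exp ((r a + r b) / 2) :=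
              mul_le_mul_of_nonneg_right hDW (Real.exp_pos _).le)
    rw [hsum] at h1
    exact h1)
  refine hmain.trans (le_of_eq ?_)
  rw [hB, pow_succ]
  have e1 : Real.exp (∑ i, r i - (r c + (r a + r b) / 2)) =
      Real.exp (∑ i, r i - (r a + (r b + r c))) * Real.exp ((r a + r b) / 2) := by
    rw [← Real.exp_add]
    congr 1
    ring
  rw [e1]
  ring

/-- two members, one dusty -/
theorem opt3 (hF : Basics) (hA4 : StmtA4) (hJ : StmtJ) (e : ℝ) (he : 0 < e) :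
    ∃ D : ℝ, 0 < D ∧ ∀ (m Z U M' t0 : ℕ) (γ' Y W : ℝ) (v : Fin m → ℤ) (N : ℤ)
    (r : Fin m → ℝ) (T : Finset (Fin m → ℕ)) (a c : Fin m), 1 ≤ Z → 1 ≤ Y → 0 < γ' → 1 ≤ W →
    (∀ R : ℝ, 0 ≤ R → (((Icc 1 Z).filter fun d => (rad d : ℝ) ≤ R).card : ℝ) ≤ W * R) →
    D * (Z : ℝ) ^ e * (1 + 4 * U) ≤ W → 3 ≤ γ' * t0 → t0 ≤ M' →
    (∀ i, v i ≠ 0 ∧ (v i).natAbs ≤ U) → (∀ i, 0 ≤ r i ∧ Real.exp (r i) ≤ 2 * Y) →
    a ≠ c → Pc v N Z Y r T → (∀ t ∈ T, Dusty Y γ' M' (t c)) →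
    (T.card : ℝ) ≤ W ^ (m + 1) * Y ^ γ' * Real.exp (∑ i, r i - (r c + r a / 2)) := by
  classical
  obtain ⟨D, hD, h⟩ := bl1' hF hA4 hJ e he
  refine ⟨D, hD, ?_⟩
  intro m Z U M' t0 γ' Y W v N r T a c hZ hY hγ' hW hV hDW ht0 htM hv hr hac hP hT
  have hY0 : (0 : ℝ) < Y := by linarith
  set B : ℝ := W ^ m * Real.exp (∑ i, r i - (r a + r c)) * (W * Real.exp (r a / 2)) with hB
  have hB0 : 0 ≤ B := by rw [hB]; positivity
  have hmain := dust_fiberN (r := c) (B := B) hY hγ'.le hT hB0 (by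
    intro ρ hρ1 hρ2
    have hρ0 : (0 : ℝ) < ρ := lt_of_le_of_lt (by positivity) hρ1
    have hρ0' : 0 < ρ := by exact_mod_cast hρ0
    have hsum : ∑ i ∈ ({a, c} : Finset (Fin m)), r i = r a + r c := by
      rw [sum_insert (by simp [hac]), sum_singleton]
    have hP' := hP.mono (filter_subset (fun t => ρ ^ M' ∣ t c) T)
    have h1 := piece_fib (B := W * Real.exp (r a / 2)) hW hV r
      (T.filter fun t => ρ ^ M' ∣ t c) (fun t ht => ⟨hP'.tup t ht, hP'.rad t ht⟩) {a, c}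
      (by positivity) (by
        intro T' hT' hfix
        have h2 := h m Z (ρ ^ t0) U v N (fun i => Real.exp (r i)) T' a c hZ
          (Nat.one_le_iff_ne_zero.2 (pow_ne_zero _ (by omega)))
          (fun i => Real.one_le_exp (hr i).1) hv
          (fun i => radius_le hY ht0 hρ1 (Real.exp_pos _).le (hr i).2) hac
          (fun t ht => ⟨hP'.tup t (hT' ht), hP'.rad t (hT' ht),
            (pow_dvd_pow ρ htM).trans (mem_filter.1 (hT' ht)).2⟩) hfix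
        refine h2.trans ?_
        have h3 : (Real.exp (r a)) ^ ((1 : ℝ) / 2) = Real.exp (r a / 2) := by
          rw [← Real.exp_mul]
          congr 1
          ring
        have hZ1 : (1 : ℝ) ≤ Z := by exact_mod_cast hZ
        calc (D * (Z : ℝ) ^ e * ((1 + 4 * U) * Real.exp (r a))) ^ ((1 : ℝ) / 2)
            ≤ (W * (W * Real.exp (r a))) ^ ((1 : ℝ) / 2) := by
              apply Real.rpow_le_rpow (by positivity) _ (by norm_num)
              calc D * (Z : ℝ) ^ e * ((1 + 4 * U) * Real.exp (r a))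
                  = (D * (Z : ℝ) ^ e * (1 + 4 * U)) * Real.exp (r a) := by ring
                _ ≤ W * Real.exp (r a) := mul_le_mul_of_nonneg_right hDW (Real.exp_pos _).le
                _ = 1 * (W * Real.exp (r a)) := (one_mul _).symm
                _ ≤ W * (W * Real.exp (r a)) := by gcongr
          _ = ((W * W) * Real.exp (r a)) ^ ((1 : ℝ) / 2) := by rw [mul_assoc]
          _ = W * Real.exp (r a / 2) := by
              rw [Real.mul_rpow (by positivity) (Real.exp_pos _).le, h3]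
              congr 1
              rw [← sq, ← Real.rpow_natCast, ← Real.rpow_mul (by linarith)]
              norm_num)
    rw [hsum] at h1
    exact h1)
  refine hmain.trans (le_of_eq ?_)
  rw [hB, pow_succ]
  have e1 : Real.exp (∑ i, r i - (r c + r a / 2)) =
      Real.exp (∑ i, r i - (r a + r c)) * Real.exp (r a / 2) := by
    rw [← Real.exp_add]
    congr 1
    ring
  rw [e1]
  ring

end Pool.Agent.N745.NT
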